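import Mathlib

set_option autoImplicit false

open Finset

namespace H152HR

/-- `x` branches to the left of `r` at the binary level `i` -/
def Br (i x r : ℕ) : Prop := x / 2 ^ (i + 1) = r / 2 ^ (i + 1) ∧ x / 2 ^ i < r / 2 ^ i

theorem div_succ (x i : ℕ) : x / 2 ^ (i + 1) = x / 2 ^ i / 2 := by
  rw [pow_succ, Nat.div_div_eq_div_mul]

theorem Br.lt {i x r : ℕ} (h : Br i x r) : x < r := by
  by_contra hc
  exact absurd h.2 (not_lt.2 (Nat.div_le_div_right (not_lt.1 hc)))

theorem Br.half {i x r : ℕ} (h : Br i x r) : ∃ q, x / 2 ^ i = 2 * q ∧ r / 2 ^ i = 2 * q + 1 := by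
  obtain ⟨h1, h2⟩ := h
  rw [div_succ, div_succ] at h1
  exact ⟨x / 2 ^ i / 2, by omega, by omega⟩

theorem eq_of_le {x r i j : ℕ} (h : x / 2 ^ i = r / 2 ^ i) (hij : i ≤ j) :
    x / 2 ^ j = r / 2 ^ j := by
  obtain ⟨d, rfl⟩ : ∃ d, j = i + d := ⟨j - i, by omega⟩
  rw [pow_add, ← Nat.div_div_eq_div_mul, ← Nat.div_div_eq_div_mul, h]

theorem exists_br {x r : ℕ} (h : x < r) (L : ℕ) (hL : r < 2 ^ L) : ∃ i < L, Br i x r := by
  classical
  have hex : ∃ i, x / 2 ^ i = r / 2 ^ i := ⟨L, by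
    rw [Nat.div_eq_of_lt hL, Nat.div_eq_of_lt (h.trans hL)]⟩
  obtain ⟨i, hi, hmin⟩ : ∃ i, x / 2 ^ i = r / 2 ^ i ∧ ∀ j < i, x / 2 ^ j ≠ r / 2 ^ j :=
    ⟨Nat.find hex, Nat.find_spec hex, fun j hj => Nat.find_min hex hj⟩
  have hi0 : i ≠ 0 := by
    rintro rfl
    simp at hi
    omega
  have hiL : i ≤ L := by
    by_contra hc
    exact hmin L (by omega) (by rw [Nat.div_eq_of_lt hL, Nat.div_eq_of_lt (h.trans hL)])
  obtain ⟨j, rfl⟩ : ∃ j, i = j + 1 := ⟨i - 1, by omega⟩
  refine ⟨j, by omega, hi, ?_⟩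
  have h1 := hmin j (by omega)
  have h2 : x / 2 ^ j ≤ r / 2 ^ j := Nat.div_le_div_right h.le
  omega

theorem br_left {i i' x x' r : ℕ} (h : Br i x r) (h' : Br i' x' r) (hii : i' < i) : x < x' := by
  have h1 : x' / 2 ^ i = r / 2 ^ i := eq_of_le h'.1 hii
  have h2 : x / 2 ^ i < x' / 2 ^ i := by rw [h1]; exact h.2
  by_contra hc
  exact absurd h2 (not_lt.2 (Nat.div_le_div_right (not_lt.1 hc)))

theorem br_right {i i' x x' r : ℕ} (h : Br i r x) (h' : Br i' r x') (hii : i' < i) : x' < x := by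
  have h1 : r / 2 ^ i = x' / 2 ^ i := eq_of_le h'.1 hii
  have h2 : x' / 2 ^ i < x / 2 ^ i := by rw [← h1]; exact h.2
  by_contra hc
  exact absurd h2 (not_lt.2 (Nat.div_le_div_right (not_lt.1 hc)))

open Classical in
/-- the levels at which some element of `X` branches to the left of `x` -/
noncomputable def LB (L : ℕ) (X : Finset ℕ) (x : ℕ) : Finset ℕ :=
  (range L).filter (fun i => ∃ x' ∈ X, Br i x' x)

open Classical in
/-- the levels at which some element of `X` branches to the right of `x` -/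
noncomputable def RB (L : ℕ) (X : Finset ℕ) (x : ℕ) : Finset ℕ :=
  (range L).filter (fun i => ∃ x' ∈ X, Br i x x')

open Classical in
theorem mem_LB {L : ℕ} {X : Finset ℕ} {x i : ℕ} : i ∈ LB L X x ↔ i < L ∧ ∃ x' ∈ X, Br i x' x := by
  unfold LB
  rw [mem_filter, mem_range]

open Classical in
theorem mem_RB {L : ℕ} {X : Finset ℕ} {x i : ℕ} : i ∈ RB L X x ↔ i < L ∧ ∃ x' ∈ X, Br i x x' := by
  unfold RB
  rw [mem_filter, mem_range]

theorem LB_inj {L : ℕ} {X : Finset ℕ} (hX : ∀ x ∈ X, x < 2 ^ L) {x x' : ℕ} (hx : x ∈ X)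
    (hx' : x' ∈ X) (h : LB L X x = LB L X x') : x = x' := by
  have key : ∀ a ∈ X, ∀ b ∈ X, a < b → LB L X a ≠ LB L X b := by
    intro a ha b hb hab heq
    obtain ⟨i, hiL, hi⟩ := exists_br hab L (hX b hb)
    have h1 : i ∈ LB L X b := mem_LB.2 ⟨hiL, a, ha, hi⟩
    rw [← heq] at h1
    obtain ⟨_, c, _, hc⟩ := mem_LB.1 h1
    obtain ⟨q, e1, e2⟩ := hi.half
    obtain ⟨q', e3, e4⟩ := hc.half
    omega
  rcases lt_trichotomy x x' with h1 | h1 | h1
  · exact absurd h (key x hx x' hx' h1)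
  · exact h1
  · exact absurd h.symm (key x' hx' x hx h1)

theorem RB_inj {L : ℕ} {X : Finset ℕ} (hX : ∀ x ∈ X, x < 2 ^ L) {x x' : ℕ} (hx : x ∈ X)
    (hx' : x' ∈ X) (h : RB L X x = RB L X x') : x = x' := by
  have key : ∀ a ∈ X, ∀ b ∈ X, a < b → RB L X a ≠ RB L X b := by
    intro a ha b hb hab heq
    obtain ⟨i, hiL, hi⟩ := exists_br hab L (hX b hb)
    have h1 : i ∈ RB L X a := mem_RB.2 ⟨hiL, b, hb, hi⟩
    rw [heq] at h1
    obtain ⟨_, c, _, hc⟩ := mem_RB.1 h1
    obtain ⟨q, e1, e2⟩ := hi.half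
    obtain ⟨q', e3, e4⟩ := hc.half
    omega
  rcases lt_trichotomy x x' with h1 | h1 | h1
  · exact absurd h (key x hx x' hx' h1)
  · exact h1
  · exact absurd h.symm (key x' hx' x hx h1)

/-- few elements can have few blocks of branching levels -/
theorem few_blocks (L M len s : ℕ) (hlen : 1 ≤ len) (hL : L ≤ M * len) (X : Finset ℕ)
    (f : ℕ → Finset ℕ) (hf : ∀ x, f x ⊆ range L)
    (hinj : ∀ x ∈ X, ∀ x' ∈ X, f x = f x' → x = x') :
    (X.filter (fun x => ((f x).image (fun i => i / len)).card < s)).card ≤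
      2 ^ M * 2 ^ (s * len) := by
  classical
  obtain ⟨W, hW⟩ : ∃ W : Finset (Finset ℕ), W = ((range M).powerset.filter
      (fun H => H.card < s)).biUnion (fun H => ((range L).filter (fun i => i / len ∈ H)).powerset) :=
    ⟨_, rfl⟩
  have h1 : (X.filter (fun x => ((f x).image (fun i => i / len)).card < s)).card ≤ W.card := by
    refine Finset.card_le_card_of_injOn f ?_ ?_
    · intro x hx
      rw [Finset.mem_coe, mem_filter] at hx
      rw [Finset.mem_coe, hW, mem_biUnion]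
      refine ⟨(f x).image (fun i => i / len), ?_, ?_⟩
      · rw [mem_filter, mem_powerset]
        refine ⟨?_, hx.2⟩
        intro b hb
        obtain ⟨i, hi, rfl⟩ := mem_image.1 hb
        rw [mem_range]
        have h2 := mem_range.1 (hf x hi)
        exact (Nat.div_lt_iff_lt_mul (by omega)).2 (by omega)
      · rw [mem_powerset]
        intro i hi
        exact mem_filter.2 ⟨hf x hi, mem_image_of_mem _ hi⟩
    · intro x hx x' hx' h
      rw [Finset.mem_coe, mem_filter] at hx hx'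
      exact hinj x hx.1 x' hx'.1 h
  refine h1.trans ?_
  rw [hW]
  refine (Finset.card_biUnion_le_card_mul _ _ (2 ^ (s * len)) ?_).trans ?_
  · intro H hH
    rw [mem_filter] at hH
    rw [card_powerset]
    refine Nat.pow_le_pow_right (by norm_num) ?_
    have h3 : (range L).filter (fun i => i / len ∈ H) ⊆
        H.biUnion (fun b => (range len).image (fun j => b * len + j)) := by
      intro i hi
      rw [mem_filter] at hi
      rw [mem_biUnion]
      refine ⟨i / len, hi.2, ?_⟩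
      rw [mem_image]
      refine ⟨i % len, mem_range.2 (Nat.mod_lt _ (by omega)), ?_⟩
      have := Nat.div_add_mod i len
      rw [Nat.mul_comm] at this
      exact this
    refine (card_le_card h3).trans ((Finset.card_biUnion_le_card_mul _ _ len ?_).trans ?_)
    · intro b _
      exact card_image_le.trans (by rw [card_range])
    · exact Nat.mul_le_mul_right _ hH.2.le
  · refine Nat.mul_le_mul_right _ ?_
    refine (card_filter_le _ _).trans ?_
    rw [card_powerset, card_range]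

end H152HR
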