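import Mathlib
import Pool.Agent.H152.TT.Count
import Pool.Agent.H152.HR.Trie

set_option autoImplicit false

open Finset

namespace H152HR

open H152TT

variable {n : ℕ}

open Classical in
/-- the common in-neighbours of a set -/
noncomputable def nb (R : Fin n → Fin n → Prop) (J : Finset (Fin n)) : Finset (Fin n) :=
  univ.filter (fun x => ∀ y ∈ J, R x y)

open Classical in
theorem mem_nb {R : Fin n → Fin n → Prop} {J : Finset (Fin n)} {x : Fin n} :
    x ∈ nb R J ↔ ∀ y ∈ J, R x y := by
  unfold nb
  rw [mem_filter]
  simp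

open Classical in
/-- the common in-neighbours above a set -/
noncomputable def zset (R : Fin n → Fin n → Prop) (J S : Finset (Fin n)) : Finset ℕ :=
  ((nb R J).filter (fun x => ∀ r ∈ S, r < x)).image (fun x => x.val)

open Classical in
/-- the blocks of levels at which the common in-neighbourhood branches to the left of `r`, above
the roots smaller than `r` -/
noncomputable def hitL (L len : ℕ) (R : Fin n → Fin n → Prop) (J X0 : Finset (Fin n))
    (r : Fin n) : Finset ℕ :=
  (LB L (zset R J (X0.filter (fun r' => r' < r))) r.val).image (fun i => i / len)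

open Classical in
/-- the blocks of levels at which the common in-neighbourhood branches to the right of `r` -/
noncomputable def hitR (L len : ℕ) (R : Fin n → Fin n → Prop) (J : Finset (Fin n))
    (r : Fin n) : Finset ℕ :=
  (RB L (zset R J ∅) r.val).image (fun i => i / len)

/-- too few blocks at some root -/
def Poor (L len s : ℕ) (R : Fin n → Fin n → Prop) (J X0 : Finset (Fin n)) : Prop :=
  ∃ r ∈ X0, (hitL L len R J X0 r).card < s ∨ (hitR L len R J r).card < s

theorem LB_sub (L : ℕ) (X : Finset ℕ) (x : ℕ) : LB L X x ⊆ range L := by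
  intro i hi
  rw [mem_range]
  exact (mem_LB.1 hi).1

theorem RB_sub (L : ℕ) (X : Finset ℕ) (x : ℕ) : RB L X x ⊆ range L := by
  intro i hi
  rw [mem_range]
  exact (mem_RB.1 hi).1

theorem zset_lt {L : ℕ} (hL : n ≤ 2 ^ L) (R : Fin n → Fin n → Prop) (J S : Finset (Fin n)) :
    ∀ x ∈ zset R J S, x < 2 ^ L := by
  classical
  intro x hx
  unfold zset at hx
  obtain ⟨y, _, rfl⟩ := mem_image.1 hx
  exact y.isLt.trans_le hL

open Classical in
theorem mem_zset {R : Fin n → Fin n → Prop} {J S : Finset (Fin n)} {x : Fin n} :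
    x.val ∈ zset R J S ↔ (∀ y ∈ J, R x y) ∧ ∀ r ∈ S, r < x := by
  unfold zset
  rw [mem_image]
  constructor
  · rintro ⟨y, hy, hyx⟩
    have : y = x := Fin.ext hyx
    subst this
    rw [mem_filter, mem_nb] at hy
    exact hy
  · intro h
    exact ⟨x, by rw [mem_filter, mem_nb]; exact h, rfl⟩

/-- the number of roots with few blocks on the left -/
theorem few_left {L M len : ℕ} (hn : n ≤ 2 ^ L) (hlen : 1 ≤ len) (hL : L ≤ M * len) (s : ℕ)
    (R : Fin n → Fin n → Prop) (J S : Finset (Fin n)) (A : Finset (Fin n))
    (hA : ∀ x ∈ A, (∀ y ∈ J, R x y) ∧ (∀ r ∈ S, r < x) ∧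
      ((LB L (zset R J S) x.val).image (fun i => i / len)).card < s) :
    A.card ≤ 2 ^ M * 2 ^ (s * len) := by
  classical
  refine le_trans ?_ (few_blocks L M len s hlen hL (zset R J S) (fun x => LB L (zset R J S) x)
    (fun x => LB_sub L _ x) (fun x hx x' hx' h => LB_inj (zset_lt hn R J S) hx hx' h))
  refine Finset.card_le_card_of_injOn (fun x => x.val) ?_ (fun x _ y _ h => Fin.ext h)
  intro x hx
  have h := hA x hx
  rw [Finset.mem_coe, mem_filter]
  exact ⟨mem_zset.2 ⟨h.1, h.2.1⟩, h.2.2⟩

theorem few_right {L M len : ℕ} (hn : n ≤ 2 ^ L) (hlen : 1 ≤ len) (hL : L ≤ M * len) (s : ℕ)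
    (R : Fin n → Fin n → Prop) (J : Finset (Fin n)) (A : Finset (Fin n))
    (hA : ∀ x ∈ A, (∀ y ∈ J, R x y) ∧
      ((RB L (zset R J ∅) x.val).image (fun i => i / len)).card < s) :
    A.card ≤ 2 ^ M * 2 ^ (s * len) := by
  classical
  refine le_trans ?_ (few_blocks L M len s hlen hL (zset R J ∅) (fun x => RB L (zset R J ∅) x)
    (fun x => RB_sub L _ x) (fun x hx x' hx' h => RB_inj (zset_lt hn R J ∅) hx hx' h))
  refine Finset.card_le_card_of_injOn (fun x => x.val) ?_ (fun x _ y _ h => Fin.ext h)
  intro x hx
  have h := hA x hx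
  rw [Finset.mem_coe, mem_filter]
  exact ⟨mem_zset.2 ⟨h.1, fun r hr => absurd hr (notMem_empty _)⟩, h.2⟩

open Classical in
/-- the degenerate or poor configurations -/
noncomputable def bad (L len s t : ℕ) (R : Fin n → Fin n → Prop) :
    Finset ((Fin t → Fin n) × (Fin t → Fin n)) :=
  (hom R t t).filter (fun z => ¬ Function.Injective z.1 ∨
    Poor L len s R (univ.image z.2) (univ.image z.1))

open Classical in
/-- the set of first coordinates is recovered from one removed vertex -/
theorem fiber_bound {t : ℕ} (i : Fin (t+1)) (R : Fin n → Fin n → Prop)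
    (W : Finset ((Fin (t+1) → Fin n) × (Fin (t+1) → Fin n))) (hW : W ⊆ hom R (t+1) (t+1)) (B : ℕ)
    (hB : ∀ (x' : Fin t → Fin n) (y : Fin (t+1) → Fin n),
      ((univ : Finset (Fin n)).filter (fun a => (i.insertNth a x', y) ∈ W)).card ≤ B) :
    W.card ≤ B * (hom R t (t+1)).card := by
  have h1 := Finset.card_le_mul_card_image (f := fun z : (Fin (t+1) → Fin n) × (Fin (t+1) → Fin n)
    => ((fun j => z.1 (i.succAbove j), z.2) : (Fin t → Fin n) × (Fin (t+1) → Fin n))) W B ?_
  · refine h1.trans (Nat.mul_le_mul_left _ (card_le_card ?_))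
    intro w hw
    obtain ⟨z, hz, rfl⟩ := mem_image.1 hw
    rw [mem_hom]
    intro j j'
    exact mem_hom.1 (hW hz) _ _
  · rintro ⟨x', y⟩ _
    refine le_trans ?_ (hB x' y)
    refine Finset.card_le_card_of_injOn (fun z => z.1 i) ?_ ?_
    · rintro ⟨x, y'⟩ hz
      rw [Finset.mem_coe, mem_filter] at hz
      rw [Finset.mem_coe, mem_filter]
      refine ⟨mem_univ _, ?_⟩
      have h2 := Prod.ext_iff.1 hz.2
      have h3 : (fun j => x (i.succAbove j)) = x' := h2.1
      have h4 : y' = y := h2.2
      subst h4
      have h5 : i.insertNth (x i) x' = x := by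
        rw [← h3]
        exact Fin.insertNth_self_removeNth i x
      simp only
      rw [h5]
      exact hz.1
    · rintro ⟨x, y1⟩ hz ⟨x2, y2⟩ hz2 hxx
      rw [Finset.mem_coe, mem_filter] at hz hz2
      have h2 := Prod.ext_iff.1 hz.2
      have h3 : (fun j => x (i.succAbove j)) = x' := h2.1
      have h4 : y1 = y := h2.2
      have h2' := Prod.ext_iff.1 hz2.2
      have h3' : (fun j => x2 (i.succAbove j)) = x' := h2'.1
      have h4' : y2 = y := h2'.2
      have h5 : i.insertNth (x i) x' = x := by
        rw [← h3]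
        exact Fin.insertNth_self_removeNth i x
      have h5' : i.insertNth (x2 i) x' = x2 := by
        rw [← h3']
        exact Fin.insertNth_self_removeNth i x2
      have hxx' : x i = x2 i := hxx
      have : x = x2 := by rw [← h5, ← h5', hxx']
      rw [this, h4, h4']

/-- few configurations are degenerate or poor -/
theorem bad_card {L M len : ℕ} (hn : n ≤ 2 ^ L) (hlen : 1 ≤ len) (hL : L ≤ M * len) (s t : ℕ)
    (R : Fin n → Fin n → Prop) :
    (bad L len s (t+1) R).card ≤
      ((t+1) * (t+1) + (t+1) * ((2 ^ (t+1) + 1) * (2 ^ M * 2 ^ (s * len)))) *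
        (hom R t (t+1)).card := by
  classical
  obtain ⟨B, hB⟩ : ∃ B, B = 2 ^ M * 2 ^ (s * len) := ⟨_, rfl⟩
  rw [← hB]
  -- the degenerate ones
  obtain ⟨W1, hW1⟩ : ∃ W1 : Fin (t+1) × Fin (t+1) →
    Finset ((Fin (t+1) → Fin n) × (Fin (t+1) → Fin n)), ∀ p, W1 p =
      (hom R (t+1) (t+1)).filter (fun z => p.1 ≠ p.2 ∧ z.1 p.1 = z.1 p.2) := ⟨_, fun _ => rfl⟩
  obtain ⟨W2, hW2⟩ : ∃ W2 : Fin (t+1) → Finset ((Fin (t+1) → Fin n) × (Fin (t+1) → Fin n)),
    ∀ i, W2 i = (hom R (t+1) (t+1)).filter (fun z =>
      (hitL L len R (univ.image z.2) (univ.image z.1) (z.1 i)).card < s ∨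
      (hitR L len R (univ.image z.2) (z.1 i)).card < s) := ⟨_, fun _ => rfl⟩
  have hsub : bad L len s (t+1) R ⊆ (univ.biUnion W1) ∪ (univ.biUnion W2) := by
    intro z hz
    unfold bad at hz
    rw [mem_filter] at hz
    rw [mem_union]
    rcases hz.2 with h | ⟨r, hr, h⟩
    · left
      simp only [Function.Injective] at h
      push Not at h
      obtain ⟨a, b, hab, hne⟩ := h
      rw [mem_biUnion]
      refine ⟨(a, b), mem_univ _, ?_⟩
      rw [hW1, mem_filter]
      exact ⟨hz.1, hne, hab⟩
    · right
      obtain ⟨i, _, rfl⟩ := mem_image.1 hr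
      rw [mem_biUnion]
      refine ⟨i, mem_univ _, ?_⟩
      rw [hW2, mem_filter]
      exact ⟨hz.1, h⟩
  have h1 : ∀ p ∈ (univ : Finset (Fin (t+1) × Fin (t+1))), (W1 p).card ≤
      (hom R t (t+1)).card := by
    rintro ⟨a, b⟩ _
    by_cases hab : a = b
    · rw [hW1]
      simp [hab]
    · obtain ⟨b', rfl⟩ := Fin.exists_succAbove_eq (Ne.symm hab)
      have := fiber_bound a R (W1 (a, a.succAbove b')) (by rw [hW1]; exact filter_subset _ _) 1 (by
        intro x' y
        rw [Finset.card_le_one]
        intro u hu v hv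
        rw [mem_filter, hW1, mem_filter] at hu hv
        have e1 := hu.2.2.2
        have e2 := hv.2.2.2
        simp only [Fin.insertNth_apply_same, Fin.insertNth_apply_succAbove] at e1 e2
        rw [e1, e2])
      rwa [one_mul] at this
  have h2 : ∀ i ∈ (univ : Finset (Fin (t+1))), (W2 i).card ≤
      (2 ^ (t+1) + 1) * B * (hom R t (t+1)).card := by
    intro i _
    refine fiber_bound i R (W2 i) (by rw [hW2]; exact filter_subset _ _) _ ?_
    intro x' y
    -- the set of new vertices splits according to the other roots below it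
    have hsub2 : (univ : Finset (Fin n)).filter (fun a => (i.insertNth a x', y) ∈ W2 i) ⊆
        ((univ : Finset (Finset (Fin t))).biUnion (fun Q =>
          univ.filter (fun a : Fin n => (∀ c ∈ univ.image y, R a c) ∧
            (∀ r ∈ Q.image x', r < a) ∧
            ((LB L (zset R (univ.image y) (Q.image x')) a.val).image (fun i => i / len)).card < s)))
        ∪ univ.filter (fun a : Fin n => (∀ c ∈ univ.image y, R a c) ∧
            ((RB L (zset R (univ.image y) ∅) a.val).image (fun i => i / len)).card < s) := by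
      intro a ha
      rw [mem_filter, hW2, mem_filter] at ha
      obtain ⟨_, hh, hlr⟩ := ha
      rw [mem_hom] at hh
      simp only [Fin.insertNth_apply_same] at hlr
      have hadj : ∀ c ∈ univ.image y, R a c := by
        intro c hc
        obtain ⟨j, _, rfl⟩ := mem_image.1 hc
        have := hh i j
        simp only [Fin.insertNth_apply_same] at this
        exact this
      rw [mem_union]
      rcases hlr with h | h
      · left
        rw [mem_biUnion]
        refine ⟨univ.filter (fun j => x' j < a), mem_univ _, ?_⟩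
        rw [mem_filter]
        refine ⟨mem_univ _, hadj, ?_, ?_⟩
        · intro r hr
          obtain ⟨j, hj, rfl⟩ := mem_image.1 hr
          exact (mem_filter.1 hj).2
        · have hset : (univ.image (i.insertNth a x' : Fin (t+1) → Fin n)).filter
              (fun r' => r' < a) = (univ.filter (fun j => x' j < a)).image x' := by
            ext r
            rw [mem_filter, mem_image, mem_image]
            constructor
            · rintro ⟨⟨j, _, rfl⟩, hlt⟩
              rcases Fin.eq_self_or_eq_succAbove i j with rfl | ⟨j', rfl⟩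
              · simp only [Fin.insertNth_apply_same] at hlt
                exact absurd hlt (lt_irrefl _)
              · simp only [Fin.insertNth_apply_succAbove] at hlt ⊢
                exact ⟨j', mem_filter.2 ⟨mem_univ _, hlt⟩, rfl⟩
            · rintro ⟨j, hj, rfl⟩
              exact ⟨⟨i.succAbove j, mem_univ _, by simp only [Fin.insertNth_apply_succAbove]⟩,
                (mem_filter.1 hj).2⟩
          unfold hitL at h
          rw [hset] at h
          exact h
      · right
        rw [mem_filter]
        exact ⟨mem_univ _, hadj, h⟩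
    refine (card_le_card hsub2).trans ((card_union_le _ _).trans ?_)
    have e1 : ((univ : Finset (Finset (Fin t))).biUnion (fun Q =>
          univ.filter (fun a : Fin n => (∀ c ∈ univ.image y, R a c) ∧
            (∀ r ∈ Q.image x', r < a) ∧
            ((LB L (zset R (univ.image y) (Q.image x')) a.val).image
              (fun i => i / len)).card < s))).card ≤ 2 ^ (t+1) * B := by
      refine (Finset.card_biUnion_le_card_mul _ _ B ?_).trans ?_
      · intro Q _
        rw [hB]
        refine few_left hn hlen hL s R (univ.image y) (Q.image x') _ ?_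
        intro a ha
        exact (mem_filter.1 ha).2
      · refine Nat.mul_le_mul_right _ ?_
        rw [card_univ, Fintype.card_finset, Fintype.card_fin]
        exact Nat.pow_le_pow_right (by norm_num) (by omega)
    have e2 : (univ.filter (fun a : Fin n => (∀ c ∈ univ.image y, R a c) ∧
            ((RB L (zset R (univ.image y) ∅) a.val).image (fun i => i / len)).card < s)).card ≤
        B := by
      rw [hB]
      refine few_right hn hlen hL s R (univ.image y) _ ?_
      intro a ha
      exact (mem_filter.1 ha).2
    calc _ ≤ 2 ^ (t+1) * B + B := Nat.add_le_add e1 e2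
      _ = (2 ^ (t+1) + 1) * B := by ring
  have h3 := (card_le_card hsub).trans (card_union_le _ _)
  have h4 := Finset.card_biUnion_le_card_mul univ W1 _ h1
  have h5 := Finset.card_biUnion_le_card_mul univ W2 _ h2
  rw [card_univ, Fintype.card_prod, Fintype.card_fin] at h4
  rw [card_univ, Fintype.card_fin] at h5
  calc (bad L len s (t+1) R).card ≤ (univ.biUnion W1).card + (univ.biUnion W2).card := h3
    _ ≤ (t+1) * (t+1) * (hom R t (t+1)).card +
        (t+1) * ((2 ^ (t+1) + 1) * B * (hom R t (t+1)).card) := Nat.add_le_add h4 h5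
    _ = _ := by ring

end H152HR
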