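import Mathlib
import Pool.Agent.H152.TT.Count
import Pool.Agent.H152.TT.Main
import Pool.Agent.H152.HR.Poor

set_option autoImplicit false

open Finset

namespace H152HR

open H152TT

variable {n : ℕ}

open Classical in
/-- the common out-neighbours of a tuple -/
noncomputable def cn {t : ℕ} (R : Fin n → Fin n → Prop) (x : Fin t → Fin n) : Finset (Fin n) :=
  univ.filter (fun v => ∀ i, R (x i) v)

theorem mem_cn {t : ℕ} {R : Fin n → Fin n → Prop} {x : Fin t → Fin n} {v : Fin n} :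
    v ∈ cn R x ↔ ∀ i, R (x i) v := by
  classical
  unfold cn
  rw [mem_filter]
  simp

theorem hom_cn (R : Fin n → Fin n → Prop) (p q : ℕ) :
    (hom R p q).card = ∑ x : Fin p → Fin n, (cn R x).card ^ q := by
  classical
  rw [hom_card]
  rfl

/-- iterated growth -/
theorem hom_big (R : Fin n → Fin n → Prop) (t : ℕ) (A : ℝ) (hA : 0 ≤ A) (hn : 1 ≤ n)
    (he : (n : ℝ) ^ (2 * t + 1) * A ≤ (edg R : ℝ) ^ (t+1)) (q : ℕ) :
    (n : ℝ) ^ (t+1) * A ^ q ≤ ((hom R (t+1) q).card : ℝ) := by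
  have hn0 : (0 : ℝ) < n := by exact_mod_cast hn
  induction q with
  | zero =>
    rw [hom_cn]
    simp
  | succ q ih =>
    have h1 := hom_grow R t q
    have h2 : (n : ℝ) ^ (2 * t + 1) * ((n : ℝ) ^ (t+1) * A ^ (q+1)) ≤
        (n : ℝ) ^ (2 * t + 1) * ((hom R (t+1) (q+1)).card : ℝ) := by
      refine le_trans ?_ h1
      calc (n : ℝ) ^ (2 * t + 1) * ((n : ℝ) ^ (t+1) * A ^ (q+1))
          = ((n : ℝ) ^ (2 * t + 1) * A) * ((n : ℝ) ^ (t+1) * A ^ q) := by ring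
        _ ≤ (edg R : ℝ) ^ (t+1) * ((hom R (t+1) q).card : ℝ) :=
            mul_le_mul he ih (by positivity) (by positivity)
    exact le_of_mul_le_mul_left h2 (by positivity)

/-- a tuple with many common neighbours and few bad subtuples among them -/
theorem choose_root (R : Fin n → Fin n → Prop) (t : ℕ) (hn : 1 ≤ n)
    (Z : Finset ((Fin (t+1) → Fin n) × (Fin (t+1) → Fin n))) (K1 K D0 : ℕ) (A : ℝ) (hA : 0 ≤ A)
    (he : (n : ℝ) ^ (2 * t + 1) * A ≤ (edg R : ℝ) ^ (t+1))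
    (hZ : Z.card ≤ K1 * (hom R t (t+1)).card)
    (hgr : A * ((hom R t (t+1)).card : ℝ) ≤ ((hom R (t+1) (t+1)).card : ℝ))
    (hK : 2 * (K : ℝ) * K1 ≤ A) (hD : 2 * (D0 : ℝ) ^ (t+1) < A ^ (t+1)) :
    ∃ x : Fin (t+1) → Fin n, D0 ≤ (cn R x).card ∧
      (∀ (_ : 0 < K), K * (Z.filter (fun z => z.1 = x)).card ≤ (cn R x).card ^ (t+1)) := by
  classical
  by_contra hcon
  push Not at hcon
  have hn0 : (0 : ℝ) < n := by exact_mod_cast hn
  have h1 : ∀ x : Fin (t+1) → Fin n, (cn R x).card ^ (t+1) ≤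
      D0 ^ (t+1) + K * (Z.filter (fun z => z.1 = x)).card := by
    intro x
    by_cases hx : D0 ≤ (cn R x).card
    · have := (hcon x hx).2
      omega
    · have := Nat.pow_le_pow_left (not_le.1 hx).le (t+1)
      omega
  have h2 : (hom R (t+1) (t+1)).card ≤ n ^ (t+1) * D0 ^ (t+1) + K * Z.card := by
    rw [hom_cn]
    refine (Finset.sum_le_sum fun x _ => h1 x).trans ?_
    rw [Finset.sum_add_distrib, Finset.sum_const, Finset.card_univ, Fintype.card_fun,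
      Fintype.card_fin, Fintype.card_fin, smul_eq_mul, ← Finset.mul_sum,
      ← Finset.card_eq_sum_card_fiberwise (fun z _ => mem_coe.2 (mem_univ z.1))]
  have h3 := hom_big R t A hA hn he (t+1)
  obtain ⟨H, hH⟩ : ∃ H : ℝ, H = ((hom R (t+1) (t+1)).card : ℝ) := ⟨_, rfl⟩
  obtain ⟨h, hh⟩ : ∃ h : ℝ, h = ((hom R t (t+1)).card : ℝ) := ⟨_, rfl⟩
  rw [← hH] at h3 hgr
  rw [← hh] at hgr
  have hh0 : 0 ≤ h := by rw [hh]; exact Nat.cast_nonneg _
  have h4 : H ≤ (n : ℝ) ^ (t+1) * (D0 : ℝ) ^ (t+1) + K * (K1 * h) := by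
    have h5 : (H : ℝ) ≤ (n : ℝ) ^ (t+1) * (D0 : ℝ) ^ (t+1) + K * (Z.card : ℝ) := by
      rw [hH]
      exact_mod_cast h2
    refine h5.trans (add_le_add_right (mul_le_mul_of_nonneg_left ?_ (Nat.cast_nonneg _)) _)
    rw [hh]
    exact_mod_cast hZ
  have h6 : 2 * ((K : ℝ) * (K1 * h)) ≤ H := by
    calc 2 * ((K : ℝ) * (K1 * h)) = (2 * (K : ℝ) * K1) * h := by ring
      _ ≤ A * h := mul_le_mul_of_nonneg_right hK hh0
      _ ≤ H := hgr
  have h7 : 2 * ((n : ℝ) ^ (t+1) * (D0 : ℝ) ^ (t+1)) < (n : ℝ) ^ (t+1) * A ^ (t+1) := by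
    calc 2 * ((n : ℝ) ^ (t+1) * (D0 : ℝ) ^ (t+1)) = (n : ℝ) ^ (t+1) * (2 * (D0 : ℝ) ^ (t+1)) := by
          ring
      _ < _ := mul_lt_mul_of_pos_left hD (by positivity)
  linarith

end H152HR
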