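import Mathlib
import Pool.Agent.H152.TT.Defs
import Pool.Agent.H152.TT.Linear
import Pool.Agent.H152.TT.Classes

set_option autoImplicit false

open Finset

namespace H152HR

open H152TT

/-- an upper bound for the ordered number and a lower bound for the unordered one -/
theorem ratio_of {k : ℕ} (P : SimpleGraph (Fin k)) (α β : ℝ)
    (hup : ∀ ε : ℝ, 0 < ε → ∃ N : ℕ, ∀ n : ℕ, N ≤ n → (exOrd P n : ℝ) ≤ (n : ℝ) ^ (α + ε))
    (hlow : ∃ c : ℝ, 0 < c ∧ ∃ N : ℕ, ∀ n : ℕ, N ≤ n →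
      c * (n : ℝ) ^ β ≤ (SimpleGraph.extremalNumber n P : ℝ))
    (ε : ℝ) (hε : 0 < ε) :
    ∃ N : ℕ, ∀ n : ℕ, N ≤ n → ratio P n ≤ (n : ℝ) ^ (α - β + ε) := by
  obtain ⟨N1, h1⟩ := hup (ε / 2) (by positivity)
  obtain ⟨c, hc, N2, h2⟩ := hlow
  obtain ⟨N3, h3⟩ : ∃ N3 : ℕ, ∀ n : ℕ, N3 ≤ n → 1 / c ≤ (n : ℝ) ^ (ε / 2) := by
    have ht : Filter.Tendsto (fun n : ℕ => (n : ℝ) ^ (ε / 2)) Filter.atTop Filter.atTop :=
      (tendsto_rpow_atTop (by positivity)).comp tendsto_natCast_atTop_atTop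
    exact Filter.eventually_atTop.1 (ht.eventually_ge_atTop (1 / c))
  refine ⟨max (max N1 N2) (max N3 1), fun n hn => ?_⟩
  have hn1 : N1 ≤ n := (le_max_left _ _).trans ((le_max_left _ _).trans hn)
  have hn2 : N2 ≤ n := (le_max_right _ _).trans ((le_max_left _ _).trans hn)
  have hn3 : N3 ≤ n := (le_max_left _ _).trans ((le_max_right _ _).trans hn)
  have hn4 : 1 ≤ n := (le_max_right _ _).trans ((le_max_right _ _).trans hn)
  have hn0 : (0 : ℝ) < n := by exact_mod_cast hn4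
  have hu := h1 n hn1
  have hl := h2 n hn2
  have hlpos : 0 < c * (n : ℝ) ^ β := by positivity
  have hexpos : 0 < (SimpleGraph.extremalNumber n P : ℝ) := lt_of_lt_of_le hlpos hl
  unfold ratio
  rw [div_le_iff₀ hexpos]
  refine hu.trans ?_
  have h5 : (n : ℝ) ^ (α + ε / 2) ≤ (n : ℝ) ^ (α - β + ε) * (c * (n : ℝ) ^ β) := by
    have h7 : (n : ℝ) ^ (α + ε / 2) = (n : ℝ) ^ (α - β + ε) * ((n : ℝ) ^ β /
        (n : ℝ) ^ (ε / 2)) := by
      rw [← Real.rpow_sub hn0, ← Real.rpow_add hn0]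
      congr 1
      ring
    rw [h7]
    refine mul_le_mul_of_nonneg_left ?_ (by positivity)
    have h8 := h3 n hn3
    have h9 : 0 < (n : ℝ) ^ (ε / 2) := by positivity
    rw [div_le_iff₀ h9]
    have h10 : 1 ≤ c * (n : ℝ) ^ (ε / 2) := by
      rw [div_le_iff₀ hc] at h8
      linarith
    calc (n : ℝ) ^ β = (n : ℝ) ^ β * 1 := by ring
      _ ≤ (n : ℝ) ^ β * (c * (n : ℝ) ^ (ε / 2)) := mul_le_mul_of_nonneg_left h10 (by positivity)
      _ = c * (n : ℝ) ^ β * (n : ℝ) ^ (ε / 2) := by ring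
  refine h5.trans ?_
  exact mul_le_mul_of_nonneg_left hl (by positivity)

theorem lower_mono {V : Type} {k : ℕ} (C : SimpleGraph V) (P : SimpleGraph (Fin k))
    (hC : C.IsContained P) (β : ℝ)
    (h : ∃ c : ℝ, 0 < c ∧ ∃ N : ℕ, ∀ n : ℕ, N ≤ n →
      c * (n : ℝ) ^ β ≤ (SimpleGraph.extremalNumber n C : ℝ)) :
    ∃ c : ℝ, 0 < c ∧ ∃ N : ℕ, ∀ n : ℕ, N ≤ n →
      c * (n : ℝ) ^ β ≤ (SimpleGraph.extremalNumber n P : ℝ) := by
  obtain ⟨c, hc, N, h⟩ := h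
  refine ⟨c, hc, N, fun n hn => (h n hn).trans ?_⟩
  exact_mod_cast hC.extremalNumber_le

/-- the linear lower bound -/
theorem lower_lin {k : ℕ} (P : SimpleGraph (Fin k)) (hP : 2 ≤ P.edgeSet.ncard) :
    ∃ c : ℝ, 0 < c ∧ ∃ N : ℕ, ∀ n : ℕ, N ≤ n →
      c * (n : ℝ) ^ (1 : ℝ) ≤ (SimpleGraph.extremalNumber n P : ℝ) := by
  refine ⟨1 / 4, by norm_num, 2, fun n hn => ?_⟩
  have hl := linear_lower P hP n
  have h3 : n ≤ 4 * (n / 2) := by omega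
  have h4 : n ≤ 4 * SimpleGraph.extremalNumber n P := h3.trans (by omega)
  have h5 : (n : ℝ) ≤ 4 * (SimpleGraph.extremalNumber n P : ℝ) := by exact_mod_cast h4
  rw [Real.rpow_one]
  linarith

/-- the upper bound for the ordered extremal number -/
theorem up_of {k : ℕ} (P : SimpleGraph (Fin k)) (α : ℝ)
    (h : ∀ ε : ℝ, 0 < ε → ∃ N : ℕ, ∀ n : ℕ, N ≤ n → ∀ G : SimpleGraph (Fin n),
      ¬ OContains P G → (G.edgeSet.ncard : ℝ) ≤ (n : ℝ) ^ (α + ε)) :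
    ∀ ε : ℝ, 0 < ε → ∃ N : ℕ, ∀ n : ℕ, N ≤ n → (exOrd P n : ℝ) ≤ (n : ℝ) ^ (α + ε) := by
  intro ε hε
  obtain ⟨N, hN⟩ := h ε hε
  exact ⟨N, fun n hn => exOrd_le P n _ (by positivity) (hN n hn)⟩

end H152HR
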