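import Mathlib

set_option autoImplicit false

namespace H152HR

/-- the number of neighbours of `w` that have degree at least two -/
noncomputable def innerDeg {k : ℕ} (P : SimpleGraph (Fin k)) (w : Fin k) : ℕ :=
  {c : Fin k | P.Adj w c ∧ 2 ≤ (P.neighborSet c).ncard}.ncard

/-- `P` is ordered bipartite and on one of its two sides all but at most `t` vertices have at most
`t` neighbours of degree at least two -/
def HubSide2 {k : ℕ} (t : ℕ) (P : SimpleGraph (Fin k)) : Prop :=
  ∃ (m : ℕ) (A : Finset (Fin k)), (∀ u v, P.Adj u v → (u.val < m ↔ m ≤ v.val)) ∧ A.card ≤ t ∧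
    ((∀ w, w.val < m → w ∉ A → innerDeg P w ≤ t) ∨ (∀ w, m ≤ w.val → w ∉ A → innerDeg P w ≤ t))

/-- the number of edges joining two vertices of degree at least two -/
noncomputable def innerEdges {k : ℕ} (P : SimpleGraph (Fin k)) : ℕ :=
  {e ∈ P.edgeSet | ∀ v ∈ e, 2 ≤ (P.neighborSet v).ncard}.ncard

/-- the number of vertices of degree at least two with exactly one neighbour of degree at least
two -/
noncomputable def innerLeaves {k : ℕ} (P : SimpleGraph (Fin k)) : ℕ :=
  {w : Fin k | 2 ≤ (P.neighborSet w).ncard ∧ innerDeg P w = 1}.ncard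

/-- the number of vertices of degree at least two -/
noncomputable def innerVerts {k : ℕ} (P : SimpleGraph (Fin k)) : ℕ :=
  {w : Fin k | 2 ≤ (P.neighborSet w).ncard}.ncard

/-- the number of vertices lying on cycles -/
noncomputable def cycVerts {k : ℕ} (P : SimpleGraph (Fin k)) : ℕ :=
  {x : Fin k | ∃ (u : Fin k) (c : P.Walk u u), c.IsCycle ∧ x ∈ c.support}.ncard

end H152HR
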