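import Mathlib
import Pool.Agent.H152.TT.Feedback
import Pool.Agent.H152.HR.Defs2

set_option autoImplicit false

open Finset

namespace H152HR

open H152TT

/-- the vertices of cycles have two neighbours of degree at least two -/
theorem cycle_mem {k : ℕ} (P F : SimpleGraph (Fin k)) (hF : F ≤ P) {u : Fin k}
    (c : F.Walk u u) (hc : c.IsCycle) :
    ∀ x ∈ c.support, 2 ≤ (P.neighborSet x).ncard ∧ 2 ≤ innerDeg P x := by
  have h1 : ∀ x ∈ c.support, 2 ≤ (P.neighborSet x).ncard := by
    intro x hx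
    rw [← hc.ncard_neighborSet_toSubgraph_eq_two hx]
    refine Set.ncard_le_ncard ?_ (Set.toFinite _)
    intro y hy
    exact hF (c.toSubgraph.adj_sub hy)
  intro x hx
  refine ⟨h1 x hx, ?_⟩
  unfold innerDeg
  refine le_trans (le_of_eq (hc.ncard_neighborSet_toSubgraph_eq_two hx).symm) ?_
  refine Set.ncard_le_ncard ?_ (Set.toFinite _)
  intro y hy
  have h2 : c.toSubgraph.Adj x y := hy
  refine ⟨hF (c.toSubgraph.adj_sub hy), h1 y ?_⟩
  exact (c.mem_verts_toSubgraph).1 h2.snd_mem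

theorem acyclic_of_core {k : ℕ} (P F : SimpleGraph (Fin k)) (hF : F ≤ P) (W : Finset (Fin k))
    (hW : ∀ (u : Fin k) (c : P.Walk u u), c.IsCycle → ∀ x ∈ c.support, x ∈ W)
    (h : (F.induce (W : Set (Fin k))).IsAcyclic) : F.IsAcyclic := by
  intro u c hc
  have hs : ∀ x ∈ c.support, x ∈ (W : Set (Fin k)) := by
    intro x hx
    refine hW u (c.mapLe hF) (hc.mapLe hF) x ?_
    rw [SimpleGraph.Walk.support_mapLe_eq_support]
    exact hx
  refine h (c.induce (W : Set (Fin k)) hs) ?_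
  refine SimpleGraph.Walk.IsCycle.of_map
    (f := (SimpleGraph.Embedding.induce (G := F) (W : Set (Fin k))).toHom) ?_
  rw [SimpleGraph.Walk.map_induce]
  exact hc

/-- a dense part inside the core -/
theorem dense_core {k : ℕ} (P : SimpleGraph (Fin k)) (W : Finset (Fin k))
    (hW : ∀ (u : Fin k) (c : P.Walk u u), c.IsCycle → ∀ x ∈ c.support, x ∈ W) (r : ℕ)
    (hr : 1 ≤ r)
    (hmin : ∀ R : Finset (Sym2 (Fin k)), (P.deleteEdges (R : Set (Sym2 (Fin k)))).IsAcyclic →
      r ≤ R.card) :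
    3 ≤ W.card ∧ ∃ (v : ℕ) (F : SimpleGraph (Fin v)), F.IsContained P ∧ 2 ≤ v ∧
      2 ≤ F.edgeSet.ncard ∧ ((v : ℝ) - 2) / ((F.edgeSet.ncard : ℝ) - 1) ≤
        ((W.card : ℝ) - 2) / ((W.card : ℝ) - 2 + r) ∧ v ≤ W.card := by
  classical
  have hcyc : ¬ P.IsAcyclic := by
    intro h
    have := hmin ∅ (by
      rw [Finset.coe_empty, SimpleGraph.deleteEdges_empty]
      exact h)
    rw [card_empty] at this
    omega
  have hW3 : 3 ≤ W.card := by
    unfold SimpleGraph.IsAcyclic at hcyc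
    push Not at hcyc
    obtain ⟨u, c, hc⟩ := hcyc
    have h1 : c.support.tail.toFinset ⊆ W := by
      intro x hx
      rw [List.mem_toFinset] at hx
      exact hW u c hc x (List.mem_of_mem_tail hx)
    have h2 := card_le_card h1
    rw [List.toFinset_card_of_nodup hc.support_nodup, List.length_tail,
      SimpleGraph.Walk.length_support] at h2
    have h3 := hc.three_le_length
    omega
  refine ⟨hW3, ?_⟩
  obtain ⟨e, he⟩ : ∃ e : Fin W.card ≃o W, e = W.orderIsoOfFin rfl := ⟨_, rfl⟩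
  obtain ⟨Pw, hPw⟩ : ∃ Pw : SimpleGraph (Fin W.card), Pw = P.comap (fun i => (e i : Fin k)) :=
    ⟨_, rfl⟩
  have hinj : Function.Injective (fun i => (e i : Fin k)) :=
    fun i j h => e.injective (Subtype.ext h)
  have hcont : Pw.IsContained P := by
    refine ⟨⟨⟨fun i => (e i : Fin k), ?_⟩, hinj⟩⟩
    intro a b hab
    rw [hPw] at hab
    exact hab
  obtain ⟨v, F, hF, hv, hFe, hd⟩ := dense_part Pw hW3 r hr (by
    intro R' hR'
    have h1 : (P.deleteEdges ((R'.image (Sym2.map (fun i => (e i : Fin k))) :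
        Finset (Sym2 (Fin k))) : Set (Sym2 (Fin k)))).IsAcyclic := by
      refine acyclic_of_core P _ (SimpleGraph.deleteEdges_le _) W hW ?_
      refine SimpleGraph.IsAcyclic.comap (G' := Pw.deleteEdges (R' : Set (Sym2 (Fin W.card))))
        ⟨fun x => e.symm x, ?_⟩ (fun x y h => e.symm.injective h) hR'
      rintro ⟨x, hx⟩ ⟨y, hy⟩ hxy
      rw [SimpleGraph.comap_adj, SimpleGraph.deleteEdges_adj] at hxy
      rw [SimpleGraph.deleteEdges_adj, hPw, SimpleGraph.comap_adj]
      refine ⟨?_, ?_⟩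
      · rw [e.apply_symm_apply, e.apply_symm_apply]
        exact hxy.1
      · intro hc
        apply hxy.2
        rw [Finset.mem_coe, mem_image]
        refine ⟨_, Finset.mem_coe.1 hc, ?_⟩
        rw [Sym2.map_mk]
        simp only [e.apply_symm_apply]
        rfl
    exact (hmin _ h1).trans card_image_le)
  refine ⟨v, F, hF.trans hcont, hv, hFe, hd, ?_⟩
  obtain ⟨⟨f, hf⟩⟩ := hF
  have := Fintype.card_le_of_injective f hf
  rwa [Fintype.card_fin, Fintype.card_fin] at this

end H152HR
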