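import Mathlib

set_option autoImplicit false

namespace H152HR

/-- `P` is ordered bipartite and on one of its two sides all but at most `t` vertices have at most
`t` neighbours -/
def HubSide {k : ℕ} (t : ℕ) (P : SimpleGraph (Fin k)) : Prop :=
  ∃ (m : ℕ) (A : Finset (Fin k)), (∀ u v, P.Adj u v → (u.val < m ↔ m ≤ v.val)) ∧ A.card ≤ t ∧
    ((∀ w, w.val < m → w ∉ A → (P.neighborSet w).ncard ≤ t) ∨
      (∀ w, m ≤ w.val → w ∉ A → (P.neighborSet w).ncard ≤ t))

end H152HR
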