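import Mathlib

set_option autoImplicit false

open Finset

namespace H152HR

open Classical in
/-- few functions take equal values at two given places -/
theorem coll_card {α : Type} [Fintype α] {T : ℕ} (i j : Fin T) (hij : i ≠ j) :
    ((univ : Finset (Fin T → α)).filter (fun f => f i = f j)).card ≤
      Fintype.card α ^ (T - 1) := by
  have h1 : Fintype.card ({l : Fin T // l ≠ j} → α) = Fintype.card α ^ (T - 1) := by
    rw [Fintype.card_fun, Fintype.card_subtype_compl, Fintype.card_subtype_eq, Fintype.card_fin]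
  rw [← h1, ← Finset.card_univ]
  refine Finset.card_le_card_of_injOn (fun f => fun l => f l.1) (fun f _ => mem_coe.2 (mem_univ _)) ?_
  intro f hf f' hf' h
  rw [Finset.mem_coe, mem_filter] at hf hf'
  have h2 : ∀ l, l ≠ j → f l = f' l := fun l hl => congrFun h ⟨l, hl⟩
  funext l
  by_cases hl : l = j
  · subst hl
    rw [← hf.2, ← hf'.2]
    exact h2 i hij
  · exact h2 l hl

open Classical in
/-- few functions have a bad subtuple at given places -/
theorem sub_card {α : Type} [Fintype α] {t T : ℕ} (g : Fin t → Fin T)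
    (hg : Function.Injective g) (B : Finset (Fin t → α)) :
    ((univ : Finset (Fin T → α)).filter (fun f => f ∘ g ∈ B)).card ≤
      B.card * Fintype.card α ^ (T - t) := by
  have h1 : Fintype.card ({l : Fin T // l ∉ Set.range g} → α) = Fintype.card α ^ (T - t) := by
    rw [Fintype.card_fun, Fintype.card_subtype_compl, Fintype.card_fin]
    congr 2
    have := Set.card_range_of_injective hg
    rw [Fintype.card_fin] at this
    exact this
  rw [← h1, ← Fintype.card_coe B, ← Fintype.card_prod, ← Fintype.card_coe]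
  refine Fintype.card_le_of_injective (fun f : {f // f ∈ (univ : Finset (Fin T → α)).filter
    (fun f => f ∘ g ∈ B)} => ((⟨f.1 ∘ g, (mem_filter.1 f.2).2⟩ : {x // x ∈ B}),
      fun l : {l : Fin T // l ∉ Set.range g} => f.1 l.1)) ?_
  rintro ⟨f, hf⟩ ⟨f', hf'⟩ h
  simp only [Prod.mk.injEq, Subtype.mk.injEq] at h
  obtain ⟨h2, h3⟩ := h
  apply Subtype.ext
  funext l
  by_cases hl : l ∈ Set.range g
  · obtain ⟨i, rfl⟩ := hl
    exact congrFun h2 i
  · exact congrFun h3 ⟨l, hl⟩

/-- an injective tuple all of whose subtuples are good -/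
theorem pick {α : Type} [Fintype α] {t T : ℕ} (ht : 1 ≤ t) (htT : t ≤ T)
    (B : Finset (Fin t → α)) (h1 : 2 * T ^ 2 < Fintype.card α)
    (h2 : 2 * T ^ t * B.card ≤ Fintype.card α ^ t) :
    ∃ f : Fin T → α, Function.Injective f ∧
      ∀ g : Fin t → Fin T, Function.Injective g → f ∘ g ∉ B := by
  classical
  by_contra hcon
  push Not at hcon
  obtain ⟨D, hD⟩ : ∃ D, D = Fintype.card α := ⟨_, rfl⟩
  rw [← hD] at h1 h2
  have hcov : (univ : Finset (Fin T → α)) ⊆
      ((univ.filter (fun p : Fin T × Fin T => p.1 ≠ p.2)).biUnion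
        (fun p => univ.filter (fun f : Fin T → α => f p.1 = f p.2))) ∪
      ((univ.filter (fun g : Fin t → Fin T => Function.Injective g)).biUnion
        (fun g => univ.filter (fun f : Fin T → α => f ∘ g ∈ B))) := by
    intro f _
    rw [mem_union]
    by_cases hf : Function.Injective f
    · right
      obtain ⟨g, hg, hgB⟩ := hcon f hf
      rw [mem_biUnion]
      exact ⟨g, mem_filter.2 ⟨mem_univ _, hg⟩, mem_filter.2 ⟨mem_univ _, hgB⟩⟩
    · left
      simp only [Function.Injective] at hf
      push Not at hf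
      obtain ⟨i, j, hij, hne⟩ := hf
      rw [mem_biUnion]
      exact ⟨(i, j), mem_filter.2 ⟨mem_univ _, hne⟩, mem_filter.2 ⟨mem_univ _, hij⟩⟩
  have e1 := card_le_card hcov
  rw [Finset.card_univ, Fintype.card_fun, Fintype.card_fin, ← hD] at e1
  have e2 : ((univ.filter (fun p : Fin T × Fin T => p.1 ≠ p.2)).biUnion
        (fun p => univ.filter (fun f : Fin T → α => f p.1 = f p.2))).card ≤
      T ^ 2 * D ^ (T - 1) := by
    refine (Finset.card_biUnion_le_card_mul _ _ (D ^ (T - 1)) ?_).trans ?_
    · intro p hp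
      rw [hD]
      exact coll_card p.1 p.2 (mem_filter.1 hp).2
    · refine Nat.mul_le_mul_right _ ?_
      refine (Finset.card_le_univ _).trans ?_
      rw [Fintype.card_prod, Fintype.card_fin, sq]
  have e3 : ((univ.filter (fun g : Fin t → Fin T => Function.Injective g)).biUnion
        (fun g => univ.filter (fun f : Fin T → α => f ∘ g ∈ B))).card ≤
      T ^ t * (B.card * D ^ (T - t)) := by
    refine (Finset.card_biUnion_le_card_mul _ _ (B.card * D ^ (T - t)) ?_).trans ?_
    · intro g hg
      rw [hD]
      exact sub_card g (mem_filter.1 hg).2 B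
    · refine Nat.mul_le_mul_right _ ?_
      refine (Finset.card_le_univ _).trans ?_
      rw [Fintype.card_fun, Fintype.card_fin, Fintype.card_fin]
  have e4 := e1.trans ((card_union_le _ _).trans (Nat.add_le_add e2 e3))
  have hD0 : 0 < D := by omega
  have e5 : D ^ T = D * D ^ (T - 1) := by
    rw [← pow_succ']
    congr 1
    omega
  have e6 : D ^ T = D ^ t * D ^ (T - t) := by
    rw [← pow_add]
    congr 1
    omega
  have e7 : 2 * (T ^ 2 * D ^ (T - 1)) < D ^ T := by
    rw [e5, ← mul_assoc]
    exact Nat.mul_lt_mul_of_pos_right h1 (pow_pos hD0 _)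
  have e8 : 2 * (T ^ t * (B.card * D ^ (T - t))) ≤ D ^ T := by
    rw [e6]
    calc 2 * (T ^ t * (B.card * D ^ (T - t))) = (2 * T ^ t * B.card) * D ^ (T - t) := by ring
      _ ≤ _ := Nat.mul_le_mul_right _ h2
  omega

end H152HR
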