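import Mathlib

set_option autoImplicit false

open Finset

namespace H152HR

/-- the finite Ramsey theorem for colourings of the `t`-subsets -/
theorem ramsey (K : Type) [Fintype K] (t : ℕ) : ∀ q : ℕ, ∃ N : ℕ, ∀ c : Finset ℕ → K,
    ∀ S : Finset ℕ, N ≤ S.card → ∃ Q ⊆ S, Q.card = q ∧ ∃ col : K, ∀ J ⊆ Q, J.card = t →
      c J = col := by
  classical
  induction t with
  | zero =>
    intro q
    refine ⟨q, fun c S hS => ?_⟩
    obtain ⟨Q, hQ, hc⟩ := exists_subset_card_eq hS
    refine ⟨Q, hQ, hc, c ∅, ?_⟩
    intro J _ hJ
    rw [card_eq_zero.1 hJ]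
  | succ t ih =>
    -- the colour of a set depends only on its least element
    have step : ∀ m : ℕ, ∃ N : ℕ, ∀ c : Finset ℕ → K, ∀ S : Finset ℕ, N ≤ S.card →
        ∃ Q ⊆ S, Q.card = m ∧ ∃ κ : ℕ → K, ∀ a ∈ Q, ∀ J ⊆ Q, J.card = t → (∀ b ∈ J, a < b) →
          c (insert a J) = κ a := by
      intro m
      induction m with
      | zero =>
        refine ⟨0, fun c S _ => ⟨∅, empty_subset _, rfl, fun _ => c ∅, ?_⟩⟩
        intro a ha
        exact absurd ha (notMem_empty _)
      | succ m ihm =>
        obtain ⟨N1, h1⟩ := ihm
        obtain ⟨N2, h2⟩ := ih N1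
        refine ⟨N2 + 1, fun c S hS => ?_⟩
        have hne : S.Nonempty := by
          rw [← card_pos]; omega
        obtain ⟨a, haS, hmin⟩ := exists_min_image S (fun x => x) hne
        obtain ⟨S', hS', hc', col, hcol⟩ := h2 (fun J => c (insert a J)) (S.erase a) (by
          rw [card_erase_of_mem haS]; omega)
        obtain ⟨Q, hQ, hQc, κ, hκ⟩ := h1 c S' hc'.ge
        have haQ : a ∉ Q := fun h => (mem_erase.1 (hS' (hQ h))).1 rfl
        refine ⟨insert a Q, ?_, by rw [card_insert_of_notMem haQ, hQc],
          Function.update κ a col, ?_⟩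
        · intro x hx
          rcases mem_insert.1 hx with rfl | h
          · exact haS
          · exact (mem_erase.1 (hS' (hQ h))).2
        · intro a' ha' J hJ hJc hlt
          have haJ : a ∉ J := by
            intro h
            have h3 := hlt a h
            have h4 : a' ∈ S := by
              rcases mem_insert.1 ha' with rfl | h
              · exact haS
              · exact (mem_erase.1 (hS' (hQ h))).2
            have h5 := hmin a' h4
            omega
          have hJQ : J ⊆ Q := by
            intro x hx
            rcases mem_insert.1 (hJ hx) with rfl | h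
            · exact absurd hx haJ
            · exact h
          rcases mem_insert.1 ha' with rfl | h
          · rw [Function.update_self]
            exact hcol J (hJQ.trans hQ) hJc
          · have hne : a' ≠ a := fun h' => haQ (h' ▸ h)
            rw [Function.update_of_ne hne]
            exact hκ a' h J hJQ hJc hlt
    intro q
    obtain ⟨N, hN⟩ := step (q * Fintype.card K)
    refine ⟨N + 1, fun c S hS => ?_⟩
    obtain ⟨Q, hQ, hQc, κ, hκ⟩ := hN c S (by omega)
    rcases isEmpty_or_nonempty K with hK | hK
    · exact (hK.false (c ∅)).elim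
    · obtain ⟨col, hcol⟩ : ∃ col : K, q ≤ (Q.filter (fun a => κ a = col)).card := by
        by_contra hcon
        push Not at hcon
        rcases Nat.eq_zero_or_pos q with h0 | h0
        · have := hcon (Classical.arbitrary K)
          omega
        · have h1 : Q.card = ∑ col : K, (Q.filter (fun a => κ a = col)).card :=
            card_eq_sum_card_fiberwise (fun a _ => mem_univ (κ a))
          have h2 : ∑ col : K, (Q.filter (fun a => κ a = col)).card < ∑ _col : K, q :=
            sum_lt_sum_of_nonempty univ_nonempty (fun col _ => hcon col)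
          rw [sum_const, card_univ, smul_eq_mul, ← h1, hQc, Nat.mul_comm] at h2
          exact lt_irrefl _ h2
      obtain ⟨Q', hQ', hQ'c⟩ := exists_subset_card_eq hcol
      refine ⟨Q', fun x hx => hQ (mem_filter.1 (hQ' hx)).1, hQ'c, col, ?_⟩
      intro J hJ hJc
      have hJne : J.Nonempty := by rw [← card_pos]; omega
      obtain ⟨a, haJ, hmin⟩ := exists_min_image J (fun x => x) hJne
      have h1 := hκ a (mem_filter.1 (hQ' (hJ haJ))).1 (J.erase a)
        (fun x hx => (mem_filter.1 (hQ' (hJ (mem_erase.1 hx).2))).1)
        (by rw [card_erase_of_mem haJ]; omega) (by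
          intro b hb
          have h3 := hmin b (mem_erase.1 hb).2
          have h4 := (mem_erase.1 hb).1
          omega)
      rw [insert_erase haJ] at h1
      rw [h1]
      exact (mem_filter.1 (hQ' (hJ haJ))).2

end H152HR
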