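import Mathlib
import Pool.Agent.H152.HR.Pick
import Pool.Agent.H152.HR.Choose
import Pool.Agent.H152.HR.Ramsey

set_option autoImplicit false

open Finset

namespace H152HR

open H152TT

variable {n : ℕ}

/-- a large set of common neighbours all of whose subsets of the right size are rich -/
theorem extract {L len s t T : ℕ} (htT : t + 1 ≤ T) (R : Fin n → Fin n → Prop)
    (x : Fin (t+1) → Fin n) (h1 : 2 * T ^ 2 < (cn R x).card)
    (h2 : 2 * T ^ (t+1) * ((bad L len s (t+1) R).filter (fun z => z.1 = x)).card ≤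
      (cn R x).card ^ (t+1)) :
    Function.Injective x ∧ ∃ Y : Finset (Fin n), Y.card = T ∧ (∀ y ∈ Y, ∀ i, R (x i) y) ∧
      ∀ J ⊆ Y, J.card = t + 1 → ¬ Poor L len s R J (univ.image x) := by
  classical
  obtain ⟨B, hB⟩ : ∃ B : Finset (Fin (t+1) → {v // v ∈ cn R x}), B =
    univ.filter (fun y => (x, fun i => (y i).1) ∈ bad L len s (t+1) R) := ⟨_, rfl⟩
  have hBc : B.card ≤ ((bad L len s (t+1) R).filter (fun z => z.1 = x)).card := by
    refine Finset.card_le_card_of_injOn (fun y => (x, fun i => (y i).1)) ?_ ?_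
    · intro y hy
      rw [hB, Finset.mem_coe, mem_filter] at hy
      rw [Finset.mem_coe, mem_filter]
      exact ⟨hy.2, rfl⟩
    · intro y _ y' _ h
      have h3 : (fun i => (y i).1) = fun i => (y' i).1 := (Prod.ext_iff.1 h).2
      funext i
      exact Subtype.ext (congrFun h3 i)
  have hcard : Fintype.card {v // v ∈ cn R x} = (cn R x).card := Fintype.card_coe _
  obtain ⟨f, hf, hfg⟩ := pick (by omega) htT B (by rw [hcard]; exact h1)
    (by rw [hcard]; exact (Nat.mul_le_mul_left _ hBc).trans h2)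
  have key : ∀ g : Fin (t+1) → Fin T, Function.Injective g → Function.Injective x ∧
      ¬ Poor L len s R (univ.image (fun i => (f (g i)).1)) (univ.image x) := by
    intro g hg
    have h3 := hfg g hg
    rw [hB, mem_filter] at h3
    have h4 : (x, fun i => (f (g i)).1) ∉ bad L len s (t+1) R := fun h => h3 ⟨mem_univ _, h⟩
    unfold bad at h4
    rw [mem_filter] at h4
    have h5 : (x, fun i => (f (g i)).1) ∈ hom R (t+1) (t+1) := by
      rw [mem_hom]
      intro i j
      exact mem_cn.1 (f (g j)).2 i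
    have h6 : ¬ (¬ Function.Injective x ∨
      Poor L len s R (univ.image (fun i => (f (g i)).1)) (univ.image x)) := fun h => h4 ⟨h5, h⟩
    push Not at h6
    exact h6
  refine ⟨(key (Fin.castLE htT) (Fin.castLE_injective htT)).1,
    univ.image (fun i => (f i).1), ?_, ?_, ?_⟩
  · rw [Finset.card_image_of_injective _ (fun i j h => hf (Subtype.ext h)), Finset.card_univ,
      Fintype.card_fin]
  · intro y hy i
    obtain ⟨j, _, rfl⟩ := mem_image.1 hy
    exact mem_cn.1 (f j).2 i
  · intro J hJ hJc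
    obtain ⟨I, hI⟩ : ∃ I : Finset (Fin T), I = univ.filter (fun i => (f i).1 ∈ J) := ⟨_, rfl⟩
    have hIJ : I.image (fun i => (f i).1) = J := by
      ext y
      rw [mem_image]
      constructor
      · rintro ⟨i, hi, rfl⟩
        rw [hI, mem_filter] at hi
        exact hi.2
      · intro hy
        obtain ⟨i, _, rfl⟩ := mem_image.1 (hJ hy)
        exact ⟨i, by rw [hI, mem_filter]; exact ⟨mem_univ _, hy⟩, rfl⟩
    have hIc : I.card = t + 1 := by
      rw [← hJc, ← hIJ, Finset.card_image_of_injective _ (fun i j h => hf (Subtype.ext h))]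
    have h7 := (key (I.orderEmbOfFin hIc) (I.orderEmbOfFin hIc).injective).2
    have h8 : (univ : Finset (Fin (t+1))).image (fun i => (f (I.orderEmbOfFin hIc i)).1) = J := by
      rw [← hIJ]
      ext y
      rw [mem_image, mem_image]
      constructor
      · rintro ⟨i, _, rfl⟩
        exact ⟨I.orderEmbOfFin hIc i, I.orderEmbOfFin_mem hIc i, rfl⟩
      · rintro ⟨i, hi, rfl⟩
        have h9 : i ∈ Set.range (I.orderEmbOfFin hIc) := by
          rw [Finset.range_orderEmbOfFin]
          exact hi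
        obtain ⟨i', rfl⟩ := h9
        exact ⟨i', mem_univ _, rfl⟩
    rw [h8] at h7
    exact h7

theorem hitL_sub {L len M : ℕ} (hL : L ≤ M * len) (R : Fin n → Fin n → Prop)
    (J X0 : Finset (Fin n)) (r : Fin n) : hitL L len R J X0 r ⊆ range M := by
  classical
  intro b hb
  unfold hitL at hb
  obtain ⟨i, hi, rfl⟩ := mem_image.1 hb
  have h1 := mem_range.1 (LB_sub _ _ _ hi)
  rw [mem_range]
  exact Nat.div_lt_of_lt_mul (by rw [Nat.mul_comm]; omega)

theorem hitR_sub {L len M : ℕ} (hL : L ≤ M * len) (R : Fin n → Fin n → Prop)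
    (J : Finset (Fin n)) (r : Fin n) : hitR L len R J r ⊆ range M := by
  classical
  intro b hb
  unfold hitR at hb
  obtain ⟨i, hi, rfl⟩ := mem_image.1 hb
  have h1 := mem_range.1 (RB_sub _ _ _ hi)
  rw [mem_range]
  exact Nat.div_lt_of_lt_mul (by rw [Nat.mul_comm]; omega)

open Classical in
/-- a homogeneous set of columns -/
theorem homog (t M q : ℕ) : ∃ T : ℕ, ∀ (n L len : ℕ), L ≤ M * len →
    ∀ (R : Fin n → Fin n → Prop) (ρ : Fin (t+1) → Fin n) (X0 Y : Finset (Fin n)), T ≤ Y.card →
      ∃ Q ⊆ Y, Q.card = q ∧ ∃ SA SB : Fin (t+1) → Finset ℕ, ∀ J ⊆ Q, J.card = t + 1 →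
        ∀ i, hitL L len R J X0 (ρ i) = SA i ∧ hitR L len R J (ρ i) = SB i := by
  obtain ⟨T, hT⟩ := ramsey (Fin (t+1) → Fin M → Bool × Bool) (t+1) q
  refine ⟨T, fun n L len hL R ρ X0 Y hY => ?_⟩
  obtain ⟨cl, hcl⟩ : ∃ cl : Finset (Fin n) → Fin (t+1) → Fin M → Bool × Bool, ∀ J i b, cl J i b =
    (decide (b.val ∈ hitL L len R J X0 (ρ i)), decide (b.val ∈ hitR L len R J (ρ i))) :=
    ⟨_, fun _ _ _ => rfl⟩
  have hback : ∀ J : Finset (Fin n), (univ : Finset (Fin n)).filter
      (fun y => y.val ∈ J.image Fin.val) = J := by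
    intro J
    ext y
    rw [mem_filter, mem_image]
    constructor
    · rintro ⟨_, z, hz, hzy⟩
      rwa [← Fin.ext hzy]
    · intro h
      exact ⟨mem_univ _, y, h, rfl⟩
  obtain ⟨Q', hQ', hQc, col, hcol⟩ := hT
    (fun J => cl (univ.filter (fun y => y.val ∈ J))) (Y.image Fin.val) (by
      rw [Finset.card_image_of_injective _ Fin.val_injective]; exact hY)
  have hQimg : (univ.filter (fun y : Fin n => y.val ∈ Q')).image Fin.val = Q' := by
    ext z
    rw [mem_image]
    constructor
    · rintro ⟨y, hy, rfl⟩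
      exact (mem_filter.1 hy).2
    · intro hz
      obtain ⟨y, _, rfl⟩ := mem_image.1 (hQ' hz)
      exact ⟨y, mem_filter.2 ⟨mem_univ _, hz⟩, rfl⟩
  refine ⟨univ.filter (fun y => y.val ∈ Q'), ?_, ?_, ?_⟩
  · intro y hy
    obtain ⟨z, hz, hzy⟩ := mem_image.1 (hQ' (mem_filter.1 hy).2)
    rwa [← Fin.ext hzy]
  · rw [← hQc]
    conv_rhs => rw [← hQimg]
    rw [Finset.card_image_of_injective _ Fin.val_injective]
  · have hJcol : ∀ J ⊆ univ.filter (fun y : Fin n => y.val ∈ Q'), J.card = t + 1 →
        cl J = col := by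
      intro J hJ hJc
      have h1 := hcol (J.image Fin.val) (by
        intro z hz
        obtain ⟨y, hy, rfl⟩ := mem_image.1 hz
        exact (mem_filter.1 (hJ hy)).2) (by
        rw [Finset.card_image_of_injective _ Fin.val_injective]; exact hJc)
      rwa [hback J] at h1
    by_cases hex : ∃ J0 ⊆ univ.filter (fun y : Fin n => y.val ∈ Q'), J0.card = t + 1
    · obtain ⟨J0, hJ0, hJ0c⟩ := hex
      refine ⟨fun i => hitL L len R J0 X0 (ρ i), fun i => hitR L len R J0 (ρ i), ?_⟩
      intro J hJ hJc i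
      have h2 : cl J = cl J0 := by rw [hJcol J hJ hJc, hJcol J0 hJ0 hJ0c]
      have h3 : ∀ b : Fin M, (b.val ∈ hitL L len R J X0 (ρ i) ↔
          b.val ∈ hitL L len R J0 X0 (ρ i)) ∧ (b.val ∈ hitR L len R J (ρ i) ↔
          b.val ∈ hitR L len R J0 (ρ i)) := by
        intro b
        have h4 := congrFun (congrFun h2 i) b
        rw [hcl, hcl] at h4
        have h5 := (Prod.ext_iff.1 h4)
        simp only [decide_eq_decide] at h5
        exact h5
      constructor
      · ext b
        constructor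
        · intro hb
          have hbM := mem_range.1 (hitL_sub hL R J X0 (ρ i) hb)
          exact (h3 ⟨b, hbM⟩).1.1 hb
        · intro hb
          have hbM := mem_range.1 (hitL_sub hL R J0 X0 (ρ i) hb)
          exact (h3 ⟨b, hbM⟩).1.2 hb
      · ext b
        constructor
        · intro hb
          have hbM := mem_range.1 (hitR_sub hL R J (ρ i) hb)
          exact (h3 ⟨b, hbM⟩).2.1 hb
        · intro hb
          have hbM := mem_range.1 (hitR_sub hL R J0 (ρ i) hb)
          exact (h3 ⟨b, hbM⟩).2.2 hb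
    · refine ⟨fun _ => ∅, fun _ => ∅, ?_⟩
      intro J hJ hJc
      exact absurd ⟨J, hJ, hJc⟩ hex

end H152HR
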