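import Mathlib
import Pool.Agent.H152.HR.Extract

set_option autoImplicit false

open Finset

namespace H152HR

open H152TT

/-- strictly increasing enumeration of a part of a set -/
theorem enum_inc (k : ℕ) (S : Finset ℕ) (h : k ≤ S.card) :
    ∃ f : Fin k → ℕ, (∀ w, f w ∈ S) ∧ ∀ u v, u < v → f u < f v :=
  ⟨S.orderEmbOfCardLe h, fun w => S.orderEmbOfCardLe_mem h w,
    fun _ _ huv => (S.orderEmbOfCardLe h).strictMono huv⟩

theorem enum_dec (k : ℕ) (S : Finset ℕ) (h : k ≤ S.card) :
    ∃ f : Fin k → ℕ, (∀ w, f w ∈ S) ∧ ∀ u v, u < v → f v < f u := by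
  obtain ⟨f, h1, h2⟩ := enum_inc k S h
  refine ⟨fun w => f (Fin.rev w), fun w => h1 _, fun u v huv => h2 _ _ ?_⟩
  exact Fin.rev_lt_rev.2 huv

open Classical in
theorem emb {n k t L len : ℕ} (G : SimpleGraph (Fin n)) (R : Fin n → Fin n → Prop)
    (hRG : ∀ u v, R u v → G.Adj u v)
    (hR : ∀ x y x' y', R x y → R x' y → R x' y' → x < y')
    (P : SimpleGraph (Fin k)) (m : ℕ) (A : Finset (Fin k))
    (hm : ∀ u v, P.Adj u v → (u.val < m ↔ m ≤ v.val))
    (hA : A.card ≤ t + 1)
    (hdeg : ∀ w, w.val < m → w ∉ A → (P.neighborSet w).ncard ≤ t + 1)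
    (X0 : Finset (Fin n)) (ρ : Fin (t+1) → Fin n) (hρ : StrictMono ρ) (hρX : ∀ i, ρ i ∈ X0)
    (Q : Finset (Fin n)) (hQ : k ≤ Q.card) (hQt : t + 1 ≤ Q.card)
    (hQx : ∀ y ∈ Q, ∀ i, R (ρ i) y) (SA SB : Fin (t+1) → Finset ℕ)
    (hS : ∀ J ⊆ Q, J.card = t + 1 →
      ∀ i, hitL L len R J X0 (ρ i) = SA i ∧ hitR L len R J (ρ i) = SB i)
    (hSA : ∀ i, k ≤ (SA i).card) (hSB : ∀ i, k ≤ (SB i).card) :
    ∃ f : Fin k → Fin n, StrictMono f ∧ ∀ i j, P.Adj i j → G.Adj (f i) (f j) := by
  -- columns
  obtain ⟨γ, hγQ, hγ⟩ : ∃ γ : Fin k → Fin n, (∀ w, γ w ∈ Q) ∧ ∀ u v, u < v → γ u < γ v :=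
    ⟨Q.orderEmbOfCardLe hQ, fun w => Q.orderEmbOfCardLe_mem hQ w,
      fun _ _ huv => (Q.orderEmbOfCardLe hQ).strictMono huv⟩
  have hQne : Q.Nonempty := by
    rw [← card_pos]; omega
  -- hubs before a vertex
  obtain ⟨A', hA'⟩ : ∃ A' : Finset (Fin k), A' = A.filter (fun h => h.val < m) := ⟨_, rfl⟩
  obtain ⟨a, ha⟩ : ∃ a, a = A'.card := ⟨_, rfl⟩
  have hat : a ≤ t + 1 := by
    rw [ha, hA']
    exact (card_filter_le _ _).trans hA
  obtain ⟨j, hj⟩ : ∃ j : Fin k → ℕ, ∀ w, j w = (A'.filter (fun h => h < w)).card :=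
    ⟨_, fun _ => rfl⟩
  have hja : ∀ w, j w ≤ a := by
    intro w
    rw [hj, ha]
    exact card_filter_le _ _
  have hjmono : ∀ u v, u < v → j u ≤ j v := by
    intro u v huv
    rw [hj, hj]
    refine card_le_card fun h hh => ?_
    rw [mem_filter] at hh ⊢
    exact ⟨hh.1, hh.2.trans huv⟩
  have hjhub : ∀ u v, u ∈ A → u.val < m → u < v → j u < j v := by
    intro u v hu hum huv
    rw [hj, hj]
    refine card_lt_card ?_
    rw [ssubset_iff_of_subset]
    · refine ⟨u, ?_, ?_⟩
      · rw [mem_filter, hA', mem_filter]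
        exact ⟨⟨hu, hum⟩, huv⟩
      · rw [mem_filter]
        exact fun h => lt_irrefl _ h.2
    · intro h hh
      rw [mem_filter] at hh ⊢
      exact ⟨hh.1, hh.2.trans huv⟩
  have hjlt : ∀ u, u ∈ A → u.val < m → j u < a := by
    intro u hu hum
    rw [hj, ha]
    refine card_lt_card ?_
    rw [ssubset_iff_of_subset (filter_subset _ _)]
    refine ⟨u, ?_, ?_⟩
    · rw [hA', mem_filter]
      exact ⟨hu, hum⟩
    · rw [mem_filter]
      exact fun h => lt_irrefl _ h.2
  -- blocks
  have hdec : ∀ i : Fin (t+1), ∃ f : Fin k → ℕ, (∀ w, f w ∈ SA i) ∧ ∀ u v, u < v → f v < f u :=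
    fun i => enum_dec k (SA i) (hSA i)
  choose dec hdecS hdecm using hdec
  obtain ⟨ra, hra⟩ : ∃ ra : Fin (t+1), ra.val = a - 1 := ⟨⟨a - 1, by omega⟩, rfl⟩
  obtain ⟨inc, hincS, hincm⟩ := enum_inc k (SB ra) (hSB ra)
  -- rows
  have hrow : ∀ w : Fin k, w.val < m → ∃ z : Fin n,
      (∀ c, P.Adj w c → R z (γ c)) ∧ (∃ y ∈ Q, R z y) ∧
      (∀ i : Fin (t+1), i.val < j w → ρ i < z) ∧
      (w ∈ A → ∀ i : Fin (t+1), i.val = j w → z = ρ i) ∧
      (w ∉ A → ∀ i : Fin (t+1), i.val = j w → j w < a → ∃ lev, lev / len = dec i w ∧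
        Br lev z.val (ρ i).val) ∧
      (w ∉ A → j w = a → ∃ lev, lev / len = inc w ∧ Br lev (ρ ra).val z.val) := by
    intro w hw
    by_cases hwA : w ∈ A
    · have h1 := hjlt w hwA hw
      obtain ⟨i, hi⟩ : ∃ i : Fin (t+1), i.val = j w := ⟨⟨j w, by omega⟩, rfl⟩
      refine ⟨ρ i, fun c _ => hQx _ (hγQ c) i, ?_, ?_, ?_, fun h => absurd hwA h,
        fun h => absurd hwA h⟩
      · obtain ⟨y, hy⟩ := hQne
        exact ⟨y, hy, hQx y hy i⟩
      · intro i' hi'
        exact hρ (by rw [Fin.lt_def]; omega)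
      · intro _ i' hi'
        congr 1
        exact Fin.ext (by omega)
    · -- the columns it must see
      obtain ⟨C, hC⟩ : ∃ C : Finset (Fin n), C = (univ.filter (fun c => P.Adj w c)).image γ :=
        ⟨_, rfl⟩
      have hCQ : C ⊆ Q := by
        rw [hC]
        intro y hy
        obtain ⟨c, _, rfl⟩ := mem_image.1 hy
        exact hγQ c
      have hCc : C.card ≤ t + 1 := by
        rw [hC]
        refine card_image_le.trans (le_trans (le_of_eq ?_) (hdeg w hw hwA))
        rw [← Set.ncard_coe_finset]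
        congr 1
        ext c
        simp
      obtain ⟨J, hCJ, hJQ, hJc⟩ := Finset.exists_subsuperset_card_eq hCQ hCc hQt
      have hsee : ∀ z : Fin n, (∀ y ∈ J, R z y) → (∀ c, P.Adj w c → R z (γ c)) ∧
          ∃ y ∈ Q, R z y := by
        intro z hz
        refine ⟨fun c hc => hz _ (hCJ ?_), ?_⟩
        · rw [hC]
          exact mem_image.2 ⟨c, mem_filter.2 ⟨mem_univ _, hc⟩, rfl⟩
        · have hJne : J.Nonempty := by
            rw [← card_pos]; omega
          obtain ⟨y, hy⟩ := hJne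
          exact ⟨y, hJQ hy, hz y hy⟩
      rcases lt_or_eq_of_le (hja w) with hlt | heq
      · obtain ⟨i, hi⟩ : ∃ i : Fin (t+1), i.val = j w := ⟨⟨j w, by omega⟩, rfl⟩
        have h1 : dec i w ∈ hitL L len R J X0 (ρ i) := by
          rw [(hS J hJQ hJc i).1]
          exact hdecS i w
        unfold hitL at h1
        obtain ⟨lev, hlev, hlevd⟩ := mem_image.1 h1
        obtain ⟨_, z', hz', hbr⟩ := mem_LB.1 hlev
        obtain ⟨z, rfl⟩ : ∃ z : Fin n, z.val = z' := by
          unfold zset at hz'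
          obtain ⟨z, _, hz⟩ := mem_image.1 hz'
          exact ⟨z, hz⟩
        have h2 := mem_zset.1 hz'
        obtain ⟨h3, h4⟩ := hsee z h2.1
        refine ⟨z, h3, h4, ?_, fun h => absurd h hwA, ?_, fun _ h => absurd h hlt.ne⟩
        · intro i' hi'
          refine h2.2 _ (mem_filter.2 ⟨hρX i', hρ ?_⟩)
          rw [Fin.lt_def]
          omega
        · intro _ i' hi' _
          obtain rfl : i' = i := Fin.ext (by omega)
          exact ⟨lev, hlevd, hbr⟩
      · have h1 : inc w ∈ hitR L len R J (ρ ra) := by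
          rw [(hS J hJQ hJc ra).2]
          exact hincS w
        unfold hitR at h1
        obtain ⟨lev, hlev, hlevd⟩ := mem_image.1 h1
        obtain ⟨_, z', hz', hbr⟩ := mem_RB.1 hlev
        obtain ⟨z, rfl⟩ : ∃ z : Fin n, z.val = z' := by
          unfold zset at hz'
          obtain ⟨z, _, hz⟩ := mem_image.1 hz'
          exact ⟨z, hz⟩
        have h2 := mem_zset.1 hz'
        obtain ⟨h3, h4⟩ := hsee z h2.1
        refine ⟨z, h3, h4, ?_, fun h => absurd h hwA, fun _ _ _ h => absurd h (by omega),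
          fun _ _ => ⟨lev, hlevd, hbr⟩⟩
        intro i' hi'
        have h5 : ρ i' ≤ ρ ra := hρ.monotone (by rw [Fin.le_def]; omega)
        have h6 : ρ ra < z := hbr.lt
        exact lt_of_le_of_lt h5 h6
  have hnn : Nonempty (Fin n) := ⟨hQne.choose⟩
  choose! φ h1 h2 h3 h4 h5 h6 using hrow
  refine ⟨fun w => if w.val < m then φ w else γ w, ?_, ?_⟩
  · intro u v huv
    have huv' : u.val < v.val := huv
    dsimp only
    by_cases hu : u.val < m
    · by_cases hv : v.val < m
      · rw [if_pos hu, if_pos hv]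
        by_cases huA : u ∈ A
        · have hlt := hjlt u huA hu
          obtain ⟨i, hi⟩ : ∃ i : Fin (t+1), i.val = j u := ⟨⟨j u, by omega⟩, rfl⟩
          rw [h4 u hu huA i hi]
          exact h3 v hv i (by rw [hi]; exact hjhub u v huA hu huv)
        · rcases lt_or_eq_of_le (hja u) with hlt | heq
          · obtain ⟨i, hi⟩ : ∃ i : Fin (t+1), i.val = j u := ⟨⟨j u, by omega⟩, rfl⟩
            obtain ⟨lev, hlev, hbr⟩ := h5 u hu huA i hi hlt
            have h7 : φ u < ρ i := hbr.lt
            rcases lt_or_eq_of_le (hjmono u v huv) with hjl | hje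
            · exact h7.trans (h3 v hv i (by omega))
            · by_cases hvA : v ∈ A
              · rw [h4 v hv hvA i (by omega)]
                exact h7
              · obtain ⟨lev', hlev', hbr'⟩ := h5 v hv hvA i (by omega) (by omega)
                have h8 := hdecm i u v huv
                have h9 : lev' < lev := by
                  by_contra hc
                  have := Nat.div_le_div_right (c := len) (not_lt.1 hc)
                  omega
                exact br_left hbr hbr' h9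
          · have hjv : j v = a := le_antisymm (hja v) (by rw [← heq]; exact hjmono u v huv)
            have hvA : v ∉ A := fun h => absurd hjv (hjlt v h hv).ne
            obtain ⟨lev, hlev, hbr⟩ := h6 u hu huA heq
            obtain ⟨lev', hlev', hbr'⟩ := h6 v hv hvA hjv
            have h8 := hincm u v huv
            have h9 : lev < lev' := by
              by_contra hc
              have := Nat.div_le_div_right (c := len) (not_lt.1 hc)
              omega
            exact br_right hbr' hbr h9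
      · rw [if_pos hu, if_neg hv]
        obtain ⟨y, hy, hzy⟩ := h2 u hu
        exact hR _ _ _ _ hzy (hQx y hy 0) (hQx _ (hγQ v) 0)
    · have hv : ¬ v.val < m := by omega
      rw [if_neg hu, if_neg hv]
      exact hγ u v huv
  · have key : ∀ u v, P.Adj u v → u.val < m → G.Adj (φ u) (γ v) :=
      fun u v huv hu => hRG _ _ (h1 u hu v huv)
    intro u v huv
    dsimp only
    by_cases hu : u.val < m
    · have hv : ¬ v.val < m := by
        have := (hm u v huv).1 hu
        omega
      rw [if_pos hu, if_neg hv]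
      exact key u v huv hu
    · have hv : v.val < m := by
        by_contra hc
        exact hu ((hm u v huv).2 (not_lt.1 hc))
      rw [if_neg hu, if_pos hv]
      exact (key v u huv.symm hv).symm

end H152HR
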