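import Mathlib
import Pool.Agent.H152.TT.Defs
import Pool.Agent.H152.TT.Small
import Pool.Agent.H152.TT.Defs2
import Pool.Agent.H152.HR.Defs2
import Pool.Agent.H152.HR.Core2

set_option autoImplicit false

open Finset

namespace H152HR

open H152TT

theorem choose_line (d : ℕ) : d ≤ 1 + d.choose 2 := by
  match d with
  | 0 => norm_num
  | 1 => norm_num
  | n + 2 =>
    have h := Nat.choose_succ_succ' (n + 1) 1
    rw [Nat.choose_one_right] at h
    have h' : (n + 2).choose 2 = (n + 1) + (n + 1).choose 2 := h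
    omega

theorem choose_line2 (d : ℕ) : 2 * d ≤ 3 + d.choose 2 := by
  match d with
  | 0 => norm_num
  | 1 => norm_num
  | 2 => decide
  | n + 3 =>
    have h := Nat.choose_succ_succ' (n + 2) 1
    rw [Nat.choose_one_right] at h
    have h' : (n + 3).choose 2 = (n + 2) + (n + 2).choose 2 := h
    have g := Nat.choose_succ_succ' (n + 1) 1
    rw [Nat.choose_one_right] at g
    have g' : (n + 2).choose 2 = (n + 1) + (n + 1).choose 2 := g
    omega

/-- a bipartite graph without four-cycles has few edges -/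
theorem z_bound {v : ℕ} (F : SimpleGraph (Fin v)) (A B : Finset (Fin v))
    (hAB : F.IsBipartiteWith (A : Set (Fin v)) (B : Set (Fin v)))
    (hfree : ¬ (SimpleGraph.cycleGraph (2 * 2)).IsContained F) :
    F.edgeSet.ncard ≤ A.card * B.card ∧ F.edgeSet.ncard ≤ B.card + A.card.choose 2 ∧
      2 * F.edgeSet.ncard ≤ 3 * B.card + A.card.choose 2 := by
  classical
  have he : F.edgeSet.ncard = ∑ y ∈ B, F.degree y := by
    rw [SimpleGraph.isBipartiteWith_sum_degrees_eq_card_edges' hAB, Set.ncard_eq_toFinset_card']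
    rfl
  have hN : ∀ y ∈ B, F.neighborFinset y ⊆ A := by
    intro y hy x hx
    rw [SimpleGraph.mem_neighborFinset] at hx
    exact Finset.mem_coe.1 (hAB.symm.mem_of_mem_adj (Finset.mem_coe.2 hy) hx)
  have hpairs : ∑ y ∈ B, (F.degree y).choose 2 ≤ A.card.choose 2 := by
    have h1 : ∀ y ∈ B, (F.degree y).choose 2 =
        ((F.neighborFinset y).powersetCard 2).card := by
      intro y _
      rw [Finset.card_powersetCard, SimpleGraph.card_neighborFinset_eq_degree]
    rw [Finset.sum_congr rfl h1, ← Finset.card_biUnion, ← Finset.card_powersetCard]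
    · refine card_le_card ?_
      intro S hS
      rw [mem_biUnion] at hS
      obtain ⟨y, hy, hS⟩ := hS
      exact Finset.powersetCard_mono (hN y hy) hS
    · intro y _ y' _ hne
      rw [Function.onFun, Finset.disjoint_left]
      intro S hS hS'
      rw [Finset.mem_powersetCard] at hS hS'
      obtain ⟨x, x', hxx, rfl⟩ := Finset.card_eq_two.1 hS.2
      have a1 := hS.1 (mem_insert_self x {x'})
      have a2 := hS.1 (mem_insert_of_mem (mem_singleton_self x'))
      have a3 := hS'.1 (mem_insert_self x {x'})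
      have a4 := hS'.1 (mem_insert_of_mem (mem_singleton_self x'))
      rw [SimpleGraph.mem_neighborFinset] at a1 a2 a3 a4
      exact hfree (c4_of_common F x x' y y' hxx hne a1.symm a3.symm a2.symm a4.symm)
  refine ⟨?_, ?_, ?_⟩
  · rw [he, mul_comm, ← smul_eq_mul]
    refine Finset.sum_le_card_nsmul _ _ _ fun y hy => ?_
    rw [← SimpleGraph.card_neighborFinset_eq_degree]
    exact card_le_card (hN y hy)
  · have h2 : ∑ y ∈ B, F.degree y ≤ ∑ y ∈ B, (1 + (F.degree y).choose 2) :=
      Finset.sum_le_sum fun y _ => choose_line _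
    rw [Finset.sum_add_distrib, Finset.sum_const, smul_eq_mul, mul_one] at h2
    omega
  · have h2 : ∑ y ∈ B, 2 * F.degree y ≤ ∑ y ∈ B, (3 + (F.degree y).choose 2) :=
      Finset.sum_le_sum fun y _ => choose_line2 _
    rw [Finset.sum_add_distrib, Finset.sum_const, smul_eq_mul, ← Finset.mul_sum] at h2
    omega

/-- small graphs without four-cycles are sparse -/
theorem z_small (a b e : ℕ) (h9 : a + b ≤ 9) (h1 : e ≤ a * b) (h2 : e ≤ b + a.choose 2)
    (h3 : 2 * e ≤ 3 * b + a.choose 2) (h4 : e ≤ a + b.choose 2)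
    (h5 : 2 * e ≤ 3 * a + b.choose 2) (he : 2 ≤ e) (h : 10 * (a + b) ≤ 7 * e + 13) : False := by
  have ha : a ≤ 9 := by omega
  have hb : b ≤ 9 := by omega
  interval_cases a <;> interval_cases b <;> norm_num [Nat.choose] at * <;> omega

/-- the vertices on cycles as a finite set -/
theorem cycVerts_card {k : ℕ} (P : SimpleGraph (Fin k)) :
    ∃ W : Finset (Fin k), W.card = cycVerts P ∧
      ∀ x, x ∈ W ↔ ∃ (u : Fin k) (c : P.Walk u u), c.IsCycle ∧ x ∈ c.support := by
  classical
  refine ⟨univ.filter (fun x => ∃ (u : Fin k) (c : P.Walk u u), c.IsCycle ∧ x ∈ c.support),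
    ?_, ?_⟩
  · unfold cycVerts
    rw [← Set.ncard_coe_finset, Finset.coe_filter]
    simp
  · intro x
    rw [mem_filter]
    simp

/-- vertices on cycles, inner leaves, inner vertices -/
theorem cycVerts_le {k : ℕ} (P : SimpleGraph (Fin k)) :
    cycVerts P + innerLeaves P ≤ innerVerts P := by
  unfold innerLeaves innerVerts cycVerts
  rw [← Set.ncard_union_eq ?_ (Set.toFinite _) (Set.toFinite _)]
  · refine Set.ncard_le_ncard ?_ (Set.toFinite _)
    intro x hx
    rcases hx with hx | hx
    · obtain ⟨u, c, hc, hx⟩ := hx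
      exact (cycle_mem P P le_rfl c hc x hx).1
    · exact hx.1
  · rw [Set.disjoint_left]
    intro x hx hx'
    obtain ⟨u, c, hc, hx⟩ := hx
    have h1 := (cycle_mem P P le_rfl c hc x hx).2
    have h2 := hx'.2
    omega

/-- an even cycle -/
theorem exists_even {k : ℕ} (P : SimpleGraph (Fin k)) (hO : OrdBip P) (h : ¬ P.IsAcyclic) :
    ∃ r : ℕ, 2 ≤ r ∧ 2 * r ≤ cycVerts P ∧ (SimpleGraph.cycleGraph (2 * r)).IsContained P := by
  classical
  obtain ⟨W, hWc, hW⟩ := cycVerts_card P
  unfold SimpleGraph.IsAcyclic at h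
  push Not at h
  obtain ⟨u, c, hcyc⟩ := h
  obtain ⟨n, hn⟩ : ∃ n, n = c.length := ⟨_, rfl⟩
  have hn3 : 3 ≤ n := by rw [hn]; exact hcyc.three_le_length
  have hc : (SimpleGraph.cycleGraph n).IsContained P :=
    (SimpleGraph.cycleGraph_isContained_iff (by omega)).2 ⟨u, c, hcyc, hn.symm⟩
  have hnW : n ≤ cycVerts P := by
    have h1 : c.support.tail.toFinset ⊆ W := by
      intro x hx
      rw [List.mem_toFinset] at hx
      rw [hW]
      exact ⟨u, c, hcyc, List.mem_of_mem_tail hx⟩
    have h2 := card_le_card h1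
    rw [List.toFinset_card_of_nodup hcyc.support_nodup, List.length_tail,
      SimpleGraph.Walk.length_support] at h2
    omega
  obtain ⟨m, hm⟩ := hO
  have hcol : P.Colorable 2 := by
    refine ⟨SimpleGraph.Coloring.mk (fun x => if x.val < m then (0 : Fin 2) else 1) ?_⟩
    intro u v huv
    have := hm u v huv
    by_cases h1 : u.val < m
    · have h2 : ¬ v.val < m := by have := this.1 h1; omega
      rw [if_pos h1, if_neg h2]
      decide
    · have h2 : v.val < m := by
        by_contra h3
        exact h1 (this.2 (by omega))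
      rw [if_neg h1, if_pos h2]
      decide
  have hcol' : (SimpleGraph.cycleGraph n).Colorable 2 := by
    obtain ⟨⟨f, hf⟩⟩ := hc
    exact hcol.of_hom f
  have heven : Even n := by
    by_contra hodd
    rw [Nat.not_even_iff_odd] at hodd
    have h1 := SimpleGraph.chromaticNumber_cycleGraph_of_odd n (by omega) hodd
    have h2 := hcol'.chromaticNumber_le
    rw [h1] at h2
    exact absurd h2 (by decide)
  obtain ⟨r, hr⟩ := heven
  refine ⟨r, by omega, by omega, ?_⟩
  have : n = 2 * r := by omega
  rw [← this]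
  exact hc

/-- no four-cycle and at most nine vertices on cycles: two edges meet all cycles -/
theorem few_two {k : ℕ} (P : SimpleGraph (Fin k)) (hO : OrdBip P)
    (hfree : ¬ (SimpleGraph.cycleGraph (2 * 2)).IsContained P) (hw : cycVerts P ≤ 9) :
    FewCycles 2 P := by
  classical
  obtain ⟨W, hWc, hW⟩ := cycVerts_card P
  by_contra hcon
  obtain ⟨hW3, v, F, hF, hv2, he, hd, hvW⟩ := dense_core P W
    (fun u c hc x hx => (hW x).2 ⟨u, c, hc, hx⟩) 3 (by norm_num) (by
      intro R hR
      by_contra hc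
      exact hcon ⟨hO, R, by omega, hR⟩)
  obtain ⟨m, hm⟩ := hO
  obtain ⟨⟨f, hf⟩⟩ := hF
  obtain ⟨A, hA⟩ : ∃ A : Finset (Fin v), A = univ.filter (fun x => (f x).val < m) := ⟨_, rfl⟩
  obtain ⟨B, hB⟩ : ∃ B : Finset (Fin v), B = univ.filter (fun x => ¬ (f x).val < m) := ⟨_, rfl⟩
  have hAB : A.card + B.card = v := by
    rw [hA, hB, Finset.card_filter_add_card_filter_not, card_univ, Fintype.card_fin]
  have hbip : F.IsBipartiteWith (A : Set (Fin v)) (B : Set (Fin v)) := by
    refine ⟨?_, ?_⟩
    · rw [Finset.disjoint_coe, hA, hB]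
      exact Finset.disjoint_filter_filter_not _ _ _
    · intro x y hxy
      have h1 := hm _ _ (f.map_adj hxy)
      by_cases hx : (f x).val < m
      · left
        have := h1.1 hx
        constructor
        · rw [Finset.mem_coe, hA, mem_filter]; exact ⟨mem_univ _, hx⟩
        · rw [Finset.mem_coe, hB, mem_filter]; exact ⟨mem_univ _, by omega⟩
      · right
        constructor
        · rw [Finset.mem_coe, hB, mem_filter]; exact ⟨mem_univ _, hx⟩
        · rw [Finset.mem_coe, hA, mem_filter]
          refine ⟨mem_univ _, ?_⟩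
          by_contra hy
          exact hx (h1.2 (by omega))
  have hfreeF : ¬ (SimpleGraph.cycleGraph (2 * 2)).IsContained F :=
    fun h => hfree (h.trans ⟨⟨f, hf⟩⟩)
  obtain ⟨z1, z2, z3⟩ := z_bound F A B hbip hfreeF
  obtain ⟨_, z4, z5⟩ := z_bound F B A hbip.symm hfreeF
  refine z_small A.card B.card F.edgeSet.ncard (by omega) z1 z2 z3 z4 z5 he ?_
  have hW9 : (W.card : ℝ) ≤ 9 := by
    have : W.card ≤ 9 := by omega
    exact_mod_cast this
  have hW3R : (3 : ℝ) ≤ W.card := by exact_mod_cast hW3
  have heR : (2 : ℝ) ≤ (F.edgeSet.ncard : ℝ) := by exact_mod_cast he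
  have h1 : ((W.card : ℝ) - 2) / ((W.card : ℝ) - 2 + (3 : ℕ)) ≤ 7 / 10 := by
    push_cast
    rw [div_le_div_iff₀ (by linarith) (by norm_num)]
    linarith
  have h2 := hd.trans h1
  rw [div_le_div_iff₀ (by linarith) (by norm_num)] at h2
  have h3 : 10 * (v : ℝ) ≤ 7 * (F.edgeSet.ncard : ℝ) + 13 := by linarith
  rw [hAB]
  exact_mod_cast h3

end H152HR
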