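import Mathlib
import Pool.Agent.H152.TT.Defs
import Pool.Agent.H152.HR.Emb

set_option autoImplicit false

open Finset

namespace H152HR

open H152TT

/-- adjacent pairs that split at a given binary level -/
def lvl {n : ℕ} (G : SimpleGraph (Fin n)) (j : ℕ) (u v : Fin n) : Prop :=
  fwd G u v ∧ Br j u.val v.val

theorem lvl_order {n : ℕ} (G : SimpleGraph (Fin n)) (j : ℕ) (x y x' y' : Fin n)
    (h1 : lvl G j x y) (h2 : lvl G j x' y) (h3 : lvl G j x' y') : x < y' := by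
  obtain ⟨q1, a1, b1⟩ := h1.2.half
  obtain ⟨q2, a2, b2⟩ := h2.2.half
  obtain ⟨q3, a3, b3⟩ := h3.2.half
  rw [Fin.lt_def]
  by_contra hc
  have := Nat.div_le_div_right (c := 2 ^ j) (not_lt.1 hc)
  omega

theorem edg_lvl {n : ℕ} (G : SimpleGraph (Fin n)) (L : ℕ) (hn : n ≤ 2 ^ L) :
    edg (fwd G) ≤ ∑ j ∈ range L, edg (lvl G j) := by
  classical
  unfold edg
  rw [Finset.sum_comm]
  refine Finset.sum_le_sum fun v _ => ?_
  have hsub : (univ : Finset (Fin n)).filter (fun u => fwd G u v) ⊆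
      (range L).biUnion (fun j => univ.filter (fun u => lvl G j u v)) := by
    intro u hu
    have h1 : fwd G u v := (mem_filter.1 hu).2
    obtain ⟨i, hi, hbr⟩ := exists_br (show u.val < v.val from h1.2) L (v.isLt.trans_le hn)
    rw [mem_biUnion]
    exact ⟨i, mem_range.2 hi, mem_filter.2 ⟨mem_univ _, h1, hbr⟩⟩
  refine (card_le_card hsub).trans (card_biUnion_le.trans (le_of_eq ?_))
  refine Finset.sum_congr rfl fun j _ => ?_
  congr

theorem num (k : ℕ) (ε : ℝ) (hε : 0 < ε) : ∃ M : ℕ, 1 ≤ M ∧ ∀ C : ℕ, ∃ N : ℕ, ∀ n : ℕ, N ≤ n →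
    (C : ℝ) * 2 ^ (k * (Nat.clog 2 n / M)) ≤ (n : ℝ) ^ ε := by
  obtain ⟨M, hM⟩ := exists_nat_ge (((k : ℝ) + 1) / ε)
  have hMpos : (0 : ℝ) < M := lt_of_lt_of_le (by positivity) hM
  have hM1 : 1 ≤ M := by exact_mod_cast hMpos
  refine ⟨M, hM1, fun C => ⟨C ^ M * 2 ^ k + 2, fun n hn => ?_⟩⟩
  have hn2 : 2 ≤ n := by omega
  have hnR : (0 : ℝ) < n := by exact_mod_cast (by omega : 0 < n)
  have hn1R : (1 : ℝ) ≤ n := by exact_mod_cast (by omega : 1 ≤ n)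
  obtain ⟨L, hL⟩ : ∃ L, L = Nat.clog 2 n := ⟨_, rfl⟩
  rw [← hL]
  have h2L : 2 ^ L ≤ 2 * n := by
    have h1 : 2 ^ (Nat.clog 2 n - 1) < n := by
      have := Nat.pow_pred_clog_lt_self (b := 2) (by norm_num) (show 1 < n by omega)
      simpa using this
    rw [← hL] at h1
    rcases Nat.eq_zero_or_pos L with h0 | h0
    · rw [h0]; omega
    · have h3 : 2 ^ L = 2 * 2 ^ (L - 1) := by
        rw [← pow_succ']
        congr 1
        omega
      omega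
  have hpow : ((C : ℝ) * 2 ^ (k * (L / M))) ^ M ≤ ((n : ℝ) ^ ε) ^ M := by
    have e1 : ((C : ℝ) * 2 ^ (k * (L / M))) ^ M ≤ (C : ℝ) ^ M * (2 * (n : ℝ)) ^ k := by
      rw [mul_pow]
      refine mul_le_mul_of_nonneg_left ?_ (by positivity)
      rw [← pow_mul]
      have e2 : k * (L / M) * M ≤ L * k := by
        have := Nat.div_mul_le_self L M
        calc k * (L / M) * M = (L / M * M) * k := by ring
          _ ≤ L * k := Nat.mul_le_mul_right _ this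
      calc (2 : ℝ) ^ (k * (L / M) * M) ≤ 2 ^ (L * k) := pow_le_pow_right₀ (by norm_num) e2
        _ = (2 ^ L) ^ k := pow_mul _ _ _
        _ ≤ (2 * (n : ℝ)) ^ k := by
          refine pow_le_pow_left₀ (by positivity) ?_ _
          exact_mod_cast h2L
    refine e1.trans ?_
    have e3 : (C : ℝ) ^ M * (2 * (n : ℝ)) ^ k ≤ (n : ℝ) ^ (k + 1) := by
      have e4 : (C : ℝ) ^ M * 2 ^ k ≤ n := by
        have : C ^ M * 2 ^ k ≤ n := by omega
        exact_mod_cast this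
      calc (C : ℝ) ^ M * (2 * (n : ℝ)) ^ k = ((C : ℝ) ^ M * 2 ^ k) * (n : ℝ) ^ k := by
            rw [mul_pow]; ring
        _ ≤ n * (n : ℝ) ^ k := mul_le_mul_of_nonneg_right e4 (by positivity)
        _ = _ := by rw [pow_succ']
    refine e3.trans ?_
    rw [← Real.rpow_natCast ((n : ℝ) ^ ε) M, ← Real.rpow_mul hnR.le,
      ← Real.rpow_natCast (n : ℝ) (k + 1)]
    refine Real.rpow_le_rpow_of_exponent_le hn1R ?_
    push_cast
    rw [div_le_iff₀ hε] at hM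
    linarith
  exact le_of_pow_le_pow_left₀ (by omega) (Real.rpow_nonneg hnR.le _) hpow

theorem clog_small (ε : ℝ) (hε : 0 < ε) : ∃ N : ℕ, ∀ n : ℕ, N ≤ n →
    (Nat.clog 2 n : ℝ) ≤ (n : ℝ) ^ ε := by
  obtain ⟨M, hM1, hM⟩ := num 1 ε hε
  obtain ⟨N, hN⟩ := hM M
  refine ⟨N, fun n hn => le_trans ?_ (hN n hn)⟩
  obtain ⟨L, hL⟩ : ∃ L, L = Nat.clog 2 n := ⟨_, rfl⟩
  rw [← hL]
  have h1 : L ≤ M * 2 ^ (1 * (L / M)) := by
    have h2 := Nat.div_add_mod L M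
    have h3 := Nat.mod_lt L (show 0 < M by omega)
    have h4 : L / M < 2 ^ (L / M) := Nat.lt_two_pow_self
    rw [one_mul]
    calc L ≤ M * (L / M + 1) := by rw [Nat.mul_add]; omega
      _ ≤ M * 2 ^ (L / M) := Nat.mul_le_mul_left _ h4
  exact_mod_cast h1

/-- patterns whose rows have bounded degree apart from a few hubs -/
theorem hub_upper {k : ℕ} (t : ℕ) (P : SimpleGraph (Fin k)) (m : ℕ) (A : Finset (Fin k))
    (hm : ∀ u v, P.Adj u v → (u.val < m ↔ m ≤ v.val)) (hA : A.card ≤ t + 1)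
    (hdeg : ∀ w, w.val < m → w ∉ A → (P.neighborSet w).ncard ≤ t + 1)
    (ε : ℝ) (hε : 0 < ε) : ∃ N : ℕ, ∀ n : ℕ, N ≤ n → ∀ G : SimpleGraph (Fin n),
      ¬ OContains P G → (G.edgeSet.ncard : ℝ) ≤ (n : ℝ) ^ (2 - 1 / ((t : ℝ) + 1) + ε) := by
  classical
  obtain ⟨M, hM1, hM⟩ := num k (ε / 2) (by positivity)
  obtain ⟨T0, hT0⟩ := homog t M (k + (t + 1))
  obtain ⟨T, hTT, hT1⟩ : ∃ T, T0 ≤ T ∧ t + 1 ≤ T := ⟨max T0 (t+1), le_max_left _ _, le_max_right _ _⟩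
  obtain ⟨K, hK⟩ : ∃ K, K = 2 * T ^ (t+1) := ⟨_, rfl⟩
  obtain ⟨C1, hC1⟩ : ∃ C1, C1 = (t+1) * (t+1) + (t+1) * ((2 ^ (t+1) + 1) * 2 ^ M) := ⟨_, rfl⟩
  obtain ⟨D0, hD0⟩ : ∃ D0, D0 = 2 * T ^ 2 + 1 := ⟨_, rfl⟩
  obtain ⟨N1, hN1⟩ := hM (2 * K * (C1 * 2 ^ k) + (2 * D0 + 1))
  obtain ⟨N2, hN2⟩ := clog_small (ε / 2) (by positivity)
  refine ⟨max N1 (max N2 2), fun n hn G hno => ?_⟩
  have hn1 : N1 ≤ n := (le_max_left _ _).trans hn
  have hn2 : N2 ≤ n := (le_max_left _ _).trans ((le_max_right _ _).trans hn)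
  have hn3 : 2 ≤ n := (le_max_right _ _).trans ((le_max_right _ _).trans hn)
  have hnR : (0 : ℝ) < n := by exact_mod_cast (by omega : 0 < n)
  have hn1R : (1 : ℝ) ≤ n := by exact_mod_cast (by omega : 1 ≤ n)
  by_contra hcon
  push Not at hcon
  obtain ⟨L, hL⟩ : ∃ L, L = Nat.clog 2 n := ⟨_, rfl⟩
  have hnL : n ≤ 2 ^ L := by rw [hL]; exact Nat.le_pow_clog (by norm_num) n
  have hnum := hN1 n hn1
  have hclog := hN2 n hn2
  rw [← hL] at hnum hclog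
  obtain ⟨q, hq⟩ : ∃ q : ℝ, q = (n : ℝ) ^ (ε / 2) := ⟨_, rfl⟩
  rw [← hq] at hnum hclog
  have hq0 : 0 < q := by rw [hq]; positivity
  rw [← edg_fwd] at hcon
  -- a popular level
  obtain ⟨j, hj⟩ : ∃ j, (n : ℝ) ^ (2 - 1 / ((t : ℝ) + 1) + ε / 2) < (edg (lvl G j) : ℝ) := by
    by_contra hc
    push Not at hc
    have h1 : (edg (fwd G) : ℝ) ≤ (L : ℝ) * (n : ℝ) ^ (2 - 1 / ((t : ℝ) + 1) + ε / 2) := by
      have h2 : (edg (fwd G) : ℝ) ≤ ∑ j ∈ range L, (edg (lvl G j) : ℝ) := by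
        exact_mod_cast edg_lvl G L hnL
      refine h2.trans ((Finset.sum_le_sum fun j _ => hc j).trans (le_of_eq ?_))
      rw [Finset.sum_const, card_range, nsmul_eq_mul]
    have h3 : (L : ℝ) * (n : ℝ) ^ (2 - 1 / ((t : ℝ) + 1) + ε / 2) ≤
        (n : ℝ) ^ (2 - 1 / ((t : ℝ) + 1) + ε) := by
      calc (L : ℝ) * (n : ℝ) ^ (2 - 1 / ((t : ℝ) + 1) + ε / 2)
          ≤ q * (n : ℝ) ^ (2 - 1 / ((t : ℝ) + 1) + ε / 2) :=
            mul_le_mul_of_nonneg_right hclog (by positivity)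
        _ = (n : ℝ) ^ (2 - 1 / ((t : ℝ) + 1) + ε) := by
            rw [hq, ← Real.rpow_add hnR]
            congr 1
            ring
    linarith
  obtain ⟨R, hRdef⟩ : ∃ R, R = lvl G j := ⟨_, rfl⟩
  rw [← hRdef] at hj
  -- growth
  have hgr : q * ((hom R t (t+1)).card : ℝ) ≤ ((hom R (t+1) (t+1)).card : ℝ) := by
    rw [hq, hom_swap R t (t+1), hom_swap R (t+1) (t+1)]
    exact ratio_grow (by omega) (fun u v => R v u) t (ε / 2) (by positivity)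
      (by rw [← edg_swap]; exact hj)
  have he : (n : ℝ) ^ (2 * t + 1) * q ≤ (edg R : ℝ) ^ (t+1) := by
    have h3 : ((n : ℝ) ^ (2 - 1 / ((t : ℝ) + 1) + ε / 2)) ^ (t+1) ≤ (edg R : ℝ) ^ (t+1) :=
      pow_le_pow_left₀ (Real.rpow_nonneg hnR.le _) hj.le _
    refine le_trans ?_ h3
    rw [hq, ← Real.rpow_natCast ((n : ℝ) ^ (2 - 1 / ((t : ℝ) + 1) + ε / 2)) (t+1),
      ← Real.rpow_mul hnR.le, ← Real.rpow_natCast (n : ℝ) (2 * t + 1), ← Real.rpow_add hnR]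
    refine Real.rpow_le_rpow_of_exponent_le hn1R ?_
    push_cast
    have h4 : (2 - 1 / ((t : ℝ) + 1) + ε / 2) * ((t : ℝ) + 1) = 2 * t + 1 + ε / 2 * (t + 1) := by
      field_simp
      ring
    rw [h4]
    have h5 : ε / 2 ≤ ε / 2 * ((t : ℝ) + 1) :=
      le_mul_of_one_le_right (by positivity) (by linarith [Nat.cast_nonneg (α := ℝ) t])
    linarith
  -- blocks of levels
  obtain ⟨len, hlen⟩ : ∃ len, len = L / M + 1 := ⟨_, rfl⟩
  have hlen1 : 1 ≤ len := by rw [hlen]; exact Nat.le_add_left 1 _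
  have hLM : L ≤ M * len := by
    have h2 := Nat.div_add_mod L M
    have h3 := Nat.mod_lt L (show 0 < M by omega)
    rw [hlen, Nat.mul_add]
    omega
  have hbad := bad_card hnL hlen1 hLM k t R
  obtain ⟨K1, hK1⟩ : ∃ K1, K1 = (t+1) * (t+1) + (t+1) * ((2 ^ (t+1) + 1) *
    (2 ^ M * 2 ^ (k * len))) := ⟨_, rfl⟩
  rw [← hK1] at hbad
  have hK1le : K1 ≤ C1 * 2 ^ k * 2 ^ (k * (L / M)) := by
    have h1 : 2 ^ (k * len) = 2 ^ k * 2 ^ (k * (L / M)) := by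
      rw [← pow_add, hlen]
      congr 1
      ring
    have h2 : 1 ≤ 2 ^ k * 2 ^ (k * (L / M)) := Nat.mul_pos (by positivity) (by positivity)
    rw [hK1, hC1, h1]
    calc (t+1) * (t+1) + (t+1) * ((2 ^ (t+1) + 1) * (2 ^ M * (2 ^ k * 2 ^ (k * (L / M)))))
        = (t+1) * (t+1) * 1 + (t+1) * ((2 ^ (t+1) + 1) * 2 ^ M) *
          (2 ^ k * 2 ^ (k * (L / M))) := by ring
      _ ≤ (t+1) * (t+1) * (2 ^ k * 2 ^ (k * (L / M))) + (t+1) * ((2 ^ (t+1) + 1) * 2 ^ M) *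
          (2 ^ k * 2 ^ (k * (L / M))) := Nat.add_le_add_right (Nat.mul_le_mul_left _ h2) _
      _ = _ := by ring
  have hp1 : (1 : ℝ) ≤ 2 ^ (k * (L / M)) := one_le_pow₀ (by norm_num)
  have hK' : 2 * (K : ℝ) * K1 ≤ q := by
    have h1 : (K1 : ℝ) ≤ (C1 : ℝ) * 2 ^ k * 2 ^ (k * (L / M)) := by exact_mod_cast hK1le
    have h2 : 2 * (K : ℝ) * K1 ≤ 2 * (K : ℝ) * ((C1 : ℝ) * 2 ^ k * 2 ^ (k * (L / M))) :=
      mul_le_mul_of_nonneg_left h1 (by positivity)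
    refine h2.trans (le_trans ?_ hnum)
    push_cast
    have h3 : (0 : ℝ) ≤ (2 * (D0 : ℝ) + 1) * 2 ^ (k * (L / M)) := by positivity
    linarith
  have hDq : 2 * (D0 : ℝ) < q := by
    refine lt_of_lt_of_le ?_ hnum
    push_cast
    have h3 : (0 : ℝ) ≤ 2 * (K : ℝ) * ((C1 : ℝ) * 2 ^ k) * 2 ^ (k * (L / M)) := by positivity
    have h4 : (2 * (D0 : ℝ) + 1) * 1 ≤ (2 * (D0 : ℝ) + 1) * 2 ^ (k * (L / M)) :=
      mul_le_mul_of_nonneg_left hp1 (by positivity)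
    linarith
  have hD' : 2 * (D0 : ℝ) ^ (t+1) < q ^ (t+1) := by
    have h1 : (2 * (D0 : ℝ)) ^ (t+1) < q ^ (t+1) :=
      pow_lt_pow_left₀ hDq (by positivity) (by omega)
    refine lt_of_le_of_lt ?_ h1
    rw [mul_pow]
    refine mul_le_mul_of_nonneg_right ?_ (by positivity)
    calc (2 : ℝ) = 2 ^ 1 := by norm_num
      _ ≤ 2 ^ (t+1) := pow_le_pow_right₀ (by norm_num) (by omega)
  obtain ⟨x, hxD, hxK⟩ := choose_root R t (by omega) (bad L len k (t+1) R) K1 K D0 q hq0.le he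
    hbad hgr hK' hD'
  have hTpos : 0 < T := by omega
  have hKpos : 0 < K := by rw [hK]; positivity
  have hxK' := hxK hKpos
  rw [hK] at hxK'
  have hxD' : 2 * T ^ 2 < (cn R x).card := by
    rw [hD0] at hxD
    exact hxD
  obtain ⟨hxinj, Y, hYc, hYx, hYp⟩ := extract hT1 R x hxD' hxK'
  obtain ⟨X0, hX0⟩ : ∃ X0 : Finset (Fin n), X0 = univ.image x := ⟨_, rfl⟩
  have hX0c : X0.card = t + 1 := by
    rw [hX0, Finset.card_image_of_injective _ hxinj, Finset.card_univ, Fintype.card_fin]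
  rw [← hX0] at hYp
  obtain ⟨ρ, hρ, hρX, hρx⟩ : ∃ ρ : Fin (t+1) → Fin n, StrictMono ρ ∧ (∀ i, ρ i ∈ X0) ∧
      ∀ r ∈ X0, ∃ i, ρ i = r := by
    refine ⟨X0.orderEmbOfFin hX0c, (X0.orderEmbOfFin hX0c).strictMono,
      fun i => X0.orderEmbOfFin_mem hX0c i, fun r hr => ?_⟩
    have : r ∈ Set.range (X0.orderEmbOfFin hX0c) := by
      rw [Finset.range_orderEmbOfFin]
      exact hr
    exact this
  obtain ⟨Q, hQY, hQc, SA, SB, hS⟩ := hT0 n L len hLM R ρ X0 Y (by omega)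
  have hQx : ∀ y ∈ Q, ∀ i, R (ρ i) y := by
    intro y hy i
    have h1 := hρX i
    rw [hX0] at h1
    obtain ⟨i', _, hi'⟩ := mem_image.1 h1
    rw [← hi']
    exact hYx y (hQY hy) i'
  obtain ⟨J0, hJ0, hJ0c⟩ := Finset.exists_subset_card_eq (s := Q) (n := t + 1) (by omega)
  have hpoor := hYp J0 (hJ0.trans hQY) hJ0c
  unfold Poor at hpoor
  push Not at hpoor
  refine hno (emb G R (by rw [hRdef]; exact fun u v h => h.1.1) (by
    rw [hRdef]; exact lvl_order G j) P m A hm hA hdeg X0 ρ hρ hρX Q (by omega) (by omega) hQx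
    SA SB hS ?_ ?_)
  · intro i
    rw [← (hS J0 hJ0 hJ0c i).1]
    exact (hpoor (ρ i) (hρX i)).1
  · intro i
    rw [← (hS J0 hJ0 hJ0c i).2]
    exact (hpoor (ρ i) (hρX i)).2

end H152HR
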