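import Mathlib
import Pool.Agent.H152.HR.Defs
import Pool.Agent.H152.HR.Upper

set_option autoImplicit false

open Finset

namespace H152HR

open H152TT

theorem rev_contains {k n : ℕ} (P : SimpleGraph (Fin k)) (G : SimpleGraph (Fin n))
    (h : OContains (P.comap Fin.rev) (G.comap Fin.rev)) : OContains P G := by
  obtain ⟨f, hf, hadj⟩ := h
  refine ⟨fun u => Fin.rev (f (Fin.rev u)), ?_, ?_⟩
  · intro u v huv
    exact Fin.rev_lt_rev.2 (hf (Fin.rev_lt_rev.2 huv))
  · intro u v huv
    have h1 := hadj (Fin.rev u) (Fin.rev v) (by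
      rw [SimpleGraph.comap_adj, Fin.rev_rev, Fin.rev_rev]; exact huv)
    rwa [SimpleGraph.comap_adj] at h1

theorem rev_edges {n : ℕ} (G : SimpleGraph (Fin n)) :
    (G.comap Fin.rev).edgeSet.ncard = G.edgeSet.ncard := by
  have e : (G.comap Fin.rev) ≃g G := SimpleGraph.Iso.comap Fin.revPerm G
  exact Nat.card_congr e.mapEdgeSet

theorem rev_nbr {k : ℕ} (P : SimpleGraph (Fin k)) (w : Fin k) :
    ((P.comap Fin.rev).neighborSet w).ncard = (P.neighborSet (Fin.rev w)).ncard := by
  have h : (P.comap Fin.rev).neighborSet w = Fin.rev '' (P.neighborSet (Fin.rev w)) := by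
    ext v
    simp only [SimpleGraph.mem_neighborSet, SimpleGraph.comap_adj, Set.mem_image]
    constructor
    · intro h
      exact ⟨Fin.rev v, h, Fin.rev_rev v⟩
    · rintro ⟨z, hz, rfl⟩
      rw [Fin.rev_rev]
      exact hz
  rw [h, Set.ncard_image_of_injective _ Fin.rev_injective]

/-- the bound for both sides -/
theorem side_upper {k : ℕ} (s : ℕ) (hs : 1 ≤ s) (P : SimpleGraph (Fin k)) (h : HubSide s P)
    (ε : ℝ) (hε : 0 < ε) : ∃ N : ℕ, ∀ n : ℕ, N ≤ n → ∀ G : SimpleGraph (Fin n),
      ¬ OContains P G → (G.edgeSet.ncard : ℝ) ≤ (n : ℝ) ^ (2 - 1 / (s : ℝ) + ε) := by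
  classical
  obtain ⟨t, rfl⟩ : ∃ t, s = t + 1 := ⟨s - 1, by omega⟩
  obtain ⟨m, A, hm, hA, hd | hd⟩ := h
  · obtain ⟨N, hN⟩ := hub_upper t P m A hm hA hd ε hε
    refine ⟨N, fun n hn G hG => ?_⟩
    have := hN n hn G hG
    push_cast
    exact this
  · obtain ⟨N, hN⟩ := hub_upper t (P.comap Fin.rev) (k - m) (A.image Fin.rev) (by
      intro u v huv
      rw [SimpleGraph.comap_adj] at huv
      have h1 := hm _ _ huv
      rw [Fin.val_rev, Fin.val_rev] at h1
      have := u.isLt
      have := v.isLt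
      omega) (card_image_le.trans hA) (by
      intro w hw hwA
      rw [rev_nbr]
      refine hd (Fin.rev w) ?_ ?_
      · rw [Fin.val_rev]
        omega
      · intro hc
        exact hwA (mem_image.2 ⟨Fin.rev w, hc, Fin.rev_rev w⟩)) ε hε
    refine ⟨N, fun n hn G hG => ?_⟩
    have := hN n hn (G.comap Fin.rev) (fun hc => hG (rev_contains P G hc))
    rw [rev_edges] at this
    push_cast
    exact this

/-- the number of edges counted from the initial part -/
theorem edges_eq {k : ℕ} (P : SimpleGraph (Fin k)) (m : ℕ)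
    (hm : ∀ u v, P.Adj u v → (u.val < m ↔ m ≤ v.val)) :
    P.edgeSet.ncard = ∑ w ∈ (univ : Finset (Fin k)).filter (fun w => w.val < m),
      (P.neighborSet w).ncard := by
  classical
  have h1 : ∀ w : Fin k, (P.neighborSet w).ncard =
      ((univ : Finset (Fin k)).filter (fun v => P.Adj w v)).card := by
    intro w
    rw [← Set.ncard_coe_finset]
    congr 1
    ext v
    simp
  obtain ⟨E, hE⟩ : ∃ E : Finset (Fin k × Fin k), E =
    univ.filter (fun z => z.1.val < m ∧ P.Adj z.1 z.2) := ⟨_, rfl⟩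
  have h2 : E.card = ∑ w ∈ (univ : Finset (Fin k)).filter (fun w => w.val < m),
      (P.neighborSet w).ncard := by
    rw [Finset.sum_filter, hE, Finset.card_filter, Fintype.sum_prod_type]
    refine Finset.sum_congr rfl fun w _ => ?_
    rw [h1 w, Finset.card_filter]
    by_cases hw : w.val < m
    · simp [hw]
    · simp [hw]
  rw [← h2]
  have h3 : P.edgeSet = (fun z : Fin k × Fin k => s(z.1, z.2)) '' (E : Set (Fin k × Fin k)) := by
    ext e
    induction e using Sym2.ind with
    | _ a b =>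
      rw [SimpleGraph.mem_edgeSet, Set.mem_image]
      constructor
      · intro hab
        by_cases ha : a.val < m
        · exact ⟨(a, b), by rw [hE]; simpa using ⟨ha, hab⟩, rfl⟩
        · have hb : b.val < m := by
            by_contra hc
            exact ha ((hm a b hab).2 (not_lt.1 hc))
          exact ⟨(b, a), by rw [hE]; simpa using ⟨hb, hab.symm⟩, Sym2.eq_swap⟩
      · rintro ⟨⟨c, d⟩, hcd, hs⟩
        rw [hE] at hcd
        simp only [Finset.coe_filter, mem_univ, true_and, Set.mem_setOf_eq] at hcd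
        simp only at hs
        rw [← SimpleGraph.mem_edgeSet, ← hs]
        exact hcd.2
  rw [h3, Set.ncard_image_of_injOn, Set.ncard_coe_finset]
  rintro ⟨a, b⟩ hab ⟨c, d⟩ hcd h
  rw [hE] at hab hcd
  simp only [Finset.coe_filter, mem_univ, true_and, Set.mem_setOf_eq] at hab hcd
  simp only at h
  rcases Sym2.eq_iff.1 h with ⟨h4, h5⟩ | ⟨h4, h5⟩
  · rw [h4, h5]
  · exfalso
    subst h4 h5
    have := (hm _ _ hab.2).1 hab.1
    omega

/-- few edges -/
theorem side_of_edges {k : ℕ} (P : SimpleGraph (Fin k)) (hO : OrdBip P) (t : ℕ)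
    (he : P.edgeSet.ncard < (t + 1) ^ 2) : HubSide t P := by
  classical
  obtain ⟨m, hm⟩ := hO
  refine ⟨m, (univ.filter (fun w : Fin k => w.val < m)).filter
    (fun w => t < (P.neighborSet w).ncard), hm, ?_, Or.inl ?_⟩
  · by_contra hc
    have h1 := edges_eq P m hm
    have h2 : ∑ w ∈ (univ.filter (fun w : Fin k => w.val < m)).filter
        (fun w => t < (P.neighborSet w).ncard), (t + 1) ≤
        ∑ w ∈ (univ : Finset (Fin k)).filter (fun w => w.val < m), (P.neighborSet w).ncard := by
      refine (Finset.sum_le_sum fun w hw => ?_).trans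
        (Finset.sum_le_sum_of_subset (filter_subset _ _))
      exact (mem_filter.1 hw).2
    rw [Finset.sum_const, smul_eq_mul, ← h1] at h2
    have h3 : (t + 1) * (t + 1) ≤ P.edgeSet.ncard :=
      (Nat.mul_le_mul_right _ (by omega)).trans h2
    rw [sq] at he
    omega
  · intro w hw hwA
    by_contra hc
    exact hwA (mem_filter.2 ⟨mem_filter.2 ⟨mem_univ _, hw⟩, by omega⟩)

end H152HR
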