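import Mathlib
import Pool.Agent.Helper852.OF.Leaf
import Pool.Agent.H152.TT.Defs
import Pool.Agent.H152.TT.Defs2
import Pool.Agent.H152.HR.Side

set_option autoImplicit false

open Finset

namespace H152HR

open H152TT

open Classical in
/-- the ordered pairs of adjacent vertices inside a set -/
noncomputable def prs {k : ℕ} (F : SimpleGraph (Fin k)) (s : Finset (Fin k)) :
    Finset (Fin k × Fin k) :=
  (s ×ˢ s).filter (fun z => F.Adj z.1 z.2)

open Classical in
theorem mem_prs {k : ℕ} {F : SimpleGraph (Fin k)} {s : Finset (Fin k)} {z : Fin k × Fin k} :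
    z ∈ prs F s ↔ (z.1 ∈ s ∧ z.2 ∈ s) ∧ F.Adj z.1 z.2 := by
  unfold prs
  rw [mem_filter, mem_product]

open Classical in
/-- forests have few edges inside every set -/
theorem prs_forest {k : ℕ} (F : SimpleGraph (Fin k)) (hF : F.IsAcyclic) :
    ∀ n : ℕ, ∀ s : Finset (Fin k), s.card = n + 1 → (prs F s).card ≤ 2 * n := by
  intro n
  induction n with
  | zero =>
    intro s hs
    obtain ⟨a, rfl⟩ := Finset.card_eq_one.1 hs
    rw [Nat.mul_zero, Nat.le_zero, Finset.card_eq_zero, Finset.eq_empty_iff_forall_notMem]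
    intro z hz
    rw [mem_prs, mem_singleton, mem_singleton] at hz
    have h1 := hz.2
    rw [hz.1.1, hz.1.2] at h1
    exact h1.ne rfl
  | succ n ih =>
    intro s hs
    obtain ⟨w, hw, hl⟩ := H852OF.leaf F hF s (by rw [← card_pos]; omega)
    have h1 := ih (s.erase w) (by rw [card_erase_of_mem hw, hs]; rfl)
    obtain ⟨N, hN⟩ : ∃ N : Finset (Fin k), N = s.filter (fun u => F.Adj w u) := ⟨_, rfl⟩
    have hN1 : N.card ≤ 1 := by
      rw [Finset.card_le_one]
      intro a ha b hb
      rw [hN, mem_filter] at ha hb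
      exact hl a ha.1 b hb.1 ha.2 hb.2
    have hsub : prs F s ⊆ prs F (s.erase w) ∪ (N.image (fun u => (w, u)) ∪
        N.image (fun u => (u, w))) := by
      rintro ⟨a, b⟩ hz
      rw [mem_prs] at hz
      rw [mem_union, mem_union, mem_image, mem_image]
      by_cases ha : a = w
      · right; left
        refine ⟨b, ?_, by rw [ha]⟩
        rw [hN, mem_filter]
        refine ⟨hz.1.2, ?_⟩
        rw [← ha]; exact hz.2
      · by_cases hb : b = w
        · right; right
          refine ⟨a, ?_, by rw [hb]⟩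
          rw [hN, mem_filter]
          refine ⟨hz.1.1, ?_⟩
          rw [← hb]; exact hz.2.symm
        · left
          rw [mem_prs]
          exact ⟨⟨mem_erase.2 ⟨ha, hz.1.1⟩, mem_erase.2 ⟨hb, hz.1.2⟩⟩, hz.2⟩
    have h2 := (card_le_card hsub).trans ((card_union_le _ _).trans
      (Nat.add_le_add_left (card_union_le _ _) _))
    have h3 : (N.image (fun u => (w, u))).card ≤ 1 := card_image_le.trans hN1
    have h4 : (N.image (fun u => (u, w))).card ≤ 1 := card_image_le.trans hN1
    omega

open Classical in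
/-- few independent cycles and few leaves -/
theorem side_of_leaves_m {k : ℕ} (P : SimpleGraph (Fin k)) (m : ℕ)
    (hm : ∀ u v, P.Adj u v → (u.val < m ↔ m ≤ v.val)) (r l t : ℕ) (R : Finset (Sym2 (Fin k)))
    (hR : R.card ≤ r) (hac : (P.deleteEdges (R : Set (Sym2 (Fin k)))).IsAcyclic)
    (hl : ((univ : Finset (Fin k)).filter (fun v => (P.neighborSet v).ncard = 1)).card ≤ l)
    (ht : 2 * r + l < 2 * t ^ 2) : ∃ A : Finset (Fin k), A.card ≤ t ∧
      ((∀ w, w.val < m → w ∉ A → (P.neighborSet w).ncard ≤ t) ∨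
        (∀ w, m ≤ w.val → w ∉ A → (P.neighborSet w).ncard ≤ t)) := by
  obtain ⟨N, hN⟩ : ∃ N : Fin k → Finset (Fin k), ∀ w, N w = univ.filter (fun v => P.Adj w v) :=
    ⟨_, fun _ => rfl⟩
  have hmem : ∀ w v, v ∈ N w ↔ P.Adj w v := by
    intro w v
    rw [hN, mem_filter]
    simp
  have hNc : ∀ w, (P.neighborSet w).ncard = (N w).card := by
    intro w
    rw [← Set.ncard_coe_finset]
    congr 1
    ext v
    rw [SimpleGraph.mem_neighborSet, Finset.mem_coe, hmem]
  simp only [hNc] at hl
  obtain ⟨rows, hrows⟩ : ∃ S : Finset (Fin k), S = univ.filter (fun w => w.val < m) := ⟨_, rfl⟩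
  obtain ⟨cols, hcols⟩ : ∃ S : Finset (Fin k), S = univ.filter (fun w => ¬ w.val < m) := ⟨_, rfl⟩
  by_cases hA : (rows.filter (fun w => t < (N w).card)).card ≤ t
  · refine ⟨rows.filter (fun w => t < (N w).card), hA, Or.inl ?_⟩
    intro w hw hwA
    rw [hNc]
    by_contra hc
    exact hwA (mem_filter.2 ⟨by rw [hrows, mem_filter]; exact ⟨mem_univ _, hw⟩, by omega⟩)
  by_cases hB : (cols.filter (fun w => t < (N w).card)).card ≤ t
  · refine ⟨cols.filter (fun w => t < (N w).card), hB, Or.inr ?_⟩
    intro w hw hwA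
    rw [hNc]
    by_contra hc
    exact hwA (mem_filter.2 ⟨by rw [hcols, mem_filter]; exact ⟨mem_univ _, by omega⟩, by omega⟩)
  exfalso
  obtain ⟨A3, hA3, hA3c⟩ := Finset.exists_subset_card_eq (show t + 1 ≤
    (rows.filter (fun w => t < (N w).card)).card by omega)
  obtain ⟨B3, hB3, hB3c⟩ := Finset.exists_subset_card_eq (show t + 1 ≤
    (cols.filter (fun w => t < (N w).card)).card by omega)
  have hAB : Disjoint A3 B3 := by
    rw [Finset.disjoint_left]
    intro a ha hb
    have h1 := (mem_filter.1 (hA3 ha)).1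
    have h2 := (mem_filter.1 (hB3 hb)).1
    rw [hrows, mem_filter] at h1
    rw [hcols, mem_filter] at h2
    exact h2.2 h1.2
  obtain ⟨X, hX⟩ : ∃ X, X = A3 ∪ B3 := ⟨_, rfl⟩
  have hXc : X.card = 2 * (t + 1) := by
    rw [hX, card_union_of_disjoint hAB, hA3c, hB3c]
    ring
  have hXd : ∀ v ∈ X, t + 1 ≤ (N v).card := by
    intro v hv
    rw [hX, mem_union] at hv
    rcases hv with hv | hv
    · exact (mem_filter.1 (hA3 hv)).2
    · exact (mem_filter.1 (hB3 hv)).2
  -- the vertices with a neighbour
  obtain ⟨S, hS⟩ : ∃ S : Finset (Fin k), S = univ.filter (fun v => 1 ≤ (N v).card) := ⟨_, rfl⟩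
  have hXS : X ⊆ S := by
    intro v hv
    rw [hS, mem_filter]
    have := hXd v hv
    exact ⟨mem_univ _, by omega⟩
  have hSpos : 1 ≤ S.card := by
    have := card_le_card hXS
    omega
  -- degree sum of the forest
  obtain ⟨F, hF⟩ : ∃ F : SimpleGraph (Fin k), F = P.deleteEdges (R : Set (Sym2 (Fin k))) :=
    ⟨_, rfl⟩
  rw [← hF] at hac
  have h1 := prs_forest F hac (S.card - 1) S (by omega)
  -- pairs of the pattern
  have h2 : (prs P S).card ≤ (prs F S).card + 2 * R.card := by
    have hsub : prs P S ⊆ prs F S ∪ R.biUnion (fun e => (prs P S).filter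
        (fun z => s(z.1, z.2) = e)) := by
      rintro ⟨a, b⟩ hz
      rw [mem_union, mem_biUnion]
      by_cases he : s(a, b) ∈ R
      · right
        exact ⟨s(a, b), he, mem_filter.2 ⟨hz, rfl⟩⟩
      · left
        rw [mem_prs] at hz ⊢
        refine ⟨hz.1, ?_⟩
        rw [hF, SimpleGraph.deleteEdges_adj]
        exact ⟨hz.2, by simpa using he⟩
    have h3 : (R.biUnion (fun e => (prs P S).filter (fun z => s(z.1, z.2) = e))).card ≤
        R.card * 2 := by
      refine Finset.card_biUnion_le_card_mul _ _ 2 ?_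
      intro e _
      induction e using Sym2.ind with
      | _ a b =>
        have : (prs P S).filter (fun z => s(z.1, z.2) = s(a, b)) ⊆ {(a, b), (b, a)} := by
          rintro ⟨c, d⟩ hz
          rw [mem_filter] at hz
          rw [mem_insert, mem_singleton]
          rcases Sym2.eq_iff.1 hz.2 with ⟨h4, h5⟩ | ⟨h4, h5⟩
          · left
            simp only at h4 h5
            rw [h4, h5]
          · right
            simp only at h4 h5
            rw [h4, h5]
        exact (card_le_card this).trans Finset.card_le_two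
    have h4 := (card_le_card hsub).trans (card_union_le _ _)
    omega
  have h5 : (prs P S).card = ∑ v ∈ S, (N v).card := by
    unfold prs
    rw [Finset.card_filter, Finset.sum_product]
    refine Finset.sum_congr rfl fun v _ => ?_
    rw [← Finset.card_filter]
    congr 1
    ext u
    rw [mem_filter, hmem]
    constructor
    · exact fun h => h.2
    · intro h
      refine ⟨?_, h⟩
      rw [hS, mem_filter]
      refine ⟨mem_univ _, ?_⟩
      exact card_pos.2 ⟨v, (hmem u v).2 h.symm⟩
  -- the lower bound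
  have h6 : ∑ v ∈ S \ X, (N v).card + ∑ v ∈ X, (N v).card = ∑ v ∈ S, (N v).card :=
    Finset.sum_sdiff hXS
  have h7 : X.card * (t + 1) ≤ ∑ v ∈ X, (N v).card := by
    rw [← smul_eq_mul]
    exact Finset.card_nsmul_le_sum _ _ _ hXd
  have h8 : 2 * (S \ X).card ≤ ∑ v ∈ S \ X, (N v).card + l := by
    have e1 : ∑ _v ∈ S \ X, 2 ≤ ∑ v ∈ S \ X, ((N v).card + if (N v).card = 1 then 1 else 0) := by
      refine Finset.sum_le_sum fun v hv => ?_
      have h9 := (mem_sdiff.1 hv).1
      rw [hS, mem_filter] at h9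
      by_cases h10 : (N v).card = 1
      · rw [if_pos h10]; omega
      · rw [if_neg h10]; omega
    rw [Finset.sum_const, smul_eq_mul, Finset.sum_add_distrib, ← Finset.card_filter] at e1
    have e2 : ((S \ X).filter (fun v => (N v).card = 1)).card ≤ l := by
      refine le_trans (card_le_card ?_) hl
      intro v hv
      exact mem_filter.2 ⟨mem_univ _, (mem_filter.1 hv).2⟩
    omega
  have h9 : (S \ X).card + X.card = S.card := card_sdiff_add_card_eq_card hXS
  rw [hXc] at h7 h9
  have h10 : 2 * (t + 1) * (t + 1) = 2 * t ^ 2 + 4 * t + 2 := by ring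
  rw [h10] at h7
  omega

end H152HR
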