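import Mathlib
import Pool.Agent.H152.HR.Pick

set_option autoImplicit false

open Finset

namespace H152HR

/-- a block with many well filled children -/
theorem node (b T : ℕ) (hb : 2 ≤ b) (hT : 1 ≤ T) : ∀ (m : ℕ) (X : Finset ℕ) (w : ℕ),
    (∀ x ∈ X, x / b ^ m = w) → (2 * T) ^ m < X.card →
    ∃ j < m, ∃ w' : ℕ, ∃ D ⊆ range b, D.card = T ∧ ∀ a ∈ D, X.card ≤ (2 * T) ^ m * (2 * b) *
      (X.filter (fun x => x / b ^ (j + 1) = w' ∧ x / b ^ j % b = a)).card := by
  classical
  intro m
  induction m with
  | zero =>
    intro X w hX hc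
    exfalso
    rw [pow_zero] at hc
    have : X.card ≤ 1 := by
      rw [Finset.card_le_one]
      intro x hx y hy
      have h1 := hX x hx
      have h2 := hX y hy
      rw [pow_zero, Nat.div_one] at h1 h2
      rw [h1, h2]
    omega
  | succ m ih =>
    intro X w hX hc
    obtain ⟨Xa, hXa⟩ : ∃ Xa : ℕ → Finset ℕ, ∀ a, Xa a = X.filter (fun x => x / b ^ m % b = a) :=
      ⟨_, fun _ => rfl⟩
    obtain ⟨E, hE⟩ : ∃ E : Finset ℕ, E = (range b).filter (fun a => X.card ≤ 2 * b * (Xa a).card) :=
      ⟨_, rfl⟩
    have hpos : 1 ≤ (2 * T) ^ m := Nat.one_le_pow _ _ (by omega)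
    have hpos1 : 1 ≤ (2 * T) ^ (m + 1) := Nat.one_le_pow _ _ (by omega)
    by_cases hE1 : T ≤ E.card
    · obtain ⟨D, hD, hDc⟩ := Finset.exists_subset_card_eq hE1
      refine ⟨m, by omega, w, D, ?_, hDc, ?_⟩
      · intro a ha
        have := hD ha
        rw [hE, mem_filter] at this
        exact this.1
      · intro a ha
        have h1 := hD ha
        rw [hE, mem_filter] at h1
        have h2 : X.filter (fun x => x / b ^ (m + 1) = w ∧ x / b ^ m % b = a) = Xa a := by
          rw [hXa]
          ext x
          rw [mem_filter, mem_filter]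
          constructor
          · exact fun h => ⟨h.1, h.2.2⟩
          · exact fun h => ⟨h.1, hX x h.1, h.2⟩
        rw [h2]
        calc X.card ≤ 2 * b * (Xa a).card := h1.2
          _ = 1 * (2 * b) * (Xa a).card := by ring
          _ ≤ (2 * T) ^ (m + 1) * (2 * b) * (Xa a).card :=
            Nat.mul_le_mul_right _ (Nat.mul_le_mul_right _ hpos1)
    · have hsum : X.card = ∑ a ∈ range b, (Xa a).card := by
        have h1 := Finset.card_eq_sum_card_fiberwise (f := fun x => x / b ^ m % b) (s := X)
          (t := range b) (by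
            intro x _
            rw [Finset.mem_coe, mem_range]
            exact Nat.mod_lt _ (by omega))
        rw [h1]
        refine Finset.sum_congr rfl fun a _ => ?_
        rw [hXa]
      have hsplit : ∑ a ∈ range b, (Xa a).card = ∑ a ∈ E, (Xa a).card +
          ∑ a ∈ (range b).filter (fun a => ¬ X.card ≤ 2 * b * (Xa a).card), (Xa a).card := by
        rw [hE, Finset.sum_filter_add_sum_filter_not]
      have hsmall : 2 * b * ∑ a ∈ (range b).filter (fun a => ¬ X.card ≤ 2 * b * (Xa a).card),
          (Xa a).card ≤ b * X.card := by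
        rw [Finset.mul_sum]
        refine (Finset.sum_le_card_nsmul _ _ X.card ?_).trans ?_
        · intro a ha
          exact (not_le.1 (mem_filter.1 ha).2).le
        · rw [smul_eq_mul]
          refine Nat.mul_le_mul_right _ ?_
          exact (card_filter_le _ _).trans (by rw [card_range])
      have hbig : X.card ≤ 2 * ∑ a ∈ E, (Xa a).card := by
        obtain ⟨u, hu⟩ : ∃ u, u = ∑ a ∈ E, (Xa a).card := ⟨_, rfl⟩
        obtain ⟨v, hv⟩ : ∃ v, v = ∑ a ∈ (range b).filter
          (fun a => ¬ X.card ≤ 2 * b * (Xa a).card), (Xa a).card := ⟨_, rfl⟩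
        rw [← hu]
        rw [← hv] at hsmall
        rw [← hu, ← hv] at hsplit
        have h1 : b * (2 * v) ≤ b * X.card := by
          calc b * (2 * v) = 2 * b * v := by ring
            _ ≤ _ := hsmall
        have h2 := Nat.le_of_mul_le_mul_left h1 (by omega)
        omega
      obtain ⟨a, haE, ha⟩ : ∃ a ∈ E, X.card ≤ 2 * T * (Xa a).card := by
        by_contra hcon
        push Not at hcon
        have h1 : 2 * T * ∑ a ∈ E, (Xa a).card ≤ E.card * X.card := by
          rw [Finset.mul_sum]
          refine (Finset.sum_le_card_nsmul _ _ X.card fun a ha => (hcon a ha).le).trans ?_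
          rw [smul_eq_mul]
        have h2 : T * X.card ≤ E.card * X.card := by
          calc T * X.card ≤ T * (2 * ∑ a ∈ E, (Xa a).card) := Nat.mul_le_mul_left _ hbig
            _ = 2 * T * ∑ a ∈ E, (Xa a).card := by ring
            _ ≤ _ := h1
        have h3 := Nat.le_of_mul_le_mul_right h2 (by omega)
        exact hE1 h3
      have hXac : (2 * T) ^ m < (Xa a).card := by
        by_contra hcon
        have h1 : 2 * T * (Xa a).card ≤ 2 * T * (2 * T) ^ m := Nat.mul_le_mul_left _ (not_lt.1 hcon)
        rw [pow_succ'] at hc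
        omega
      obtain ⟨j, hj, w', D, hD, hDc, hDa⟩ := ih (Xa a) (w * b + a) (by
        intro x hx
        rw [hXa, mem_filter] at hx
        have h1 := hX x hx.1
        rw [pow_succ, ← Nat.div_div_eq_div_mul] at h1
        have h2 := Nat.div_add_mod (x / b ^ m) b
        rw [h1, hx.2, Nat.mul_comm] at h2
        exact h2.symm) hXac
      refine ⟨j, by omega, w', D, hD, hDc, ?_⟩
      intro a' ha'
      have h1 := hDa a' ha'
      have h2 : ((Xa a).filter (fun x => x / b ^ (j + 1) = w' ∧ x / b ^ j % b = a')).card ≤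
          (X.filter (fun x => x / b ^ (j + 1) = w' ∧ x / b ^ j % b = a')).card := by
        refine card_le_card (filter_subset_filter _ ?_)
        rw [hXa]
        exact filter_subset _ _
      calc X.card ≤ 2 * T * (Xa a).card := ha
        _ ≤ 2 * T * ((2 * T) ^ m * (2 * b) *
          (X.filter (fun x => x / b ^ (j + 1) = w' ∧ x / b ^ j % b = a')).card) :=
            Nat.mul_le_mul_left _ (h1.trans (Nat.mul_le_mul_left _ h2))
        _ = _ := by rw [pow_succ']; ring

/-- a choice of one element from each part all of whose subtuples are good -/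
theorem ppick {t T d β : ℕ} (ht : 1 ≤ t) (htT : t ≤ T)
    (Bad : (Fin t → Fin T) → Finset (Fin t → Fin d)) (hB : ∀ g, (Bad g).card ≤ β)
    (h : T ^ t * β < d ^ t) :
    ∃ f : Fin T → Fin d, ∀ g : Fin t → Fin T, Function.Injective g → f ∘ g ∉ Bad g := by
  classical
  by_contra hcon
  push Not at hcon
  have hd0 : 0 < d := by
    rcases Nat.eq_zero_or_pos d with h0 | h0
    · rw [h0, zero_pow (by omega)] at h
      omega
    · exact h0
  have hcov : (univ : Finset (Fin T → Fin d)) ⊆
      ((univ.filter (fun g : Fin t → Fin T => Function.Injective g)).biUnion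
        (fun g => univ.filter (fun f : Fin T → Fin d => f ∘ g ∈ Bad g))) := by
    intro f _
    obtain ⟨g, hg, hgB⟩ := hcon f
    rw [mem_biUnion]
    exact ⟨g, mem_filter.2 ⟨mem_univ _, hg⟩, mem_filter.2 ⟨mem_univ _, hgB⟩⟩
  have e1 := card_le_card hcov
  rw [Finset.card_univ, Fintype.card_fun, Fintype.card_fin, Fintype.card_fin] at e1
  have e3 : ((univ.filter (fun g : Fin t → Fin T => Function.Injective g)).biUnion
        (fun g => univ.filter (fun f : Fin T → Fin d => f ∘ g ∈ Bad g))).card ≤
      T ^ t * (β * d ^ (T - t)) := by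
    refine (Finset.card_biUnion_le_card_mul _ _ (β * d ^ (T - t)) ?_).trans ?_
    · intro g hg
      have h1 := sub_card g (mem_filter.1 hg).2 (Bad g)
      rw [Fintype.card_fin] at h1
      refine le_trans (le_of_eq ?_) (h1.trans (Nat.mul_le_mul_right _ (hB g)))
      congr
    · refine Nat.mul_le_mul_right _ ?_
      refine (Finset.card_le_univ _).trans ?_
      rw [Fintype.card_fun, Fintype.card_fin, Fintype.card_fin]
  have e6 : d ^ T = d ^ t * d ^ (T - t) := by
    rw [← pow_add]
    congr 1
    omega
  have e8 : T ^ t * (β * d ^ (T - t)) < d ^ T := by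
    rw [e6, ← Nat.mul_assoc]
    exact Nat.mul_lt_mul_of_pos_right h (pow_pos hd0 _)
  omega

end H152HR
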