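import Mathlib
import Pool.Agent.H152.HR.Node
import Pool.Agent.H152.HR.Extract

set_option autoImplicit false

open Finset

namespace H152HR

open H152TT

variable {n : ℕ}

/-- the pairs whose first element sees all the children `D` of the block of the second one -/
def RD (b j : ℕ) (D : Finset ℕ) (R : Fin n → Fin n → Prop) (x y : Fin n) : Prop :=
  R x y ∧ ∀ a ∈ D, ∃ y' : Fin n, R x y' ∧ y'.val / b ^ (j + 1) = y.val / b ^ (j + 1) ∧
    y'.val / b ^ j % b = a

open Classical in
/-- the configurations that are degenerate or poor for some level and some set of children -/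
noncomputable def ZZ (L len s t b m : ℕ) (R : Fin n → Fin n → Prop) :
    Finset ((Fin t → Fin n) × (Fin t → Fin n)) :=
  (range m).biUnion (fun j => (range b).powerset.biUnion (fun D => bad L len s t (RD b j D R)))

theorem hom_mono {p q : ℕ} {R R' : Fin n → Fin n → Prop} (h : ∀ x y, R' x y → R x y) :
    (hom R' p q).card ≤ (hom R p q).card := by
  refine card_le_card ?_
  rintro z hz
  rw [mem_hom] at hz ⊢
  exact fun i j => h _ _ (hz i j)

theorem ZZ_card {L M len : ℕ} (hn : n ≤ 2 ^ L) (hlen : 1 ≤ len) (hL : L ≤ M * len) (s t b m : ℕ)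
    (R : Fin n → Fin n → Prop) :
    (ZZ L len s (t+1) b m R).card ≤ (m * 2 ^ b *
      ((t+1) * (t+1) + (t+1) * ((2 ^ (t+1) + 1) * (2 ^ M * 2 ^ (s * len))))) *
        (hom R t (t+1)).card := by
  classical
  obtain ⟨K, hK⟩ : ∃ K, K = ((t+1) * (t+1) + (t+1) * ((2 ^ (t+1) + 1) *
    (2 ^ M * 2 ^ (s * len)))) := ⟨_, rfl⟩
  rw [← hK]
  unfold ZZ
  refine (Finset.card_biUnion_le_card_mul _ _ (2 ^ b * (K * (hom R t (t+1)).card)) ?_).trans ?_
  · intro j _
    refine (Finset.card_biUnion_le_card_mul _ _ (K * (hom R t (t+1)).card) ?_).trans ?_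
    · intro D _
      refine (bad_card hn hlen hL s t (RD b j D R)).trans ?_
      rw [← hK]
      exact Nat.mul_le_mul_left _ (hom_mono (fun x y h => h.1))
    · rw [card_powerset, card_range]
  · rw [card_range]
    refine le_of_eq ?_
    ring

/-- a homogeneous-to-be set of common neighbours in different children of a block -/
theorem extract2 {L len s t T b m : ℕ} (hb : 2 ≤ b) (htT : t + 1 ≤ T) (hnm : n ≤ b ^ m)
    (R : Fin n → Fin n → Prop) (x : Fin (t+1) → Fin n) (h1 : (2 * T) ^ m < (cn R x).card)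
    (h2 : (T * ((2 * T) ^ m * (2 * b))) ^ (t+1) *
      ((ZZ L len s (t+1) b m R).filter (fun z => z.1 = x)).card < (cn R x).card ^ (t+1)) :
    Function.Injective x ∧ ∃ (j : ℕ) (D : Finset ℕ) (w : ℕ) (Y : Finset (Fin n)), Y.card = T ∧
      (∀ y ∈ Y, y.val / b ^ (j + 1) = w) ∧ (∀ y ∈ Y, y.val / b ^ j % b ∈ D) ∧
      (∀ y ∈ Y, ∀ y' ∈ Y, y < y' → y.val / b ^ j < y'.val / b ^ j) ∧
      (∀ y ∈ Y, ∀ i, RD b j D R (x i) y) ∧
      ∀ J ⊆ Y, J.card = t + 1 → ¬ Poor L len s (RD b j D R) J (univ.image x) := by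
  classical
  obtain ⟨X, hX⟩ : ∃ X : Finset ℕ, X = (cn R x).image (fun y => y.val) := ⟨_, rfl⟩
  have hinj : Function.Injective (fun y : Fin n => y.val) := fun a b h => Fin.ext h
  have hXc : X.card = (cn R x).card := by rw [hX, Finset.card_image_of_injective _ hinj]
  obtain ⟨j, hjm, w, D, hD, hDc, hDa⟩ := node b T hb (by omega) m X 0 (by
    intro z hz
    rw [hX, mem_image] at hz
    obtain ⟨y, _, rfl⟩ := hz
    exact Nat.div_eq_of_lt (y.isLt.trans_le hnm)) (by rw [hXc]; exact h1)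
  obtain ⟨C, hC⟩ : ∃ C : ℕ → Finset (Fin n), ∀ a, C a =
    (cn R x).filter (fun y => y.val / b ^ (j + 1) = w ∧ y.val / b ^ j % b = a) :=
    ⟨_, fun _ => rfl⟩
  have hCX : ∀ a, (X.filter (fun x => x / b ^ (j + 1) = w ∧ x / b ^ j % b = a)).card =
      (C a).card := by
    intro a
    rw [hC, ← Finset.card_image_of_injective _ hinj]
    congr 1
    ext z
    rw [mem_filter, hX, mem_image, mem_image]
    constructor
    · rintro ⟨⟨y, hy, rfl⟩, h⟩
      exact ⟨y, mem_filter.2 ⟨hy, h⟩, rfl⟩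
    · rintro ⟨y, hy, rfl⟩
      rw [mem_filter] at hy
      exact ⟨⟨y, hy.1, rfl⟩, hy.2⟩
  obtain ⟨a0, ha0, hmin⟩ := Finset.exists_min_image D (fun a => (C a).card) (by
    rw [← card_pos]; omega)
  obtain ⟨d, hd⟩ : ∃ d, d = (C a0).card := ⟨_, rfl⟩
  obtain ⟨W, hW⟩ : ∃ W, W = (2 * T) ^ m * (2 * b) := ⟨_, rfl⟩
  have hWd : X.card ≤ W * d := by
    rw [hW, hd, ← hCX]
    exact hDa a0 ha0
  have hWpos : 0 < W := by
    rw [hW]
    exact Nat.mul_pos (pow_pos (by omega) _) (by omega)
  obtain ⟨δ, hδD, hδm, hδs⟩ : ∃ δ : Fin T → ℕ, (∀ a, δ a ∈ D) ∧ (∀ a a', a < a' → δ a < δ a') ∧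
      ∀ a ∈ D, ∃ i, δ i = a := by
    refine ⟨D.orderEmbOfFin hDc, fun a => D.orderEmbOfFin_mem hDc a,
      fun a a' h => (D.orderEmbOfFin hDc).strictMono h, fun a ha => ?_⟩
    have : a ∈ Set.range (D.orderEmbOfFin hDc) := by
      rw [Finset.range_orderEmbOfFin]
      exact ha
    exact this
  have hcard : ∀ a : Fin T, d ≤ (C (δ a)).card := by
    intro a
    rw [hd]
    exact hmin _ (hδD a)
  obtain ⟨e, he⟩ : ∃ e : Fin T → Fin d → Fin n, ∀ a, e a = (C (δ a)).orderEmbOfCardLe (hcard a) :=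
    ⟨_, fun _ => rfl⟩
  have heC : ∀ a i, e a i ∈ C (δ a) := by
    intro a i
    rw [he]
    exact Finset.orderEmbOfCardLe_mem _ _ _
  have heinj : ∀ a i i', e a i = e a i' → i = i' := by
    intro a i i' h
    rw [he] at h
    exact ((C (δ a)).orderEmbOfCardLe (hcard a)).injective h
  obtain ⟨Zx, hZx⟩ : ∃ Zx, Zx = (ZZ L len s (t+1) b m R).filter (fun z => z.1 = x) := ⟨_, rfl⟩
  rw [← hZx, ← hW] at h2
  obtain ⟨Bad, hBad⟩ : ∃ Bad : (Fin (t+1) → Fin T) → Finset (Fin (t+1) → Fin d), ∀ g, Bad g =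
    univ.filter (fun y => (x, fun i => e (g i) (y i)) ∈ Zx) := ⟨_, fun _ => rfl⟩
  have hBc : ∀ g, (Bad g).card ≤ Zx.card := by
    intro g
    refine Finset.card_le_card_of_injOn (fun y => (x, fun i => e (g i) (y i))) ?_ ?_
    · intro y hy
      rw [hBad, Finset.mem_coe, mem_filter] at hy
      exact Finset.mem_coe.2 hy.2
    · intro y _ y' _ h
      have h3 : (fun i => e (g i) (y i)) = fun i => e (g i) (y' i) := (Prod.ext_iff.1 h).2
      funext i
      exact heinj _ _ _ (congrFun h3 i)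
  have h3 : T ^ (t+1) * Zx.card < d ^ (t+1) := by
    have h4 : (T * W) ^ (t+1) * Zx.card < W ^ (t+1) * d ^ (t+1) := by
      refine lt_of_lt_of_le h2 ?_
      rw [← mul_pow, ← hXc]
      exact Nat.pow_le_pow_left hWd _
    rw [mul_pow] at h4
    have h5 : W ^ (t+1) * (T ^ (t+1) * Zx.card) < W ^ (t+1) * d ^ (t+1) := by
      calc W ^ (t+1) * (T ^ (t+1) * Zx.card) = T ^ (t+1) * W ^ (t+1) * Zx.card := by ring
        _ < _ := h4
    exact Nat.lt_of_mul_lt_mul_left h5
  obtain ⟨f, hf⟩ := ppick (by omega) htT Bad hBc h3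
  obtain ⟨yy, hyy⟩ : ∃ yy : Fin T → Fin n, ∀ a, yy a = e a (f a) := ⟨_, fun _ => rfl⟩
  have hyC : ∀ a, yy a ∈ C (δ a) := fun a => by rw [hyy]; exact heC _ _
  have hyR : ∀ a i, R (x i) (yy a) := by
    intro a i
    have h4 := hyC a
    rw [hC, mem_filter] at h4
    exact mem_cn.1 h4.1 i
  have hyw : ∀ a, (yy a).val / b ^ (j + 1) = w := by
    intro a
    have h4 := hyC a
    rw [hC, mem_filter] at h4
    exact h4.2.1
  have hyd : ∀ a, (yy a).val / b ^ j % b = δ a := by
    intro a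
    have h4 := hyC a
    rw [hC, mem_filter] at h4
    exact h4.2.2
  have hcell : ∀ a a', a < a' → (yy a).val / b ^ j < (yy a').val / b ^ j := by
    intro a a' haa
    have e1 := Nat.div_add_mod ((yy a).val / b ^ j) b
    have e2 := Nat.div_add_mod ((yy a').val / b ^ j) b
    rw [Nat.div_div_eq_div_mul, ← pow_succ, hyw, hyd] at e1 e2
    have e3 := hδm a a' haa
    omega
  have hylt : ∀ a a', a < a' → yy a < yy a' := by
    intro a a' haa
    rw [Fin.lt_def]
    by_contra hc
    exact absurd (hcell a a' haa) (not_lt.2 (Nat.div_le_div_right (not_lt.1 hc)))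
  have hyinj : Function.Injective yy := by
    intro a a' h
    rcases lt_trichotomy a a' with h4 | h4 | h4
    · exact absurd h (hylt _ _ h4).ne
    · exact h4
    · exact absurd h.symm (hylt _ _ h4).ne
  have hyRD : ∀ a i, RD b j D R (x i) (yy a) := by
    intro a i
    refine ⟨hyR a i, fun a' ha' => ?_⟩
    obtain ⟨i', rfl⟩ := hδs a' ha'
    exact ⟨yy i', hyR i' i, by rw [hyw, hyw], hyd i'⟩
  have key : ∀ g : Fin (t+1) → Fin T, Function.Injective g → Function.Injective x ∧
      ¬ Poor L len s (RD b j D R) (univ.image (fun i => yy (g i))) (univ.image x) := by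
    intro g hg
    have h4 := hf g hg
    rw [hBad, mem_filter] at h4
    have h5 : (x, fun i => yy (g i)) ∉ Zx := by
      intro h
      refine h4 ⟨mem_univ _, ?_⟩
      have h6 : (fun i => e (g i) ((f ∘ g) i)) = fun i => yy (g i) := by
        funext i
        rw [hyy]
        rfl
      rw [h6]
      exact h
    have h6 : (x, fun i => yy (g i)) ∉ bad L len s (t+1) (RD b j D R) := by
      intro h
      refine h5 ?_
      rw [hZx, mem_filter]
      refine ⟨?_, rfl⟩
      unfold ZZ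
      rw [mem_biUnion]
      refine ⟨j, mem_range.2 hjm, ?_⟩
      rw [mem_biUnion]
      exact ⟨D, mem_powerset.2 hD, h⟩
    unfold bad at h6
    rw [mem_filter] at h6
    have h7 : (x, fun i => yy (g i)) ∈ hom (RD b j D R) (t+1) (t+1) := by
      rw [mem_hom]
      intro i i'
      exact hyRD (g i') i
    have h8 : ¬ (¬ Function.Injective x ∨
      Poor L len s (RD b j D R) (univ.image (fun i => yy (g i))) (univ.image x)) :=
      fun h => h6 ⟨h7, h⟩
    push Not at h8
    exact h8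
  refine ⟨(key (Fin.castLE htT) (Fin.castLE_injective htT)).1, j, D, w,
    univ.image yy, ?_, ?_, ?_, ?_, ?_, ?_⟩
  · rw [Finset.card_image_of_injective _ hyinj, Finset.card_univ, Fintype.card_fin]
  · intro y hy
    obtain ⟨a, _, rfl⟩ := mem_image.1 hy
    exact hyw a
  · intro y hy
    obtain ⟨a, _, rfl⟩ := mem_image.1 hy
    rw [hyd]
    exact hδD a
  · intro y hy y' hy' hlt
    obtain ⟨a, _, rfl⟩ := mem_image.1 hy
    obtain ⟨a', _, rfl⟩ := mem_image.1 hy'
    rcases lt_trichotomy a a' with h4 | h4 | h4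
    · exact hcell _ _ h4
    · rw [h4] at hlt
      exact absurd hlt (lt_irrefl _)
    · exact absurd (hlt.trans (hylt _ _ h4)) (lt_irrefl _)
  · intro y hy i
    obtain ⟨a, _, rfl⟩ := mem_image.1 hy
    exact hyRD a i
  · intro J hJ hJc
    obtain ⟨I, hI⟩ : ∃ I : Finset (Fin T), I = univ.filter (fun i => yy i ∈ J) := ⟨_, rfl⟩
    have hIJ : I.image yy = J := by
      ext y
      rw [mem_image]
      constructor
      · rintro ⟨i, hi, rfl⟩
        rw [hI, mem_filter] at hi
        exact hi.2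
      · intro hy
        obtain ⟨i, _, rfl⟩ := mem_image.1 (hJ hy)
        exact ⟨i, by rw [hI, mem_filter]; exact ⟨mem_univ _, hy⟩, rfl⟩
    have hIc : I.card = t + 1 := by
      rw [← hJc, ← hIJ, Finset.card_image_of_injective _ hyinj]
    have h7 := (key (I.orderEmbOfFin hIc) (I.orderEmbOfFin hIc).injective).2
    have h8 : (univ : Finset (Fin (t+1))).image (fun i => yy (I.orderEmbOfFin hIc i)) = J := by
      rw [← hIJ]
      ext y
      rw [mem_image, mem_image]
      constructor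
      · rintro ⟨i, _, rfl⟩
        exact ⟨I.orderEmbOfFin hIc i, I.orderEmbOfFin_mem hIc i, rfl⟩
      · rintro ⟨i, hi, rfl⟩
        have h9 : i ∈ Set.range (I.orderEmbOfFin hIc) := by
          rw [Finset.range_orderEmbOfFin]
          exact hi
        obtain ⟨i', rfl⟩ := h9
        exact ⟨i', mem_univ _, rfl⟩
    rw [h8] at h7
    exact h7

end H152HR
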