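import Mathlib
import Pool.Agent.H152.TT.Defs
import Pool.Agent.H152.HR.Upper
import Pool.Agent.H152.HR.RD
import Pool.Agent.H152.HR.Emb2

set_option autoImplicit false

open Finset

namespace H152HR

open H152TT

/-- patterns whose rows have few neighbours with at least two neighbours, apart from few hubs -/
theorem hub_upper2 {k : ℕ} (t : ℕ) (P : SimpleGraph (Fin k)) (m : ℕ) (A : Finset (Fin k))
    (hm : ∀ u v, P.Adj u v → (u.val < m ↔ m ≤ v.val)) (hA : A.card ≤ t + 1)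
    (hdeg : ∀ w, w.val < m → w ∉ A →
      {c : Fin k | P.Adj w c ∧ 2 ≤ (P.neighborSet c).ncard}.ncard ≤ t + 1)
    (ε : ℝ) (hε : 0 < ε) : ∃ N : ℕ, ∀ n : ℕ, N ≤ n → ∀ G : SimpleGraph (Fin n),
      ¬ OContains P G → (G.edgeSet.ncard : ℝ) ≤ (n : ℝ) ^ (2 - 1 / ((t : ℝ) + 1) + ε) := by
  classical
  obtain ⟨M, hM1, hM⟩ := num k (ε / 6) (by positivity)
  obtain ⟨T0, hT0⟩ := homog t M (k + (t + 1))
  obtain ⟨T, hTT, hT1⟩ : ∃ T, T0 ≤ T ∧ t + 1 ≤ T := ⟨max T0 (t+1), le_max_left _ _, le_max_right _ _⟩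
  obtain ⟨τ, hτ⟩ : ∃ τ : ℕ, (2 * T) ^ (t+1) ≤ 2 ^ τ := ⟨_, Nat.lt_two_pow_self.le⟩
  obtain ⟨β, hβ1, hβ⟩ := num τ (ε / 6) (by positivity)
  obtain ⟨b, hb⟩ : ∃ b, b = 2 ^ β := ⟨_, rfl⟩
  have hb2 : 2 ≤ b := by
    rw [hb]
    calc 2 = 2 ^ 1 := by norm_num
      _ ≤ 2 ^ β := Nat.pow_le_pow_right (by norm_num) hβ1
  obtain ⟨C1, hC1⟩ : ∃ C1, C1 = (t+1) * (t+1) + (t+1) * ((2 ^ (t+1) + 1) * 2 ^ M) := ⟨_, rfl⟩
  have hC1pos : 1 ≤ C1 := by
    rw [hC1]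
    have : 1 ≤ (t+1) * (t+1) := Nat.mul_pos (by omega) (by omega)
    omega
  obtain ⟨CA, hCA⟩ : ∃ CA, CA = 32 * T ^ (t+1) * (2 * b) ^ (t+1) * 2 ^ τ := ⟨_, rfl⟩
  obtain ⟨CB, hCB⟩ : ∃ CB, CB = 2 ^ b * (C1 * 2 ^ k) := ⟨_, rfl⟩
  obtain ⟨N1, hN1⟩ := hβ CA
  obtain ⟨N2, hN2⟩ := hM (2 * CB)
  obtain ⟨N3, hN3⟩ := clog_small (ε / 6) (by positivity)
  obtain ⟨N4, hN4⟩ := clog_small (ε / 2) (by positivity)
  refine ⟨max (max N1 N2) (max (max N3 N4) 2), fun n hn G hno => ?_⟩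
  have hn1 : N1 ≤ n := (le_max_left _ _).trans ((le_max_left _ _).trans hn)
  have hn2 : N2 ≤ n := (le_max_right _ _).trans ((le_max_left _ _).trans hn)
  have hn3 : N3 ≤ n := (le_max_left _ _).trans ((le_max_left _ _).trans
    ((le_max_right _ _).trans hn))
  have hn4 : N4 ≤ n := (le_max_right _ _).trans ((le_max_left _ _).trans
    ((le_max_right _ _).trans hn))
  have hn5 : 2 ≤ n := (le_max_right _ _).trans ((le_max_right _ _).trans hn)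
  have hnR : (0 : ℝ) < n := by exact_mod_cast (by omega : 0 < n)
  have hn1R : (1 : ℝ) ≤ n := by exact_mod_cast (by omega : 1 ≤ n)
  by_contra hcon
  push Not at hcon
  obtain ⟨L, hL⟩ : ∃ L, L = Nat.clog 2 n := ⟨_, rfl⟩
  have hnL : n ≤ 2 ^ L := by rw [hL]; exact Nat.le_pow_clog (by norm_num) n
  have hnumA := hN1 n hn1
  have hnumB := hN2 n hn2
  have hclog6 := hN3 n hn3
  have hclog := hN4 n hn4
  rw [← hL] at hnumA hnumB hclog6 hclog
  obtain ⟨p, hp⟩ : ∃ p : ℝ, p = (n : ℝ) ^ (ε / 6) := ⟨_, rfl⟩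
  rw [← hp] at hnumA hnumB hclog6
  have hp1 : 1 ≤ p := by rw [hp]; exact Real.one_le_rpow hn1R (by positivity)
  obtain ⟨q, hq⟩ : ∃ q : ℝ, q = (n : ℝ) ^ (ε / 2) := ⟨_, rfl⟩
  rw [← hq] at hclog
  have hq0 : 0 < q := by rw [hq]; positivity
  have hqp : q = p * p * p := by
    rw [hq, hp, ← Real.rpow_add hnR, ← Real.rpow_add hnR]
    congr 1
    ring
  rw [← edg_fwd] at hcon
  -- a popular level
  obtain ⟨j, hj⟩ : ∃ j, (n : ℝ) ^ (2 - 1 / ((t : ℝ) + 1) + ε / 2) < (edg (lvl G j) : ℝ) := by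
    by_contra hc
    push Not at hc
    have h1 : (edg (fwd G) : ℝ) ≤ (L : ℝ) * (n : ℝ) ^ (2 - 1 / ((t : ℝ) + 1) + ε / 2) := by
      have h2 : (edg (fwd G) : ℝ) ≤ ∑ j ∈ range L, (edg (lvl G j) : ℝ) := by
        exact_mod_cast edg_lvl G L hnL
      refine h2.trans ((Finset.sum_le_sum fun j _ => hc j).trans (le_of_eq ?_))
      rw [Finset.sum_const, card_range, nsmul_eq_mul]
    have h3 : (L : ℝ) * (n : ℝ) ^ (2 - 1 / ((t : ℝ) + 1) + ε / 2) ≤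
        (n : ℝ) ^ (2 - 1 / ((t : ℝ) + 1) + ε) := by
      calc (L : ℝ) * (n : ℝ) ^ (2 - 1 / ((t : ℝ) + 1) + ε / 2)
          ≤ q * (n : ℝ) ^ (2 - 1 / ((t : ℝ) + 1) + ε / 2) :=
            mul_le_mul_of_nonneg_right hclog (by positivity)
        _ = (n : ℝ) ^ (2 - 1 / ((t : ℝ) + 1) + ε) := by
            rw [hq, ← Real.rpow_add hnR]
            congr 1
            ring
    linarith
  obtain ⟨R, hRdef⟩ : ∃ R, R = lvl G j := ⟨_, rfl⟩
  rw [← hRdef] at hj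
  -- growth
  have hgr : q * ((hom R t (t+1)).card : ℝ) ≤ ((hom R (t+1) (t+1)).card : ℝ) := by
    rw [hq, hom_swap R t (t+1), hom_swap R (t+1) (t+1)]
    exact ratio_grow (by omega) (fun u v => R v u) t (ε / 2) (by positivity)
      (by rw [← edg_swap]; exact hj)
  have he : (n : ℝ) ^ (2 * t + 1) * q ≤ (edg R : ℝ) ^ (t+1) := by
    have h3 : ((n : ℝ) ^ (2 - 1 / ((t : ℝ) + 1) + ε / 2)) ^ (t+1) ≤ (edg R : ℝ) ^ (t+1) :=
      pow_le_pow_left₀ (Real.rpow_nonneg hnR.le _) hj.le _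
    refine le_trans ?_ h3
    rw [hq, ← Real.rpow_natCast ((n : ℝ) ^ (2 - 1 / ((t : ℝ) + 1) + ε / 2)) (t+1),
      ← Real.rpow_mul hnR.le, ← Real.rpow_natCast (n : ℝ) (2 * t + 1), ← Real.rpow_add hnR]
    refine Real.rpow_le_rpow_of_exponent_le hn1R ?_
    push_cast
    have h4 : (2 - 1 / ((t : ℝ) + 1) + ε / 2) * ((t : ℝ) + 1) = 2 * t + 1 + ε / 2 * (t + 1) := by
      field_simp
      ring
    rw [h4]
    have h5 : ε / 2 ≤ ε / 2 * ((t : ℝ) + 1) :=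
      le_mul_of_one_le_right (by positivity) (by linarith [Nat.cast_nonneg (α := ℝ) t])
    linarith
  -- blocks of levels
  obtain ⟨len, hlen⟩ : ∃ len, len = L / M + 1 := ⟨_, rfl⟩
  have hlen1 : 1 ≤ len := by rw [hlen]; exact Nat.le_add_left 1 _
  have hLM : L ≤ M * len := by
    have h2 := Nat.div_add_mod L M
    have h3 := Nat.mod_lt L (show 0 < M by omega)
    rw [hlen, Nat.mul_add]
    omega
  -- levels of the column tree
  obtain ⟨m0, hm0⟩ : ∃ m0, m0 = L / β + 1 := ⟨_, rfl⟩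
  have hnm : n ≤ b ^ m0 := by
    refine hnL.trans ?_
    rw [hb, ← pow_mul]
    refine Nat.pow_le_pow_right (by norm_num) ?_
    have h2 := Nat.div_add_mod L β
    have h3 := Nat.mod_lt L (show 0 < β by omega)
    rw [hm0, Nat.mul_add]
    omega
  have hZ := ZZ_card hnL hlen1 hLM k t b m0 R
  obtain ⟨K1, hK1⟩ : ∃ K1, K1 = (t+1) * (t+1) + (t+1) * ((2 ^ (t+1) + 1) *
    (2 ^ M * 2 ^ (k * len))) := ⟨_, rfl⟩
  rw [← hK1] at hZ
  have hK1le : K1 ≤ C1 * 2 ^ k * 2 ^ (k * (L / M)) := by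
    have h1 : 2 ^ (k * len) = 2 ^ k * 2 ^ (k * (L / M)) := by
      rw [← pow_add, hlen]
      congr 1
      ring
    have h2 : 1 ≤ 2 ^ k * 2 ^ (k * (L / M)) := Nat.mul_pos (by positivity) (by positivity)
    rw [hK1, hC1, h1]
    calc (t+1) * (t+1) + (t+1) * ((2 ^ (t+1) + 1) * (2 ^ M * (2 ^ k * 2 ^ (k * (L / M)))))
        = (t+1) * (t+1) * 1 + (t+1) * ((2 ^ (t+1) + 1) * 2 ^ M) *
          (2 ^ k * 2 ^ (k * (L / M))) := by ring
      _ ≤ (t+1) * (t+1) * (2 ^ k * 2 ^ (k * (L / M))) + (t+1) * ((2 ^ (t+1) + 1) * 2 ^ M) *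
          (2 ^ k * 2 ^ (k * (L / M))) := Nat.add_le_add_right (Nat.mul_le_mul_left _ h2) _
      _ = _ := by ring
  have hK1pos : 1 ≤ K1 := by
    rw [hK1]
    have : 1 ≤ (t+1) * (t+1) := Nat.mul_pos (by omega) (by omega)
    omega
  obtain ⟨K2, hK2⟩ : ∃ K2, K2 = m0 * 2 ^ b * K1 := ⟨_, rfl⟩
  rw [← hK2] at hZ
  have hK2pos : 1 ≤ K2 := by
    rw [hK2]
    exact Nat.mul_pos (Nat.mul_pos (by rw [hm0]; exact Nat.succ_pos _) (by positivity)) hK1pos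
  obtain ⟨W, hW⟩ : ∃ W, W = (2 * T) ^ m0 * (2 * b) := ⟨_, rfl⟩
  have hTpos : 0 < T := by omega
  have hWpos : 1 ≤ W := by
    rw [hW]
    exact Nat.mul_pos (pow_pos (by omega) _) (by omega)
  obtain ⟨K, hK⟩ : ∃ K, K = 2 * (T * W) ^ (t+1) := ⟨_, rfl⟩
  have hKW : 2 * W ≤ K := by
    rw [hK]
    refine Nat.mul_le_mul_left _ ?_
    calc W = 1 * W := by ring
      _ ≤ T * W := Nat.mul_le_mul_right _ (by omega)
      _ = (T * W) ^ 1 := by ring
      _ ≤ (T * W) ^ (t+1) := Nat.pow_le_pow_right (Nat.mul_pos hTpos hWpos) (by omega)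
  -- the main numerical estimate
  have hmain : 16 * (K : ℝ) * K2 ≤ q := by
    have h1 : 16 * K ≤ CA * 2 ^ (τ * (L / β)) := by
      have h2 : (2 * T) ^ (m0 * (t+1)) ≤ 2 ^ τ * 2 ^ (τ * (L / β)) := by
        calc (2 * T) ^ (m0 * (t+1)) = ((2 * T) ^ (t+1)) ^ m0 := by rw [← pow_mul]; congr 1; ring
          _ ≤ (2 ^ τ) ^ m0 := Nat.pow_le_pow_left hτ _
          _ = 2 ^ τ * 2 ^ (τ * (L / β)) := by
            rw [← pow_mul, ← pow_add, hm0]
            congr 1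
            ring
      rw [hK, hW, hCA, mul_pow, mul_pow ((2 * T) ^ m0), ← pow_mul]
      calc 16 * (2 * (T ^ (t+1) * ((2 * T) ^ (m0 * (t+1)) * (2 * b) ^ (t+1))))
          = 32 * T ^ (t+1) * (2 * b) ^ (t+1) * (2 * T) ^ (m0 * (t+1)) := by ring
        _ ≤ 32 * T ^ (t+1) * (2 * b) ^ (t+1) * (2 ^ τ * 2 ^ (τ * (L / β))) :=
          Nat.mul_le_mul_left _ h2
        _ = _ := by ring
    have h1R : 16 * (K : ℝ) ≤ p := by
      refine le_trans ?_ hnumA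
      exact_mod_cast h1
    have h2 : K2 ≤ (L + 1) * (CB * 2 ^ (k * (L / M))) := by
      rw [hK2, hCB]
      have h3 : m0 ≤ L + 1 := by
        rw [hm0]
        have := Nat.div_le_self L β
        omega
      calc m0 * 2 ^ b * K1 ≤ (L + 1) * 2 ^ b * (C1 * 2 ^ k * 2 ^ (k * (L / M))) :=
            Nat.mul_le_mul (Nat.mul_le_mul_right _ h3) hK1le
        _ = _ := by ring
    have h2R : (K2 : ℝ) ≤ ((L : ℝ) + 1) * ((CB : ℝ) * 2 ^ (k * (L / M))) := by exact_mod_cast h2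
    have h3R : 2 * ((CB : ℝ) * 2 ^ (k * (L / M))) ≤ p := by
      refine le_trans (le_of_eq ?_) hnumB
      push_cast
      ring
    have h4R : (K2 : ℝ) ≤ p * p := by
      refine h2R.trans ?_
      have h5 : (L : ℝ) + 1 ≤ 2 * p := by linarith
      have h6 : (0 : ℝ) ≤ (CB : ℝ) * 2 ^ (k * (L / M)) := by positivity
      calc ((L : ℝ) + 1) * ((CB : ℝ) * 2 ^ (k * (L / M))) ≤
          2 * p * ((CB : ℝ) * 2 ^ (k * (L / M))) := mul_le_mul_of_nonneg_right h5 h6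
        _ = p * (2 * ((CB : ℝ) * 2 ^ (k * (L / M)))) := by ring
        _ ≤ p * p := mul_le_mul_of_nonneg_left h3R (by linarith)
    rw [hqp]
    calc 16 * (K : ℝ) * K2 ≤ p * (p * p) :=
          mul_le_mul h1R h4R (Nat.cast_nonneg _) (by linarith)
      _ = p * p * p := by ring
  have hKR : (0 : ℝ) ≤ (K : ℝ) * K2 := by positivity
  have hK' : 2 * (K : ℝ) * K2 ≤ q := by
    have : 16 * (K : ℝ) * K2 = 16 * ((K : ℝ) * K2) := by ring
    rw [this] at hmain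
    have : 2 * (K : ℝ) * K2 = 2 * ((K : ℝ) * K2) := by ring
    rw [this]
    linarith
  obtain ⟨D0, hD0⟩ : ∃ D0, D0 = (2 * T) ^ m0 + 1 := ⟨_, rfl⟩
  have hD0W : D0 ≤ 2 * W := by
    rw [hD0, hW]
    have h1 : 1 ≤ (2 * T) ^ m0 := Nat.one_le_pow _ _ (by omega)
    have h2 : (2 * T) ^ m0 * 1 ≤ (2 * T) ^ m0 * (2 * b) := Nat.mul_le_mul_left _ (by omega)
    omega
  have hDq : 2 * (D0 : ℝ) < q := by
    refine lt_of_lt_of_le ?_ hmain
    have h1 : 2 * D0 < 16 * K * K2 := by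
      have h2 : 16 * K * 1 ≤ 16 * K * K2 := Nat.mul_le_mul_left _ hK2pos
      omega
    exact_mod_cast h1
  have hD' : 2 * (D0 : ℝ) ^ (t+1) < q ^ (t+1) := by
    have h1 : (2 * (D0 : ℝ)) ^ (t+1) < q ^ (t+1) :=
      pow_lt_pow_left₀ hDq (by positivity) (by omega)
    refine lt_of_le_of_lt ?_ h1
    rw [mul_pow]
    refine mul_le_mul_of_nonneg_right ?_ (by positivity)
    calc (2 : ℝ) = 2 ^ 1 := by norm_num
      _ ≤ 2 ^ (t+1) := pow_le_pow_right₀ (by norm_num) (by omega)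
  obtain ⟨x, hxD, hxK⟩ := choose_root R t (by omega) (ZZ L len k (t+1) b m0 R) K2 K D0 q hq0.le he
    hZ hgr hK' hD'
  have hKpos : 0 < K := by omega
  have hxK' := hxK hKpos
  have hxD' : (2 * T) ^ m0 < (cn R x).card := by omega
  have hcpos : 0 < (cn R x).card ^ (t+1) := pow_pos (by omega) _
  obtain ⟨hxinj, jj, D, w, Y, hYc, hYw, hYD, hYlt, hYx, hYp⟩ := extract2 (L := L) (len := len)
    (s := k) hb2 hT1 hnm R x hxD' (by
      rw [← hW]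
      rw [hK, Nat.mul_assoc] at hxK'
      omega)
  obtain ⟨X0, hX0⟩ : ∃ X0 : Finset (Fin n), X0 = univ.image x := ⟨_, rfl⟩
  have hX0c : X0.card = t + 1 := by
    rw [hX0, Finset.card_image_of_injective _ hxinj, Finset.card_univ, Fintype.card_fin]
  rw [← hX0] at hYp
  obtain ⟨ρ, hρ, hρX, hρx⟩ : ∃ ρ : Fin (t+1) → Fin n, StrictMono ρ ∧ (∀ i, ρ i ∈ X0) ∧
      ∀ r ∈ X0, ∃ i, ρ i = r := by
    refine ⟨X0.orderEmbOfFin hX0c, (X0.orderEmbOfFin hX0c).strictMono,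
      fun i => X0.orderEmbOfFin_mem hX0c i, fun r hr => ?_⟩
    have : r ∈ Set.range (X0.orderEmbOfFin hX0c) := by
      rw [Finset.range_orderEmbOfFin]
      exact hr
    exact this
  obtain ⟨Q, hQY, hQc, SA, SB, hS⟩ := hT0 n L len hLM (RD b jj D R) ρ X0 Y (by omega)
  have hQx : ∀ y ∈ Q, ∀ i, RD b jj D R (ρ i) y := by
    intro y hy i
    have h1 := hρX i
    rw [hX0] at h1
    obtain ⟨i', _, hi'⟩ := mem_image.1 h1
    rw [← hi']
    exact hYx y (hQY hy) i'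
  obtain ⟨J0, hJ0, hJ0c⟩ := Finset.exists_subset_card_eq (s := Q) (n := t + 1) (by omega)
  have hpoor := hYp J0 (hJ0.trans hQY) hJ0c
  unfold Poor at hpoor
  push Not at hpoor
  refine hno (emb2 G R (RD b jj D R) (by rw [hRdef]; exact fun u v h => h.1.1)
    (fun u v h => h.1) j (by rw [hRdef]; exact fun x y h => h.2) (fun y => y.val / b ^ jj) (by
      intro y y' hyy
      rw [Fin.lt_def]
      by_contra hc
      exact absurd hyy (not_lt.2 (Nat.div_le_div_right (not_lt.1 hc))))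
    P m A hm hA hdeg X0 ρ hρ hρX Q (by omega) (by omega) hQx
    (fun y hy y' hy' hlt => hYlt y (hQY hy) y' (hQY hy') hlt) (by
      intro z y hy hzy y2 hy2
      obtain ⟨y', h1, h2, h3⟩ := hzy.2 _ (hYD y2 (hQY hy2))
      refine ⟨y', h1, ?_⟩
      have e1 := Nat.div_add_mod (y'.val / b ^ jj) b
      have e2 := Nat.div_add_mod (y2.val / b ^ jj) b
      rw [Nat.div_div_eq_div_mul, ← pow_succ] at e1 e2
      rw [h2, h3, hYw y (hQY hy)] at e1
      rw [hYw y2 (hQY hy2)] at e2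
      omega)
    SA SB hS ?_ ?_)
  · intro i
    rw [← (hS J0 hJ0 hJ0c i).1]
    exact (hpoor (ρ i) (hρX i)).1
  · intro i
    rw [← (hS J0 hJ0 hJ0c i).2]
    exact (hpoor (ρ i) (hρX i)).2

end H152HR
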