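import Mathlib
import Pool.Agent.H152.TT.Defs
import Pool.Agent.H152.TT.Defs2
import Pool.Agent.H152.HR.Defs2
import Pool.Agent.H152.HR.Upper2
import Pool.Agent.H152.HR.Side
import Pool.Agent.H152.HR.Leaves

set_option autoImplicit false

open Finset

namespace H152HR

open H152TT

theorem rev_inner {k : ℕ} (P : SimpleGraph (Fin k)) (w : Fin k) :
    innerDeg (P.comap Fin.rev) w = innerDeg P (Fin.rev w) := by
  unfold innerDeg
  have h : {c : Fin k | (P.comap Fin.rev).Adj w c ∧
      2 ≤ ((P.comap Fin.rev).neighborSet c).ncard} =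
      Fin.rev '' {c : Fin k | P.Adj (Fin.rev w) c ∧ 2 ≤ (P.neighborSet c).ncard} := by
    ext v
    simp only [Set.mem_setOf_eq, SimpleGraph.comap_adj, Set.mem_image, rev_nbr]
    constructor
    · intro h
      exact ⟨Fin.rev v, h, Fin.rev_rev v⟩
    · rintro ⟨z, hz, rfl⟩
      rw [Fin.rev_rev]
      exact hz
  rw [h, Set.ncard_image_of_injective _ Fin.rev_injective]

/-- the bound for both sides -/
theorem side_upper2 {k : ℕ} (s : ℕ) (hs : 1 ≤ s) (P : SimpleGraph (Fin k)) (h : HubSide2 s P)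
    (ε : ℝ) (hε : 0 < ε) : ∃ N : ℕ, ∀ n : ℕ, N ≤ n → ∀ G : SimpleGraph (Fin n),
      ¬ OContains P G → (G.edgeSet.ncard : ℝ) ≤ (n : ℝ) ^ (2 - 1 / (s : ℝ) + ε) := by
  classical
  obtain ⟨t, rfl⟩ : ∃ t, s = t + 1 := ⟨s - 1, by omega⟩
  obtain ⟨m, A, hm, hA, hd | hd⟩ := h
  · obtain ⟨N, hN⟩ := hub_upper2 t P m A hm hA hd ε hε
    refine ⟨N, fun n hn G hG => ?_⟩
    have := hN n hn G hG
    push_cast
    exact this
  · obtain ⟨N, hN⟩ := hub_upper2 t (P.comap Fin.rev) (k - m) (A.image Fin.rev) (by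
      intro u v huv
      rw [SimpleGraph.comap_adj] at huv
      have h1 := hm _ _ huv
      rw [Fin.val_rev, Fin.val_rev] at h1
      have := u.isLt
      have := v.isLt
      omega) (card_image_le.trans hA) (by
      intro w hw hwA
      have h1 := rev_inner P w
      unfold innerDeg at h1
      rw [h1]
      refine hd (Fin.rev w) ?_ ?_
      · rw [Fin.val_rev]
        omega
      · intro hc
        exact hwA (mem_image.2 ⟨Fin.rev w, hc, Fin.rev_rev w⟩)) ε hε
    refine ⟨N, fun n hn G hG => ?_⟩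
    have := hN n hn (G.comap Fin.rev) (fun hc => hG (rev_contains P G hc))
    rw [rev_edges] at this
    push_cast
    exact this

/-- the graph of the edges joining two vertices of degree at least two -/
def inn {k : ℕ} (P : SimpleGraph (Fin k)) : SimpleGraph (Fin k) where
  Adj u v := P.Adj u v ∧ 2 ≤ (P.neighborSet u).ncard ∧ 2 ≤ (P.neighborSet v).ncard
  symm := ⟨fun _ _ h => ⟨h.1.symm, h.2.2, h.2.1⟩⟩
  loopless := ⟨fun _ h => h.1.ne rfl⟩

theorem inn_le {k : ℕ} (P : SimpleGraph (Fin k)) : inn P ≤ P := fun _ _ h => h.1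

theorem inn_deg {k : ℕ} (P : SimpleGraph (Fin k)) (w : Fin k)
    (hw : 2 ≤ (P.neighborSet w).ncard) : ((inn P).neighborSet w).ncard = innerDeg P w := by
  unfold innerDeg
  congr 1
  ext v
  rw [SimpleGraph.mem_neighborSet]
  exact ⟨fun h => ⟨h.1, h.2.2⟩, fun h => ⟨h.1, hw, h.2⟩⟩

theorem innerDeg_le {k : ℕ} (P : SimpleGraph (Fin k)) (w : Fin k) :
    innerDeg P w ≤ (P.neighborSet w).ncard := by
  unfold innerDeg
  exact Set.ncard_le_ncard (fun v h => h.1) (Set.toFinite _)

theorem inner_le_of {k : ℕ} (P : SimpleGraph (Fin k)) (t : ℕ) (ht : 1 ≤ t) (w : Fin k)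
    (h : ((inn P).neighborSet w).ncard ≤ t) : innerDeg P w ≤ t := by
  by_cases hw : 2 ≤ (P.neighborSet w).ncard
  · rw [← inn_deg P w hw]
    exact h
  · have := innerDeg_le P w
    omega

theorem inn_bip {k : ℕ} {P : SimpleGraph (Fin k)} {m : ℕ}
    (hm : ∀ u v, P.Adj u v → (u.val < m ↔ m ≤ v.val)) :
    ∀ u v, (inn P).Adj u v → (u.val < m ↔ m ≤ v.val) := fun u v h => hm u v h.1

theorem innerEdges_eq {k : ℕ} (P : SimpleGraph (Fin k)) :
    (inn P).edgeSet.ncard = innerEdges P := by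
  unfold innerEdges
  congr 1
  ext e
  induction e using Sym2.ind with
  | _ a b =>
    rw [SimpleGraph.mem_edgeSet, Set.mem_sep_iff, SimpleGraph.mem_edgeSet]
    constructor
    · intro h
      refine ⟨h.1, fun v hv => ?_⟩
      rcases Sym2.mem_iff.1 hv with rfl | rfl
      · exact h.2.1
      · exact h.2.2
    · rintro ⟨h1, h2⟩
      exact ⟨h1, h2 a (Sym2.mem_mk_left a b), h2 b (Sym2.mem_mk_right a b)⟩

/-- few inner edges -/
theorem side2_of_edges {k : ℕ} (P : SimpleGraph (Fin k)) (hO : OrdBip P) (t : ℕ) (ht : 1 ≤ t)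
    (he : innerEdges P < (t + 1) ^ 2) : HubSide2 t P := by
  classical
  obtain ⟨m, hm⟩ := hO
  have h1 := edges_eq (inn P) m (inn_bip hm)
  rw [innerEdges_eq] at h1
  refine ⟨m, (univ.filter (fun w : Fin k => w.val < m)).filter
    (fun w => t < ((inn P).neighborSet w).ncard), hm, ?_, Or.inl ?_⟩
  · by_contra hc
    have h2 : ∑ w ∈ (univ.filter (fun w : Fin k => w.val < m)).filter
        (fun w => t < ((inn P).neighborSet w).ncard), (t + 1) ≤
        ∑ w ∈ (univ : Finset (Fin k)).filter (fun w => w.val < m),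
          ((inn P).neighborSet w).ncard := by
      refine (Finset.sum_le_sum fun w hw => ?_).trans
        (Finset.sum_le_sum_of_subset (filter_subset _ _))
      exact (mem_filter.1 hw).2
    rw [Finset.sum_const, smul_eq_mul, ← h1] at h2
    have h3 : (t + 1) * (t + 1) ≤ innerEdges P :=
      (Nat.mul_le_mul_right _ (by omega)).trans h2
    rw [sq] at he
    omega
  · intro w hw hwA
    refine inner_le_of P t ht w ?_
    by_contra hc
    exact hwA (mem_filter.2 ⟨mem_filter.2 ⟨mem_univ _, hw⟩, by omega⟩)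

/-- few independent cycles and few inner leaves -/
theorem side2_of_leaves {k : ℕ} (P : SimpleGraph (Fin k)) (r t : ℕ) (h : FewCycles r P)
    (ht : 2 * r + innerLeaves P < 2 * t ^ 2) : HubSide2 t P := by
  classical
  obtain ⟨⟨m, hm⟩, R, hR, hac⟩ := h
  have ht1 : 1 ≤ t := by
    rcases Nat.eq_zero_or_pos t with h0 | h0
    · rw [h0] at ht
      simp at ht
    · exact h0
  have hle : (inn P).deleteEdges (R : Set (Sym2 (Fin k))) ≤
      P.deleteEdges (R : Set (Sym2 (Fin k))) := by
    intro u v huv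
    rw [SimpleGraph.deleteEdges_adj] at huv ⊢
    exact ⟨huv.1.1, huv.2⟩
  have hac' : ((inn P).deleteEdges (R : Set (Sym2 (Fin k)))).IsAcyclic :=
    hac.anti hle
  obtain ⟨A, hA, hd⟩ := side_of_leaves_m (inn P) m (inn_bip hm) r (innerLeaves P) t R hR hac'
    (by
      unfold innerLeaves
      rw [← Set.ncard_coe_finset]
      refine Set.ncard_le_ncard ?_ (Set.toFinite _)
      intro w hw
      rw [Finset.coe_filter] at hw
      have hw1 : ((inn P).neighborSet w).ncard = 1 := hw.2
      have hne : ((inn P).neighborSet w).Nonempty := by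
        rw [← Set.ncard_pos]
        omega
      obtain ⟨v, hv⟩ := hne
      have h2 : 2 ≤ (P.neighborSet w).ncard := hv.2.1
      exact ⟨h2, by rw [← inn_deg P w h2]; exact hw1⟩) ht
  refine ⟨m, A, hm, hA, ?_⟩
  rcases hd with hd | hd
  · exact Or.inl fun w hw hwA => inner_le_of P t ht1 w (hd w hw hwA)
  · exact Or.inr fun w hw hwA => inner_le_of P t ht1 w (hd w hw hwA)

end H152HR
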