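import Mathlib
import Pool.Agent.H152.TT.Defs
import Pool.Agent.H152.TT.Defs2
import Pool.Agent.H152.TT.Classes
import Pool.Agent.H152.TT.Cyclo2
import Pool.Agent.H152.TT.Linear
import Pool.Agent.H152.TT.Deletion
import Pool.Agent.H152.TT.Feedback
import Pool.Agent.H152.HR.Defs2
import Pool.Agent.H152.HR.Side2
import Pool.Agent.H152.HR.Core2
import Pool.Agent.H152.HR.Few2
import Pool.Agent.H152.HR.Cmp

set_option autoImplicit false

open Finset

namespace H152HR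

open H152TT

/-- the upper bounds with parameter `s` -/
theorem good_upper {k : ℕ} (s : ℕ) (hs : 1 ≤ s) (P : SimpleGraph (Fin k))
    (h : HubSide2 s P ∨ (OrdBip P ∧ innerEdges P < (s + 1) ^ 2) ∨ Tracked s P ∨
      (∃ r : ℕ, s = (r + 1) / 2 + 1 ∧ FewCycles r P) ∨
      (∃ a : ℕ, s = 2 * a + 1 ∧ FewHubs a P) ∨
      (∃ r : ℕ, FewCycles r P ∧ 2 * r + innerLeaves P < 2 * s ^ 2)) :
    ∀ ε : ℝ, 0 < ε → ∃ N : ℕ, ∀ n : ℕ, N ≤ n →
      (exOrd P n : ℝ) ≤ (n : ℝ) ^ ((2 - 1 / (s : ℝ)) + ε) := by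
  refine up_of P _ fun ε hε => ?_
  rcases h with h | h | h | ⟨r, rfl, h⟩ | ⟨a, rfl, h⟩ | ⟨r, h, hr⟩
  · exact side_upper2 s hs P h ε hε
  · exact side_upper2 s hs P (side2_of_edges P h.1 s hs h.2) ε hε
  · exact tracked_upper s hs P h ε hε
  · exact tracked_upper _ hs P (tracked_of_edges P h.1 r h.2) ε hε
  · exact tracked_upper _ hs P (fewHubs_tracked a P h) ε hε
  · exact side_upper2 s hs P (side2_of_leaves P r s h hr) ε hε

/-- a pattern with a vertex of degree at least two has at least two edges -/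
theorem two_edges {k : ℕ} (P : SimpleGraph (Fin k)) (h : 1 ≤ innerVerts P) :
    2 ≤ P.edgeSet.ncard := by
  unfold innerVerts at h
  have hne : {w : Fin k | 2 ≤ (P.neighborSet w).ncard}.Nonempty := by
    rw [← Set.ncard_pos]
    omega
  obtain ⟨w, hw⟩ := hne
  have hw' : 1 < (P.neighborSet w).ncard := hw
  obtain ⟨a, ha, b, hb, hab⟩ := (Set.one_lt_ncard (Set.toFinite _)).1 hw'
  have ha' : P.Adj w a := ha
  have hb' : P.Adj w b := hb
  have h1 : 1 < P.edgeSet.ncard := by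
    refine (Set.one_lt_ncard (Set.toFinite _)).2 ⟨s(w, a), ha', s(w, b), hb', ?_⟩
    intro hc
    rcases Sym2.eq_iff.1 hc with ⟨_, h2⟩ | ⟨h2, _⟩
    · exact hab h2
    · exact hb'.ne h2
  exact h1

/-- a graph with an edge has at least two vertices -/
theorem two_verts {f : ℕ} (F : SimpleGraph (Fin f)) (hF : 2 ≤ F.edgeSet.ncard) : 2 ≤ f := by
  obtain ⟨e, he⟩ : F.edgeSet.Nonempty := by
    rw [Set.nonempty_iff_ne_empty]
    intro h
    rw [h, Set.ncard_empty] at hF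
    omega
  induction e using Sym2.ind with
  | _ a b =>
    have hab : F.Adj a b := he
    have h1 : a.val ≠ b.val := fun h => hab.ne (Fin.ext h)
    have := a.isLt
    have := b.isLt
    omega

/-- an exponent below one third -/
theorem tendsto_third {k : ℕ} (P : SimpleGraph (Fin k)) (γ : ℝ) (hγ : γ < 1 / 3)
    (h : ∃ N : ℕ, ∀ n : ℕ, N ≤ n → ratio P n ≤ (n : ℝ) ^ γ) :
    Filter.Tendsto (fun n : ℕ => ratio P n / (n : ℝ) ^ ((1 : ℝ) / 3)) Filter.atTop (nhds 0) := by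
  obtain ⟨N, hN⟩ := h
  have ht : Filter.Tendsto (fun n : ℕ => (n : ℝ) ^ (-(1 / 3 - γ))) Filter.atTop (nhds 0) :=
    (tendsto_rpow_neg_atTop (by linarith)).comp tendsto_natCast_atTop_atTop
  refine squeeze_zero' ?_ ?_ ht
  · refine Filter.Eventually.of_forall fun n => ?_
    unfold ratio
    positivity
  · refine Filter.eventually_atTop.2 ⟨max N 1, fun n hn => ?_⟩
    have h1 := hN n ((le_max_left _ _).trans hn)
    have hn1 : 1 ≤ n := (le_max_right _ _).trans hn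
    have hn0 : (0 : ℝ) < n := by exact_mod_cast hn1
    rw [div_le_iff₀ (by positivity), ← Real.rpow_add hn0]
    refine h1.trans (le_of_eq ?_)
    congr 1
    ring

/-- a dense part inside the vertices on cycles -/
theorem gen_core {k : ℕ} (P : SimpleGraph (Fin k)) (hO : OrdBip P) (r : ℕ) (hr : 1 ≤ r)
    (hnot : ¬ FewCycles (r - 1) P) : 3 ≤ cycVerts P ∧
      ∃ (v : ℕ) (F : SimpleGraph (Fin v)), F.IsContained P ∧ 2 ≤ v ∧
      2 ≤ F.edgeSet.ncard ∧ ((v : ℝ) - 2) / ((F.edgeSet.ncard : ℝ) - 1) ≤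
        ((cycVerts P : ℝ) - 2) / ((cycVerts P : ℝ) - 2 + r) := by
  classical
  obtain ⟨W, hWw, hW⟩ := cycVerts_card P
  obtain ⟨h3, v, F, h4, h5, h6, h7, _⟩ := dense_core P W
    (fun u c hc x hx => (hW x).2 ⟨u, c, hc, hx⟩) r hr (fun R hR => by
      by_contra hc
      exact hnot ⟨hO, R, by omega, hR⟩)
  rw [hWw] at h3 h7
  exact ⟨h3, v, F, h4, h5, h6, h7⟩

/-- the ratio in terms of the least number of edges meeting all cycles and of the number of
vertices on cycles -/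
theorem gen_bound {k : ℕ} (P : SimpleGraph (Fin k)) (r : ℕ) (hr : 1 ≤ r)
    (hR : FewCycles r P) (hnot : ¬ FewCycles (r - 1) P) (s : ℕ)
    (hs : s = (r + 1) / 2 + 1 ∨ 2 * r + innerLeaves P < 2 * s ^ 2) (ε : ℝ) (hε : 0 < ε) :
    ∃ N : ℕ, ∀ n : ℕ, N ≤ n → ratio P n ≤
      (n : ℝ) ^ (1 - (r : ℝ) / ((cycVerts P : ℝ) - 2 + r) - 1 / (s : ℝ) + ε) := by
  have hs1 : 1 ≤ s := by
    rcases hs with h | h
    · omega
    · rcases Nat.eq_zero_or_pos s with h0 | h0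
      · rw [h0] at h
        simp at h
      · exact h0
  have hup : ∀ ε : ℝ, 0 < ε → ∃ N : ℕ, ∀ n : ℕ, N ≤ n →
      (exOrd P n : ℝ) ≤ (n : ℝ) ^ ((2 - 1 / (s : ℝ)) + ε) := by
    refine up_of P _ fun ε hε => ?_
    rcases hs with h | h
    · subst h
      exact tracked_upper _ hs1 P (tracked_of_edges P hR.1 r hR.2) ε hε
    · exact side_upper2 s hs1 P (side2_of_leaves P r s hR h) ε hε
  obtain ⟨hW3, v, F, hF, hv2, he, hd⟩ := gen_core P hR.1 r hr hnot
  obtain ⟨N, hN⟩ := ratio_of P (2 - 1 / (s : ℝ))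
    (2 - ((v : ℝ) - 2) / ((F.edgeSet.ncard : ℝ) - 1)) hup
    (lower_mono F P hF _ (ex_lower_density F _ rfl he hv2)) ε hε
  refine ⟨max N 1, fun n hn => (hN n ((le_max_left _ _).trans hn)).trans ?_⟩
  have hn1 : (1 : ℝ) ≤ n := by exact_mod_cast (le_max_right _ _).trans hn
  refine Real.rpow_le_rpow_of_exponent_le hn1 ?_
  have hW3R : (3 : ℝ) ≤ cycVerts P := by exact_mod_cast hW3
  have hrR : (1 : ℝ) ≤ r := by exact_mod_cast hr
  have h3 : ((cycVerts P : ℝ) - 2) / ((cycVerts P : ℝ) - 2 + r) =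
      1 - (r : ℝ) / ((cycVerts P : ℝ) - 2 + r) := by
    have : (cycVerts P : ℝ) - 2 + r ≠ 0 := by
      have : (0 : ℝ) < (cycVerts P : ℝ) - 2 + r := by linarith
      exact this.ne'
    field_simp
    ring
  rw [h3] at hd
  linarith

/-- the least number of edges meeting all cycles -/
theorem exists_least {k : ℕ} (P : SimpleGraph (Fin k)) (hO : OrdBip P) :
    ∃ r : ℕ, FewCycles r P ∧ (1 ≤ r → ¬ FewCycles (r - 1) P) := by
  classical
  have hex : ∃ r : ℕ, FewCycles r P := by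
    refine ⟨P.edgeFinset.card, hO, P.edgeFinset, le_rfl, ?_⟩
    have : P.deleteEdges (P.edgeFinset : Set (Sym2 (Fin k))) = ⊥ := by
      ext a b
      rw [SimpleGraph.deleteEdges_adj]
      simp
    rw [this]
    exact SimpleGraph.isAcyclic_bot
  exact ⟨Nat.find hex, Nat.find_spec hex, fun h => Nat.find_min hex (by omega)⟩

/-- no cycles -/
theorem few_zero {k : ℕ} (P : SimpleGraph (Fin k)) (h : FewCycles 0 P) : P.IsAcyclic := by
  obtain ⟨_, R, hR, hRa⟩ := h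
  have hR0 : R = ∅ := Finset.card_eq_zero.1 (by omega)
  rw [hR0, Finset.coe_empty, SimpleGraph.deleteEdges_empty] at hRa
  exact hRa

theorem few_mono {k : ℕ} (P : SimpleGraph (Fin k)) (r r' : ℕ) (hr : r ≤ r')
    (h : FewCycles r P) : FewCycles r' P := by
  obtain ⟨h1, R, hR, hRa⟩ := h
  exact ⟨h1, R, hR.trans hr, hRa⟩

/-- forests -/
theorem forest_bound {k : ℕ} (P : SimpleGraph (Fin k)) (hP : 2 ≤ P.edgeSet.ncard)
    (h : FewCycles 0 P) (δ : ℝ) (hδ : 0 < δ) :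
    ∃ N : ℕ, ∀ n : ℕ, N ≤ n → ratio P n ≤ (n : ℝ) ^ δ := by
  have hup : ∀ ε : ℝ, 0 < ε → ∃ N : ℕ, ∀ n : ℕ, N ≤ n →
      (exOrd P n : ℝ) ≤ (n : ℝ) ^ ((1 : ℝ) + ε) := by
    refine up_of P _ fun ε hε => ?_
    obtain ⟨N, hN⟩ := tracked_upper 1 le_rfl P (tracked_of_edges P h.1 0 h.2) ε hε
    refine ⟨N, fun n hn G hG => ?_⟩
    have := hN n hn G hG
    norm_num at this ⊢
    exact this
  obtain ⟨N, hN⟩ := ratio_of P 1 1 hup (lower_lin P hP) δ hδ
  refine ⟨N, fun n hn => ?_⟩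
  have := hN n hn
  rw [sub_self, zero_add] at this
  exact this

/-- the least admissible parameter for one side -/
theorem exists_side (r l : ℕ) (hr : 1 ≤ r) : ∃ t : ℕ, 2 ≤ t ∧ 2 * r + l < 2 * t ^ 2 ∧
    2 * (t - 1) ^ 2 ≤ 2 * r + l := by
  have hext : ∃ t : ℕ, 2 * r + l < 2 * t ^ 2 := by
    refine ⟨2 * r + l + 1, ?_⟩
    nlinarith
  obtain ⟨t, ht⟩ : ∃ t, t = Nat.find hext := ⟨_, rfl⟩
  have ht1 : 2 * r + l < 2 * t ^ 2 := by
    rw [ht]
    exact Nat.find_spec hext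
  have ht2 : 2 ≤ t := by
    by_contra hc
    have h1 : t ^ 2 ≤ 1 ^ 2 := Nat.pow_le_pow_left (by omega) 2
    omega
  refine ⟨t, ht2, ht1, ?_⟩
  by_contra hc
  have h1 : t - 1 < Nat.find hext := by omega
  exact Nat.find_min hext h1 (not_le.1 hc)

end H152HR
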