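import Mathlib

set_option autoImplicit false

namespace H152HR

theorem phi_small (s : ℕ) (hs : 2 ≤ s) (hs2 : s < 15) (y : ℝ) (hy : 17 / 10 ≤ y) :
    0 < 5 * y ^ 3 + (15 - 18 * (s : ℝ)) * y ^ 2 + (35 * (s : ℝ) - 65) * y +
      (36 * (s : ℝ) ^ 3 - 180 * (s : ℝ) ^ 2 + 339 * (s : ℝ) - 195) := by
  have hy0 : 0 ≤ y := by linarith
  interval_cases s
  · norm_num
    nlinarith [mul_nonneg hy0 (sq_nonneg (y - 67 / 25)), sq_nonneg (y - 67 / 25)]
  · norm_num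
    nlinarith [mul_nonneg hy0 (sq_nonneg (y - 37 / 8)), sq_nonneg (y - 37 / 8)]
  · norm_num
    nlinarith [mul_nonneg hy0 (sq_nonneg (y - 55 / 8)), sq_nonneg (y - 55 / 8)]
  · norm_num
    nlinarith [mul_nonneg hy0 (sq_nonneg (y - 1841 / 200)), sq_nonneg (y - 1841 / 200)]
  · norm_num
    nlinarith [mul_nonneg hy0 (sq_nonneg (y - 2313 / 200)), sq_nonneg (y - 2313 / 200)]
  · norm_num
    nlinarith [mul_nonneg hy0 (sq_nonneg (y - 697 / 50)), sq_nonneg (y - 697 / 50)]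
  · norm_num
    nlinarith [mul_nonneg hy0 (sq_nonneg (y - 653 / 40)), sq_nonneg (y - 653 / 40)]
  · norm_num
    nlinarith [mul_nonneg hy0 (sq_nonneg (y - 1871 / 100)), sq_nonneg (y - 1871 / 100)]
  · norm_num
    nlinarith [mul_nonneg hy0 (sq_nonneg (y - 211 / 10)), sq_nonneg (y - 211 / 10)]
  · norm_num
    nlinarith [mul_nonneg hy0 (sq_nonneg (y - 4699 / 200)), sq_nonneg (y - 4699 / 200)]
  · norm_num
    nlinarith [mul_nonneg hy0 (sq_nonneg (y - 2589 / 100)), sq_nonneg (y - 2589 / 100)]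
  · norm_num
    nlinarith [mul_nonneg hy0 (sq_nonneg (y - 5657 / 200)), sq_nonneg (y - 5657 / 200)]
  · norm_num
    nlinarith [mul_nonneg hy0 (sq_nonneg (y - 767 / 25)), sq_nonneg (y - 767 / 25)]

theorem phi_large (s y : ℝ) (hs : 15 ≤ s) (hy : 17 / 10 ≤ y) :
    0 < 5 * y ^ 3 + (15 - 18 * s) * y ^ 2 + (35 * s - 65) * y +
      (36 * s ^ 3 - 180 * s ^ 2 + 339 * s - 195) := by
  have hy0 : 0 ≤ y := by linarith
  have hs0 : 0 ≤ s := by linarith
  have s2 : 15 * s ≤ s ^ 2 := by nlinarith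
  have s3 : 15 * s ^ 2 ≤ s ^ 3 := by nlinarith [sq_nonneg s]
  rcases le_total (7 / 5 * s) y with h | h
  · obtain ⟨z, hz⟩ : ∃ z : ℝ, z = y - 12 / 5 * s := ⟨_, rfl⟩
    have hyz : y = z + 12 / 5 * s := by rw [hz]; ring
    have e1 : 5 * y ^ 3 + (15 - 18 * s) * y ^ 2 + (35 * s - 65) * y +
        (36 * s ^ 3 - 180 * s ^ 2 + 339 * s - 195) =
        z ^ 2 * (5 * (z + s)) + ((13 * s + 15) * z ^ 2 + (107 * s - 65) * z +
          (36 / 25 * s ^ 3 - 48 / 5 * s ^ 2 + 183 * s - 195)) := by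
      rw [hyz]; ring
    rw [e1]
    have h1 : 0 ≤ z ^ 2 * (5 * (z + s)) := by
      have : 0 ≤ z + s := by rw [hz]; linarith
      positivity
    have hA : 0 < 13 * s + 15 := by linarith
    have h2 : 0 < (13 * s + 15) * z ^ 2 + (107 * s - 65) * z +
        (36 / 25 * s ^ 3 - 48 / 5 * s ^ 2 + 183 * s - 195) := by
      have e2 : 4 * (13 * s + 15) * ((13 * s + 15) * z ^ 2 + (107 * s - 65) * z +
          (36 / 25 * s ^ 3 - 48 / 5 * s ^ 2 + 183 * s - 195)) =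
          (2 * (13 * s + 15) * z + (107 * s - 65)) ^ 2 +
            (4 * (13 * s + 15) * (36 / 25 * s ^ 3 - 48 / 5 * s ^ 2 + 183 * s - 195) -
              (107 * s - 65) ^ 2) := by ring
      have h3 : 0 < 4 * (13 * s + 15) * (36 / 25 * s ^ 3 - 48 / 5 * s ^ 2 + 183 * s - 195) -
              (107 * s - 65) ^ 2 := by
        have s4 : 15 * s ^ 3 ≤ s ^ 4 := by nlinarith [pow_nonneg hs0 3]
        nlinarith
      have h4 : 0 < 4 * (13 * s + 15) * ((13 * s + 15) * z ^ 2 + (107 * s - 65) * z +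
          (36 / 25 * s ^ 3 - 48 / 5 * s ^ 2 + 183 * s - 195)) := by
        rw [e2]
        have := sq_nonneg (2 * (13 * s + 15) * z + (107 * s - 65))
        linarith
      have h5 : 0 < 4 * (13 * s + 15) := by linarith
      exact (mul_pos_iff_of_pos_left h5).1 h4
    linarith
  · have h1 : 0 ≤ (7 / 5 * s - y) * (y * (11 * s - 5 * y) + 77 / 5 * s ^ 2) := by
      have : 0 ≤ 11 * s - 5 * y := by linarith
      have : 0 ≤ 7 / 5 * s - y := by linarith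
      positivity
    have e1 : (7 / 5 * s - y) * (y * (11 * s - 5 * y) + 77 / 5 * s ^ 2) =
        5 * y ^ 3 - 18 * s * y ^ 2 + 539 / 25 * s ^ 3 := by ring
    rw [e1] at h1
    have h2 : 0 ≤ s * y := by positivity
    nlinarith [sq_nonneg y]

theorem phi_pos (s : ℕ) (hs : 2 ≤ s) (y : ℝ) (hy : 17 / 10 ≤ y) :
    0 < 5 * y ^ 3 + (15 - 18 * (s : ℝ)) * y ^ 2 + (35 * (s : ℝ) - 65) * y +
      (36 * (s : ℝ) ^ 3 - 180 * (s : ℝ) ^ 2 + 339 * (s : ℝ) - 195) := by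
  rcases Nat.lt_or_ge s 15 with h | h
  · exact phi_small s hs h y hy
  · exact phi_large s y (by exact_mod_cast h) hy

theorem psi_pos (s : ℕ) (hs : 2 ≤ s) (y : ℝ) (hy : 17 / 10 ≤ y) :
    0 < 5 * y ^ 3 + (15 - 18 * (s : ℝ)) * y ^ 2 +
      (5 * ((s : ℝ) + 1) * ((s : ℝ) - 1) ^ 2 - 10) * y +
      (((s : ℝ) - 1) ^ 2 * (15 - 3 * (s : ℝ)) + 36 * (s : ℝ) - 30) := by
  have hy0 : 0 ≤ y := by linarith
  rcases Nat.lt_or_ge s 6 with h | h
  · interval_cases s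
    · norm_num
      nlinarith [mul_nonneg hy0 (sq_nonneg (y - 269 / 100)), sq_nonneg (y - 269 / 100)]
    · norm_num
      nlinarith [mul_nonneg hy0 (sq_nonneg (y - 405 / 100)), sq_nonneg (y - 405 / 100)]
    · norm_num
      nlinarith [mul_nonneg hy0 (sq_nonneg (y - 57 / 10)), sq_nonneg (y - 57 / 10)]
    · norm_num
      nlinarith [mul_nonneg hy0 (sq_nonneg (y - 15 / 2)), sq_nonneg (y - 15 / 2)]
  · obtain ⟨x, hx⟩ : ∃ x : ℝ, x = (s : ℝ) := ⟨_, rfl⟩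
    have hx6 : 6 ≤ x := by rw [hx]; exact_mod_cast h
    rw [← hx]
    have x2 : 6 * x ≤ x ^ 2 := by nlinarith
    have x3 : 6 * x ^ 2 ≤ x ^ 3 := by nlinarith [sq_nonneg x]
    have h1 : 0 ≤ 5 * y ^ 2 - (18 * x - 15) * y + (3 * (x + 1) * (x - 1) ^ 2 - 10) := by
      nlinarith [sq_nonneg (y - (18 * x - 15) / 10)]
    have h2 := mul_nonneg hy0 h1
    have h3 : 0 ≤ (x + 1) * (x - 1) ^ 2 := by
      have : 0 ≤ x + 1 := by linarith
      positivity
    have h4 : 17 / 10 * (2 * ((x + 1) * (x - 1) ^ 2)) ≤ y * (2 * ((x + 1) * (x - 1) ^ 2)) :=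
      mul_le_mul_of_nonneg_right hy (by linarith)
    nlinarith

end H152HR
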