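import Mathlib

set_option autoImplicit false

namespace H152HR

theorem theta_small (s : ℕ) (hs : 2 ≤ s) (hs2 : s < 20) (w : ℝ) (hw : 7 / 5 ≤ w) :
    0 < 5 * w ^ 4 + (5 - 9 * (s : ℝ)) * w ^ 3 +
      5 * ((s : ℝ) ^ 3 - (s : ℝ) ^ 2 - (s : ℝ) - 1) * w +
      (-4 * (s : ℝ) ^ 3 + 13 * (s : ℝ) ^ 2 + 4 * (s : ℝ) - 5) := by
  have hw0 : 0 ≤ w := by linarith
  have hw1 : 0 ≤ w - 7 / 5 := by linarith
  interval_cases s
  · norm_num
    nlinarith [mul_nonneg (sq_nonneg w) (sq_nonneg (w - 47 / 25)),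
      mul_nonneg hw0 (sq_nonneg (w - 47 / 25)), sq_nonneg (w - 47 / 25),
      mul_nonneg hw1 (sq_nonneg (w - 47 / 25)),
      mul_nonneg (mul_nonneg hw1 hw0) (sq_nonneg (w - 47 / 25))]
  · norm_num
    nlinarith [mul_nonneg (sq_nonneg w) (sq_nonneg (w - 72 / 25)),
      mul_nonneg hw0 (sq_nonneg (w - 72 / 25)), sq_nonneg (w - 72 / 25),
      mul_nonneg hw1 (sq_nonneg (w - 72 / 25)),
      mul_nonneg (mul_nonneg hw1 hw0) (sq_nonneg (w - 72 / 25))]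
  · norm_num
    nlinarith [mul_nonneg (sq_nonneg w) (sq_nonneg (w - 793 / 200)),
      mul_nonneg hw0 (sq_nonneg (w - 793 / 200)), sq_nonneg (w - 793 / 200),
      mul_nonneg hw1 (sq_nonneg (w - 793 / 200)),
      mul_nonneg (mul_nonneg hw1 hw0) (sq_nonneg (w - 793 / 200))]
  · norm_num
    nlinarith [mul_nonneg (sq_nonneg w) (sq_nonneg (w - 1019 / 200)),
      mul_nonneg hw0 (sq_nonneg (w - 1019 / 200)), sq_nonneg (w - 1019 / 200),
      mul_nonneg hw1 (sq_nonneg (w - 1019 / 200)),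
      mul_nonneg (mul_nonneg hw1 hw0) (sq_nonneg (w - 1019 / 200))]
  · norm_num
    nlinarith [mul_nonneg (sq_nonneg w) (sq_nonneg (w - 156 / 25)),
      mul_nonneg hw0 (sq_nonneg (w - 156 / 25)), sq_nonneg (w - 156 / 25),
      mul_nonneg hw1 (sq_nonneg (w - 156 / 25)),
      mul_nonneg (mul_nonneg hw1 hw0) (sq_nonneg (w - 156 / 25))]
  · norm_num
    nlinarith [mul_nonneg (sq_nonneg w) (sq_nonneg (w - 1547 / 200)),
      mul_nonneg hw0 (sq_nonneg (w - 1547 / 200)), sq_nonneg (w - 1547 / 200),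
      mul_nonneg hw1 (sq_nonneg (w - 1547 / 200)),
      mul_nonneg (mul_nonneg hw1 hw0) (sq_nonneg (w - 1547 / 200))]
  · norm_num
    nlinarith [mul_nonneg (sq_nonneg w) (sq_nonneg (w - 1787 / 200)),
      mul_nonneg hw0 (sq_nonneg (w - 1787 / 200)), sq_nonneg (w - 1787 / 200),
      mul_nonneg hw1 (sq_nonneg (w - 1787 / 200)),
      mul_nonneg (mul_nonneg hw1 hw0) (sq_nonneg (w - 1787 / 200))]
  · norm_num
    nlinarith [mul_nonneg (sq_nonneg w) (sq_nonneg (w - 2027 / 200)),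
      mul_nonneg hw0 (sq_nonneg (w - 2027 / 200)), sq_nonneg (w - 2027 / 200),
      mul_nonneg hw1 (sq_nonneg (w - 2027 / 200)),
      mul_nonneg (mul_nonneg hw1 hw0) (sq_nonneg (w - 2027 / 200))]
  · norm_num
    nlinarith [mul_nonneg (sq_nonneg w) (sq_nonneg (w - 2267 / 200)),
      mul_nonneg hw0 (sq_nonneg (w - 2267 / 200)), sq_nonneg (w - 2267 / 200),
      mul_nonneg hw1 (sq_nonneg (w - 2267 / 200)),
      mul_nonneg (mul_nonneg hw1 hw0) (sq_nonneg (w - 2267 / 200))]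
  · norm_num
    nlinarith [mul_nonneg (sq_nonneg w) (sq_nonneg (w - 2507 / 200)),
      mul_nonneg hw0 (sq_nonneg (w - 2507 / 200)), sq_nonneg (w - 2507 / 200),
      mul_nonneg hw1 (sq_nonneg (w - 2507 / 200)),
      mul_nonneg (mul_nonneg hw1 hw0) (sq_nonneg (w - 2507 / 200))]
  · norm_num
    nlinarith [mul_nonneg (sq_nonneg w) (sq_nonneg (w - 2747 / 200)),
      mul_nonneg hw0 (sq_nonneg (w - 2747 / 200)), sq_nonneg (w - 2747 / 200),
      mul_nonneg hw1 (sq_nonneg (w - 2747 / 200)),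
      mul_nonneg (mul_nonneg hw1 hw0) (sq_nonneg (w - 2747 / 200))]
  · norm_num
    nlinarith [mul_nonneg (sq_nonneg w) (sq_nonneg (w - 2987 / 200)),
      mul_nonneg hw0 (sq_nonneg (w - 2987 / 200)), sq_nonneg (w - 2987 / 200),
      mul_nonneg hw1 (sq_nonneg (w - 2987 / 200)),
      mul_nonneg (mul_nonneg hw1 hw0) (sq_nonneg (w - 2987 / 200))]
  · norm_num
    nlinarith [mul_nonneg (sq_nonneg w) (sq_nonneg (w - 3227 / 200)),
      mul_nonneg hw0 (sq_nonneg (w - 3227 / 200)), sq_nonneg (w - 3227 / 200),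
      mul_nonneg hw1 (sq_nonneg (w - 3227 / 200)),
      mul_nonneg (mul_nonneg hw1 hw0) (sq_nonneg (w - 3227 / 200))]
  · norm_num
    nlinarith [mul_nonneg (sq_nonneg w) (sq_nonneg (w - 3467 / 200)),
      mul_nonneg hw0 (sq_nonneg (w - 3467 / 200)), sq_nonneg (w - 3467 / 200),
      mul_nonneg hw1 (sq_nonneg (w - 3467 / 200)),
      mul_nonneg (mul_nonneg hw1 hw0) (sq_nonneg (w - 3467 / 200))]
  · norm_num
    nlinarith [mul_nonneg (sq_nonneg w) (sq_nonneg (w - 3707 / 200)),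
      mul_nonneg hw0 (sq_nonneg (w - 3707 / 200)), sq_nonneg (w - 3707 / 200),
      mul_nonneg hw1 (sq_nonneg (w - 3707 / 200)),
      mul_nonneg (mul_nonneg hw1 hw0) (sq_nonneg (w - 3707 / 200))]
  · norm_num
    nlinarith [mul_nonneg (sq_nonneg w) (sq_nonneg (w - 3947 / 200)),
      mul_nonneg hw0 (sq_nonneg (w - 3947 / 200)), sq_nonneg (w - 3947 / 200),
      mul_nonneg hw1 (sq_nonneg (w - 3947 / 200)),
      mul_nonneg (mul_nonneg hw1 hw0) (sq_nonneg (w - 3947 / 200))]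
  · norm_num
    nlinarith [mul_nonneg (sq_nonneg w) (sq_nonneg (w - 4187 / 200)),
      mul_nonneg hw0 (sq_nonneg (w - 4187 / 200)), sq_nonneg (w - 4187 / 200),
      mul_nonneg hw1 (sq_nonneg (w - 4187 / 200)),
      mul_nonneg (mul_nonneg hw1 hw0) (sq_nonneg (w - 4187 / 200))]
  · norm_num
    nlinarith [mul_nonneg (sq_nonneg w) (sq_nonneg (w - 4427 / 200)),
      mul_nonneg hw0 (sq_nonneg (w - 4427 / 200)), sq_nonneg (w - 4427 / 200),
      mul_nonneg hw1 (sq_nonneg (w - 4427 / 200)),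
      mul_nonneg (mul_nonneg hw1 hw0) (sq_nonneg (w - 4427 / 200))]

theorem theta_large (s w : ℝ) (hs : 20 ≤ s) (hw : 7 / 5 ≤ w) :
    0 < 5 * w ^ 4 + (5 - 9 * s) * w ^ 3 + 5 * (s ^ 3 - s ^ 2 - s - 1) * w +
      (-4 * s ^ 3 + 13 * s ^ 2 + 4 * s - 5) := by
  have hw0 : 0 ≤ w := by linarith
  have hs0 : 0 ≤ s := by linarith
  have s2 : 20 * s ≤ s ^ 2 := by nlinarith
  have s3 : 20 * s ^ 2 ≤ s ^ 3 := by nlinarith [sq_nonneg s]
  have w3 : 0 ≤ w ^ 3 := by positivity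
  obtain ⟨D, hD⟩ : ∃ D : ℝ, D = 5 * w ^ 3 - 9 * s * w ^ 2 + 5 * s ^ 3 := ⟨_, rfl⟩
  have e1 : 5 * w ^ 4 + (5 - 9 * s) * w ^ 3 + 5 * (s ^ 3 - s ^ 2 - s - 1) * w +
      (-4 * s ^ 3 + 13 * s ^ 2 + 4 * s - 5) =
      w * (D - 5 * (s ^ 2 + s + 1)) + 5 * w ^ 3 +
        (-4 * s ^ 3 + 13 * s ^ 2 + 4 * s - 5) := by
    rw [hD]; ring
  rw [e1]
  rcases le_total w (s / 4) with h | h
  · have h1 : 4 * s ^ 3 ≤ D := by
      rw [hD]
      have : w ^ 2 ≤ (s / 4) ^ 2 := pow_le_pow_left₀ hw0 h 2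
      nlinarith
    have h2 : 7 / 2 * s ^ 3 ≤ D - 5 * (s ^ 2 + s + 1) := by nlinarith
    have h3 : 7 / 5 * (7 / 2 * s ^ 3) ≤ w * (D - 5 * (s ^ 2 + s + 1)) :=
      mul_le_mul hw h2 (by positivity) hw0
    nlinarith
  · have h1 : 3 / 5 * s ^ 3 ≤ D := by
      have e2 : D = 5 * (w - 6 / 5 * s) ^ 2 * (w + 3 / 5 * s) + 17 / 25 * s ^ 3 := by
        rw [hD]; ring
      rw [e2]
      have : 0 ≤ 5 * (w - 6 / 5 * s) ^ 2 * (w + 3 / 5 * s) := by positivity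
      have : 0 ≤ s ^ 3 := by positivity
      linarith
    have h1' : w ≤ s / 2 → 11 / 4 * s ^ 3 ≤ D := by
      intro h'
      rw [hD]
      have : w ^ 2 ≤ (s / 2) ^ 2 := pow_le_pow_left₀ hw0 h' 2
      nlinarith
    rcases le_total w (s / 2) with h' | h'
    · have h2 : 2 * s ^ 3 ≤ D - 5 * (s ^ 2 + s + 1) := by
        have := h1' h'
        nlinarith
      have h3 : s / 4 * (2 * s ^ 3) ≤ w * (D - 5 * (s ^ 2 + s + 1)) :=
        mul_le_mul h h2 (by positivity) hw0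
      have h4 : 20 * s ^ 3 ≤ s * s ^ 3 := mul_le_mul_of_nonneg_right hs (by positivity)
      nlinarith
    · have h2 : 8 / 25 * s ^ 3 ≤ D - 5 * (s ^ 2 + s + 1) := by nlinarith
      have h3 : s / 2 * (8 / 25 * s ^ 3) ≤ w * (D - 5 * (s ^ 2 + s + 1)) :=
        mul_le_mul h' h2 (by positivity) hw0
      have h4 : 20 * s ^ 3 ≤ s * s ^ 3 := mul_le_mul_of_nonneg_right hs (by positivity)
      have h5 : 0 ≤ w ^ 3 - (s / 2) ^ 3 := by
        have : (s / 2) ^ 3 ≤ w ^ 3 := pow_le_pow_left₀ (by positivity) h' 3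
        linarith
      nlinarith

theorem theta_pos (s : ℕ) (hs : 2 ≤ s) (w : ℝ) (hw : 7 / 5 ≤ w) :
    0 < 5 * w ^ 4 + (5 - 9 * (s : ℝ)) * w ^ 3 +
      5 * ((s : ℝ) ^ 3 - (s : ℝ) ^ 2 - (s : ℝ) - 1) * w +
      (-4 * (s : ℝ) ^ 3 + 13 * (s : ℝ) ^ 2 + 4 * (s : ℝ) - 5) := by
  rcases Nat.lt_or_ge s 20 with h | h
  · exact theta_small s hs h w hw
  · exact theta_large s w (by exact_mod_cast h) hw

end H152HR
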