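import Mathlib
import Pool.Agent.H152.HR.Num2
import Pool.Agent.H152.HR.Num3

set_option autoImplicit false

namespace H152HR

/-- the numerical inequality behind the bound in terms of the number of inner vertices -/
theorem gen_ineq (v l r s : ℕ) (hv : l + 3 ≤ v) (hs : 2 ≤ s) (h1 : 2 * s ≤ r + 3)
    (h2 : 2 * (s - 1) ^ 2 ≤ 2 * r + l) (hr : 1 ≤ r) :
    18 / (5 * (Real.sqrt v + 3)) < 1 / (s : ℝ) + (r : ℝ) / ((v : ℝ) - l - 2 + r) := by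
  obtain ⟨y, hy⟩ : ∃ y : ℝ, y = Real.sqrt v := ⟨_, rfl⟩
  have hvR : (l : ℝ) + 3 ≤ v := by exact_mod_cast hv
  have hl0 : (0 : ℝ) ≤ l := Nat.cast_nonneg _
  have hyy : y ^ 2 = v := by rw [hy]; exact Real.sq_sqrt (by linarith)
  have hy17 : 17 / 10 ≤ y := by
    rw [hy]
    refine Real.le_sqrt_of_sq_le ?_
    norm_num
    linarith
  rw [← hy]
  have hsR : (2 : ℝ) ≤ s := by exact_mod_cast hs
  have hrR : (1 : ℝ) ≤ r := by exact_mod_cast hr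
  have h1R : 2 * (s : ℝ) ≤ r + 3 := by exact_mod_cast h1
  have h2R : 2 * ((s : ℝ) - 1) ^ 2 ≤ 2 * r + l := by
    obtain ⟨t, rfl⟩ : ∃ t, s = t + 1 := ⟨s - 1, by omega⟩
    rw [Nat.add_sub_cancel] at h2
    have : 2 * (t : ℝ) ^ 2 ≤ 2 * r + l := by exact_mod_cast h2
    push_cast
    rw [add_sub_cancel_right]
    exact this
  have hphi := phi_pos s hs y hy17
  have hpsi := psi_pos s hs y hy17
  obtain ⟨S, hS⟩ : ∃ S : ℝ, S = (s : ℝ) := ⟨_, rfl⟩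
  obtain ⟨R, hR⟩ : ∃ R : ℝ, R = (r : ℝ) := ⟨_, rfl⟩
  obtain ⟨L, hL⟩ : ∃ L : ℝ, L = (l : ℝ) := ⟨_, rfl⟩
  rw [← hyy, ← hL] at hvR
  rw [← hS] at hsR h1R h2R hphi hpsi
  rw [← hR] at hrR h1R h2R
  rw [← hL] at h2R hl0
  rw [← hS, ← hR, ← hL, ← hyy]
  obtain ⟨N, hN⟩ : ∃ N : ℝ, N = y ^ 2 - L - 2 + R := ⟨_, rfl⟩
  rw [← hN]
  have hN0 : 0 < N := by rw [hN]; linarith
  have hS0 : 0 < S := by linarith
  have hy3 : 0 < y + 3 := by linarith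
  rw [div_add_div _ _ hS0.ne' hN0.ne', div_lt_div_iff₀ (by positivity) (by positivity)]
  obtain ⟨κ, hκ⟩ : ∃ κ : ℝ, κ = 18 * S - 5 * (y + 3) := ⟨_, rfl⟩
  suffices h : 0 < 5 * (y + 3) * R * S - κ * N by
    have : (1 * N + S * R) * (5 * (y + 3)) - 18 * (S * N) = 5 * (y + 3) * R * S - κ * N := by
      rw [hκ]; ring
    linarith
  rcases le_or_gt κ 0 with hk | hk
  · have h3 : 0 < 5 * (y + 3) * R * S := by positivity
    have h4 : κ * N ≤ 0 := mul_nonpos_of_nonpos_of_nonneg hk hN0.le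
    linarith
  · have hN1 : N ≤ y ^ 2 - 2 + R := by rw [hN]; linarith
    have hN2 : N ≤ y ^ 2 - 2 - 2 * (S - 1) ^ 2 + 3 * R := by rw [hN]; linarith
    have ePsi : (S - 1) ^ 2 * (5 * (S + 1) * (y + 3) - 18 * S) - κ * (y ^ 2 - 2) =
        5 * y ^ 3 + (15 - 18 * S) * y ^ 2 + (5 * (S + 1) * (S - 1) ^ 2 - 10) * y +
          ((S - 1) ^ 2 * (15 - 3 * S) + 36 * S - 30) := by
      rw [hκ]; ring
    have ePhi : (2 * S - 3) * (5 * S * (y + 3) - 3 * κ) - κ * (y ^ 2 - 2 - 2 * (S - 1) ^ 2) =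
        5 * y ^ 3 + (15 - 18 * S) * y ^ 2 + (35 * S - 65) * y +
          (36 * S ^ 3 - 180 * S ^ 2 + 339 * S - 195) := by
      rw [hκ]; ring
    rcases le_total ((S - 1) ^ 2) R with hc | hc
    · have h3 : κ * N ≤ κ * (y ^ 2 - 2 + R) := mul_le_mul_of_nonneg_left hN1 hk.le
      have h4 : 0 ≤ 5 * (S + 1) * (y + 3) - 18 * S := by nlinarith
      have h5 : (S - 1) ^ 2 * (5 * (S + 1) * (y + 3) - 18 * S) ≤
          R * (5 * (S + 1) * (y + 3) - 18 * S) := mul_le_mul_of_nonneg_right hc h4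
      have h6 : 5 * (y + 3) * R * S - κ * (y ^ 2 - 2 + R) =
          R * (5 * (S + 1) * (y + 3) - 18 * S) - κ * (y ^ 2 - 2) := by rw [hκ]; ring
      linarith
    · have h3 : κ * N ≤ κ * (y ^ 2 - 2 - 2 * (S - 1) ^ 2 + 3 * R) :=
        mul_le_mul_of_nonneg_left hN2 hk.le
      have h6 : 5 * (y + 3) * R * S - κ * (y ^ 2 - 2 - 2 * (S - 1) ^ 2 + 3 * R) =
          R * (5 * S * (y + 3) - 3 * κ) - κ * (y ^ 2 - 2 - 2 * (S - 1) ^ 2) := by ring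
      rcases le_total 0 (5 * S * (y + 3) - 3 * κ) with hd | hd
      · have h5 : (2 * S - 3) * (5 * S * (y + 3) - 3 * κ) ≤ R * (5 * S * (y + 3) - 3 * κ) :=
          mul_le_mul_of_nonneg_right (by linarith) hd
        linarith
      · have h5 : (S - 1) ^ 2 * (5 * S * (y + 3) - 3 * κ) ≤ R * (5 * S * (y + 3) - 3 * κ) :=
          mul_le_mul_of_nonpos_right hc hd
        have h7 : (S - 1) ^ 2 * (5 * S * (y + 3) - 3 * κ) -
            κ * (y ^ 2 - 2 - 2 * (S - 1) ^ 2) =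
            (S - 1) ^ 2 * (5 * (S + 1) * (y + 3) - 18 * S) - κ * (y ^ 2 - 2) := by
          rw [hκ]; ring
        linarith

/-- the numerical inequality for patterns without inner leaves -/
theorem gen_ineq0 (v r s : ℕ) (hv : 3 ≤ v) (hs : 2 ≤ s) (h2 : (s - 1) ^ 2 ≤ r) (hr : 1 ≤ r) :
    9 / (5 * ((v : ℝ) ^ ((1 : ℝ) / 3) + 1)) < 1 / (s : ℝ) + (r : ℝ) / ((v : ℝ) - 2 + r) := by
  obtain ⟨w, hw⟩ : ∃ w : ℝ, w = (v : ℝ) ^ ((1 : ℝ) / 3) := ⟨_, rfl⟩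
  have hvR : (3 : ℝ) ≤ v := by exact_mod_cast hv
  have hw0 : 0 ≤ w := by rw [hw]; positivity
  have hww : w ^ 3 = v := by
    rw [hw, ← Real.rpow_natCast, ← Real.rpow_mul (by linarith)]
    norm_num
  have hw75 : 7 / 5 ≤ w := by
    by_contra hc
    have h3 : w ^ 3 ≤ (7 / 5) ^ 3 := pow_le_pow_left₀ hw0 (not_le.1 hc).le 3
    rw [hww] at h3
    norm_num at h3
    linarith
  rw [← hw]
  have hsR : (2 : ℝ) ≤ s := by exact_mod_cast hs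
  have hrR : (1 : ℝ) ≤ r := by exact_mod_cast hr
  have h2R : ((s : ℝ) - 1) ^ 2 ≤ r := by
    obtain ⟨t, rfl⟩ : ∃ t, s = t + 1 := ⟨s - 1, by omega⟩
    rw [Nat.add_sub_cancel] at h2
    have : (t : ℝ) ^ 2 ≤ r := by exact_mod_cast h2
    push_cast
    rw [add_sub_cancel_right]
    exact this
  have hth := theta_pos s hs w hw75
  obtain ⟨S, hS⟩ : ∃ S : ℝ, S = (s : ℝ) := ⟨_, rfl⟩
  obtain ⟨q, hq⟩ : ∃ q : ℝ, q = (S - 1) ^ 2 := ⟨_, rfl⟩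
  rw [← hS] at hsR h2R hth ⊢
  rw [← hq] at h2R
  have hq1 : 1 ≤ q := by rw [hq]; nlinarith
  have hv2 : (0 : ℝ) < (v : ℝ) - 2 := by linarith
  have h3 : q / ((v : ℝ) - 2 + q) ≤ (r : ℝ) / ((v : ℝ) - 2 + r) := by
    rw [div_le_div_iff₀ (by linarith) (by linarith)]
    nlinarith
  refine lt_of_lt_of_le ?_ (add_le_add_right h3 _)
  rw [← hww] at hv2 ⊢
  have hS0 : 0 < S := by linarith
  have hN0 : 0 < w ^ 3 - 2 + q := by linarith
  have hw1 : 0 < w + 1 := by linarith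
  rw [div_add_div _ _ hS0.ne' hN0.ne', div_lt_div_iff₀ (by positivity) (by positivity)]
  have e1 : (1 * (w ^ 3 - 2 + q) + S * q) * (5 * (w + 1)) - 9 * (S * (w ^ 3 - 2 + q)) =
      5 * w ^ 4 + (5 - 9 * S) * w ^ 3 + 5 * (S ^ 3 - S ^ 2 - S - 1) * w +
        (-4 * S ^ 3 + 13 * S ^ 2 + 4 * S - 5) := by
    rw [hq]; ring
  linarith

/-- the numerical inequality for patterns with a four-cycle -/
theorem four_ineq (v l r t : ℕ) (hv : l + 3 ≤ v) (hv26 : v ≤ 26) (ht : 6 ≤ t)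
    (h2 : 2 * (t - 1) ^ 2 ≤ 2 * r + l) :
    2 / 3 < 1 / (t : ℝ) + (r : ℝ) / ((v : ℝ) - l - 2 + r) := by
  obtain ⟨a, ha⟩ : ∃ a : ℝ, a = ((t : ℝ) - 1) ^ 2 := ⟨_, rfl⟩
  have htR : (6 : ℝ) ≤ t := by exact_mod_cast ht
  have hvR : (l : ℝ) + 3 ≤ v := by exact_mod_cast hv
  have hv26R : (v : ℝ) ≤ 26 := by exact_mod_cast hv26
  have hl0 : (0 : ℝ) ≤ l := Nat.cast_nonneg _
  have hr0 : (0 : ℝ) ≤ r := Nat.cast_nonneg _
  have h2R : 2 * a ≤ 2 * r + l := by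
    obtain ⟨t', rfl⟩ : ∃ t', t = t' + 1 := ⟨t - 1, by omega⟩
    rw [Nat.add_sub_cancel] at h2
    have : 2 * (t' : ℝ) ^ 2 ≤ 2 * r + l := by exact_mod_cast h2
    rw [ha]
    push_cast
    rw [add_sub_cancel_right]
    exact this
  have ha25 : 25 ≤ a := by rw [ha]; nlinarith
  have h3 : a / (24 + a) ≤ (r : ℝ) / ((v : ℝ) - l - 2 + r) := by
    rw [div_le_div_iff₀ (by linarith) (by linarith)]
    have h4 : a * ((v : ℝ) - l - 2 + r) ≤ a * (24 - l + r) :=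
      mul_le_mul_of_nonneg_left (by linarith) (by linarith)
    nlinarith
  refine lt_of_lt_of_le ?_ (add_le_add_right h3 _)
  have ht0 : (0 : ℝ) < t := by linarith
  have ha24 : 0 < 24 + a := by linarith
  rw [div_add_div _ _ ht0.ne' ha24.ne', div_lt_div_iff₀ (by norm_num) (by positivity)]
  rw [ha]
  obtain ⟨x, hx⟩ : ∃ x : ℝ, x = (t : ℝ) - 1 := ⟨_, rfl⟩
  have hxt : (t : ℝ) = x + 1 := by rw [hx]; ring
  rw [hxt] at htR ⊢
  nlinarith [mul_nonneg (show (0:ℝ) ≤ x - 5 by linarith) (show (0:ℝ) ≤ x - 5 by linarith),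
    mul_nonneg (mul_nonneg (show (0:ℝ) ≤ x - 5 by linarith) (show (0:ℝ) ≤ x - 5 by linarith))
      (show (0:ℝ) ≤ x by linarith)]

end H152HR
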