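import Mathlib

set_option autoImplicit false

namespace H152HR

/-- the quadratic inequality behind the bound in terms of the number of vertices -/
theorem quad_pos (s u : ℝ) (k : ℕ) (hk : 3 ≤ k) (hs : 0 < s) (hss : s * s = k) (hu : 2 ≤ u) :
    0 < (s + 2) * (s ^ 2 + 2 * u ^ 2 - u - 5) - 14 / 5 * u * (s ^ 2 + 2 * u - 5) := by
  have hs2 : s ^ 2 = k := by rw [sq]; exact hss
  have hs17 : (17 : ℝ) / 10 < s := by
    have : (3 : ℝ) ≤ k := by exact_mod_cast hk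
    nlinarith
  obtain ⟨y, hy⟩ : ∃ y : ℝ, y = u - 2 := ⟨_, rfl⟩
  have hy0 : 0 ≤ y := by rw [hy]; linarith
  have huy : u = y + 2 := by rw [hy]; ring
  have hA : 0 < 2 * s - 8 / 5 := by linarith
  rcases Nat.lt_or_ge k 6 with h6 | h6
  · -- few vertices
    have hk5 : (k : ℝ) ≤ 5 := by
      have : k ≤ 5 := by omega
      exact_mod_cast this
    have hs5 : s ≤ 2237 / 1000 := by nlinarith
    have e1 : (s + 2) * (s ^ 2 + 2 * u ^ 2 - u - 5) - 14 / 5 * u * (s ^ 2 + 2 * u - 5) =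
        (2 * s - 8 / 5) * y ^ 2 + (4 * (2 * s - 8 / 5) + (12 - s - 14 / 5 * s ^ 2)) * y +
          ((s + 2) * (s ^ 2 + 1) - 28 / 5 * (s ^ 2 - 1)) := by
      rw [huy]
      ring
    rw [e1]
    have e2 : 0 < 4 * (2 * s - 8 / 5) + (12 - s - 14 / 5 * s ^ 2) := by nlinarith
    have e3 : 0 < (s + 2) * (s ^ 2 + 1) - 28 / 5 * (s ^ 2 - 1) := by
      have e4 : (s + 2) * (s ^ 2 + 1) - 28 / 5 * (s ^ 2 - 1) =
        s ^ 3 - 18 / 5 * s ^ 2 + s + 38 / 5 := by ring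
      rw [e4]
      have e5 : 0 ≤ (s - 2) ^ 2 * (s + 2 / 5) := by positivity
      nlinarith
    have e6 : 0 ≤ (2 * s - 8 / 5) * y ^ 2 := by positivity
    have e7 : 0 ≤ (4 * (2 * s - 8 / 5) + (12 - s - 14 / 5 * s ^ 2)) * y :=
      mul_nonneg e2.le hy0
    linarith
  · -- a negative discriminant
    have hk6 : (6 : ℝ) ≤ k := by exact_mod_cast h6
    have hs6 : (244 : ℝ) / 100 ≤ s := by
      by_contra hc
      have hc' : s < 244 / 100 := not_le.1 hc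
      nlinarith
    obtain ⟨z, hz⟩ : ∃ z : ℝ, z = s - 244 / 100 := ⟨_, rfl⟩
    have hz0 : 0 ≤ z := by rw [hz]; linarith
    have hsz : s = z + 244 / 100 := by rw [hz]; ring
    have hdisc : 0 < 4 / 25 * s ^ 4 + 4 * s ^ 3 + 67 / 5 * s ^ 2 - 24 * s - 80 := by
      rw [hsz]
      have z2 : 0 ≤ z ^ 2 := by positivity
      have z3 : 0 ≤ z ^ 3 := by positivity
      have z4 : 0 ≤ z ^ 4 := by positivity
      nlinarith
    have e1 : 4 * (2 * s - 8 / 5) *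
        ((s + 2) * (s ^ 2 + 2 * u ^ 2 - u - 5) - 14 / 5 * u * (s ^ 2 + 2 * u - 5)) =
        (2 * (2 * s - 8 / 5) * u + (12 - s - 14 / 5 * s ^ 2)) ^ 2 +
          (4 / 25 * s ^ 4 + 4 * s ^ 3 + 67 / 5 * s ^ 2 - 24 * s - 80) := by
      ring
    have e2 : 0 < 4 * (2 * s - 8 / 5) *
        ((s + 2) * (s ^ 2 + 2 * u ^ 2 - u - 5) - 14 / 5 * u * (s ^ 2 + 2 * u - 5)) := by
      rw [e1]
      positivity
    have e3 : 0 < 4 * (2 * s - 8 / 5) := by linarith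
    exact (mul_pos_iff_of_pos_left e3).1 e2

/-- the numerical inequality behind the bound in terms of the number of vertices -/
theorem numeric_general (k r : ℕ) (hk : 3 ≤ k) (hr : 1 ≤ r) :
    14 / (5 * (Real.sqrt k + 2)) <
      1 / (((r + 1) / 2 + 1 : ℕ) : ℝ) + (r : ℝ) / ((k : ℝ) - 2 + r) := by
  obtain ⟨s, hs⟩ : ∃ s : ℝ, s = Real.sqrt k := ⟨_, rfl⟩
  have hkR : (3 : ℝ) ≤ k := by exact_mod_cast hk
  have hrR : (1 : ℝ) ≤ r := by exact_mod_cast hr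
  have hss : s * s = k := by rw [hs]; exact Real.mul_self_sqrt (by linarith)
  have hs0 : 0 < s := by rw [hs]; exact Real.sqrt_pos.2 (by linarith)
  rw [← hs]
  obtain ⟨u, hu⟩ : ∃ u : ℕ, u = (r + 1) / 2 + 1 := ⟨_, rfl⟩
  rw [← hu]
  have hu2 : 2 ≤ u := by omega
  have hur : 2 * u ≤ r + 3 := by omega
  have hu2R : (2 : ℝ) ≤ u := by exact_mod_cast hu2
  have hurR : 2 * (u : ℝ) ≤ r + 3 := by exact_mod_cast hur
  have h1 : (2 * (u : ℝ) - 3) / ((k : ℝ) + 2 * u - 5) ≤ (r : ℝ) / ((k : ℝ) - 2 + r) := by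
    rw [div_le_div_iff₀ (by linarith) (by linarith)]
    nlinarith
  refine lt_of_lt_of_le ?_ (add_le_add_right h1 _)
  have h2 := quad_pos s u k hk hs0 hss hu2R
  have h3 : (0 : ℝ) < (k : ℝ) + 2 * u - 5 := by linarith
  have h4 : (0 : ℝ) < u := by linarith
  rw [div_add_div _ _ h4.ne' h3.ne', div_lt_div_iff₀ (by positivity) (by positivity)]
  rw [← hss]
  nlinarith

end H152HR
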