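import Mathlib
import Pool.Agent.H152.TT.Defs

set_option autoImplicit false

open Finset

namespace H152HR

open H152TT

theorem cycle_edges (n : ℕ) (hn : 3 ≤ n) : (SimpleGraph.cycleGraph n).edgeFinset.card = n := by
  obtain ⟨m, rfl⟩ : ∃ m, n = m + 3 := ⟨n - 3, by omega⟩
  have h1 := SimpleGraph.sum_degrees_eq_twice_card_edges (SimpleGraph.cycleGraph (m + 3))
  have h2 : ∑ v, (SimpleGraph.cycleGraph (m + 3)).degree v = ∑ _v : Fin (m + 3), 2 :=
    Finset.sum_congr rfl fun v _ => SimpleGraph.cycleGraph_degree_three_le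
  rw [h2, Finset.sum_const, Finset.card_univ, Fintype.card_fin, smul_eq_mul] at h1
  omega

theorem contained_edges {n k : ℕ} (C : SimpleGraph (Fin n)) (P : SimpleGraph (Fin k))
    (h : C.IsContained P) : C.edgeSet.ncard ≤ P.edgeSet.ncard := by
  classical
  obtain ⟨⟨f, hf⟩⟩ := h
  have h1 : Function.Injective (SimpleGraph.Hom.mapEdgeSet f) :=
    SimpleGraph.Hom.mapEdgeSet.injective f hf
  rw [← Nat.card_coe_set_eq, ← Nat.card_coe_set_eq]
  exact Nat.card_le_card_of_injective _ h1

/-- a short cycle in an ordered bipartite pattern with few vertices or few edges -/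
theorem exists_short {k : ℕ} (P : SimpleGraph (Fin k)) (hO : OrdBip P)
    (hk : k ≤ 11 ∨ P.edgeSet.ncard ≤ 11) (h : ¬ P.IsAcyclic) :
    ∃ r : ℕ, 2 ≤ r ∧ r ≤ 5 ∧ (SimpleGraph.cycleGraph (2 * r)).IsContained P := by
  classical
  rw [SimpleGraph.isAcyclic_iff_free_cycleGraph] at h
  obtain ⟨n, hn, hc⟩ : ∃ n : ℕ, 3 ≤ n ∧ (SimpleGraph.cycleGraph n).IsContained P := by
    by_contra hcon
    exact h fun n hn hc => hcon ⟨n, hn, hc⟩
  obtain ⟨m, hm⟩ := hO
  have hnk : n ≤ 11 := by
    rcases hk with hk | hk
    · obtain ⟨⟨f, hf⟩⟩ := hc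
      have := Fintype.card_le_of_injective f hf
      rw [Fintype.card_fin, Fintype.card_fin] at this
      omega
    · have h1 := contained_edges _ P hc
      have h2 : (SimpleGraph.cycleGraph n).edgeSet.ncard = n := by
        have h3 := cycle_edges n hn
        rw [Set.ncard_eq_toFinset_card']
        exact h3
      omega
  have hcol : P.Colorable 2 := by
    refine ⟨SimpleGraph.Coloring.mk (fun x => if x.val < m then (0 : Fin 2) else 1) ?_⟩
    intro u v huv
    have := hm u v huv
    by_cases h1 : u.val < m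
    · have h2 : ¬ v.val < m := by have := this.1 h1; omega
      rw [if_pos h1, if_neg h2]
      decide
    · have h2 : v.val < m := by
        by_contra h3
        exact h1 (this.2 (by omega))
      rw [if_neg h1, if_pos h2]
      decide
  have hcol' : (SimpleGraph.cycleGraph n).Colorable 2 := by
    obtain ⟨⟨f, hf⟩⟩ := hc
    exact hcol.of_hom f
  have heven : Even n := by
    by_contra hodd
    rw [Nat.not_even_iff_odd] at hodd
    have h1 := SimpleGraph.chromaticNumber_cycleGraph_of_odd n (by omega) hodd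
    have h2 := hcol'.chromaticNumber_le
    rw [h1] at h2
    exact absurd h2 (by decide)
  obtain ⟨r, hr⟩ := heven
  refine ⟨r, by omega, by omega, ?_⟩
  have : n = 2 * r := by omega
  rw [← this]
  exact hc

end H152HR
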