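import Mathlib
import Pool.Agent.H152.TT.Lower

set_option autoImplicit false

open Finset

namespace H152HR

open H152TT

/-- the maps `x s, x² s` -/
def fD (q : ℕ) : ZMod q → ZMod q → Fin 2 → ZMod q := fun x s j => x ^ (j.val + 1) * s

theorem free_D {q : ℕ} (hq : q.Prime) (x s : ℕ → ZMod q)
    (hx : ∀ i, x i ≠ x (i+1)) (hs : ∀ i, s i ≠ s (i+1)) (hxk : x 3 = x 0) (hsk : s 3 = s 0)
    (hsum : ∀ j, ∑ i ∈ range 3, (fD q (x i) (s i) j - fD q (x (i+1)) (s i) j) = 0) : False := by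
  haveI : Fact q.Prime := ⟨hq⟩
  have hmom : ∀ j, 1 ≤ j → j ≤ 2 → ∑ i ∈ range 3, (x i ^ j * s i - x (i+1) ^ j * s i) = 0 := by
    intro j h1 h4
    have := hsum ⟨j - 1, by omega⟩
    unfold fD at this
    simp only [Nat.sub_add_cancel h1] at this
    exact this
  have h := moment_test 3 2 x s hmom {x 1, x 2} Finset.card_le_two
  simp only [Finset.sum_range_succ, Finset.sum_range_zero, zero_add, Nat.reduceAdd] at h
  rw [hxk] at h
  have z1 : ∏ d ∈ ({x 1, x 2} : Finset (ZMod q)), (x 1 - d) = 0 :=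
    Finset.prod_eq_zero (Finset.mem_insert_self _ _) (sub_self _)
  have z2 : ∏ d ∈ ({x 1, x 2} : Finset (ZMod q)), (x 2 - d) = 0 :=
    Finset.prod_eq_zero (Finset.mem_insert_of_mem (Finset.mem_singleton_self _)) (sub_self _)
  have z0 : ∏ d ∈ ({x 1, x 2} : Finset (ZMod q)), (x 0 - d) ≠ 0 := by
    rw [Finset.prod_ne_zero_iff]
    intro d hd
    rw [sub_ne_zero]
    simp only [Finset.mem_insert, Finset.mem_singleton] at hd
    rcases hd with rfl | rfl
    · exact hx 0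
    · rw [← hxk]; exact (hx 2).symm
  rw [z1, z2] at h
  have h2 : (s 0 - s 2) * ∏ d ∈ ({x 1, x 2} : Finset (ZMod q)), (x 0 - d) = 0 := by
    linear_combination h
  rcases mul_eq_zero.1 h2 with h3 | h3
  · exact hs 2 (by rw [hsk]; exact (sub_eq_zero.1 h3).symm)
  · exact z0 h3

theorem ex_prime_six (q N : ℕ) (hq : q.Prime) (hN : 2 * q ^ (2 + 1) ≤ N) :
    q ^ (2 + 2) ≤ SimpleGraph.extremalNumber N (SimpleGraph.cycleGraph (2 * 3)) := by
  classical
  haveI : Fact q.Prime := ⟨hq⟩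
  haveI : NeZero q := ⟨hq.ne_zero⟩
  have hcard : Fintype.card (LV q 2) ≤ Fintype.card (Fin N) := by
    rw [Fintype.card_fin, Fintype.card_prod, Fintype.card_prod, Fintype.card_bool, ZMod.card,
      Fintype.card_fun, ZMod.card, Fintype.card_fin]
    refine le_trans (le_of_eq ?_) hN
    ring
  obtain ⟨e⟩ := Function.Embedding.nonempty_of_card_le hcard
  refine lift_edges q 2 N (fD q) e _ ?_
  intro hcon
  obtain ⟨p, hp, hpe⟩ := cycle_seq_map _ e 3 (by norm_num) hcon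
  obtain ⟨x, s, hx, hs, hxk, hsk, hsum⟩ := lift_seq (fD q) 3 (by norm_num) p hp hpe
  exact free_D hq x s hx hs hxk hsk hsum

theorem ex_lower_six :
    ∃ c : ℝ, 0 < c ∧ ∃ N0 : ℕ, ∀ n : ℕ, N0 ≤ n → c * (n : ℝ) ^ ((4 : ℝ) / 3) ≤
      (SimpleGraph.extremalNumber n (SimpleGraph.cycleGraph (2 * 3)) : ℝ) := by
  obtain ⟨c, hc, N0, h⟩ := transfer 2
    (fun N => SimpleGraph.extremalNumber N (SimpleGraph.cycleGraph (2 * 3)))
    (fun q N hq _ hN => ex_prime_six q N hq hN)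
  refine ⟨c, hc, N0, fun n hn => ?_⟩
  have := h n hn
  norm_num at this ⊢
  exact this

end H152HR
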