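import Mathlib
import Pool.Agent.H152.TT.Small
import Pool.Agent.H152.HR.Side

set_option autoImplicit false

open Finset

namespace H152HR

open H152TT

theorem union_three {α : Type} [DecidableEq α] (X Y Z : Finset α) (h1 : (X ∩ Y).card ≤ 1)
    (h2 : (X ∩ Z).card ≤ 1) (h3 : (Y ∩ Z).card ≤ 1) :
    X.card + Y.card + Z.card ≤ (X ∪ Y ∪ Z).card + 3 := by
  have e1 := Finset.card_union_add_card_inter X Y
  have e2 := Finset.card_union_add_card_inter (X ∪ Y) Z
  have e3 : ((X ∪ Y) ∩ Z).card ≤ 2 := by
    rw [Finset.union_inter_distrib_right]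
    exact (card_union_le _ _).trans (by omega)
  omega

open Classical in
/-- patterns without four-cycles on at most eleven vertices or with at most eleven edges -/
theorem side_small {k : ℕ} (P : SimpleGraph (Fin k)) (hO : OrdBip P)
    (hfree : ¬ (SimpleGraph.cycleGraph (2 * 2)).IsContained P)
    (h : k ≤ 11 ∨ P.edgeSet.ncard ≤ 11) : HubSide 2 P := by
  obtain ⟨m, hm⟩ := hO
  obtain ⟨N, hN⟩ : ∃ N : Fin k → Finset (Fin k), ∀ w, N w = univ.filter (fun v => P.Adj w v) :=
    ⟨_, fun _ => rfl⟩
  have hmem : ∀ w v, v ∈ N w ↔ P.Adj w v := by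
    intro w v
    rw [hN, mem_filter]
    simp
  have hNc : ∀ w, (P.neighborSet w).ncard = (N w).card := by
    intro w
    rw [← Set.ncard_coe_finset]
    congr 1
    ext v
    rw [SimpleGraph.mem_neighborSet, Finset.mem_coe, hmem]
  have hcom : ∀ a b, a ≠ b → (N a ∩ N b).card ≤ 1 := by
    intro a b hab
    rw [Finset.card_le_one]
    intro y hy y' hy'
    by_contra hne
    rw [mem_inter, hmem, hmem] at hy hy'
    exact hfree (c4_of_common P a b y y' hab hne hy.1 hy'.1 hy.2 hy'.2)
  obtain ⟨rows, hrows⟩ : ∃ S : Finset (Fin k), S = univ.filter (fun w => w.val < m) := ⟨_, rfl⟩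
  obtain ⟨cols, hcols⟩ : ∃ S : Finset (Fin k), S = univ.filter (fun w => ¬ w.val < m) := ⟨_, rfl⟩
  have hrc : rows.card + cols.card = k := by
    rw [hrows, hcols, Finset.card_filter_add_card_filter_not, card_univ, Fintype.card_fin]
  have hNrow : ∀ w ∈ rows, N w ⊆ cols := by
    intro w hw v hv
    rw [hrows, mem_filter] at hw
    rw [hmem] at hv
    rw [hcols, mem_filter]
    have := (hm w v hv).1 hw.2
    exact ⟨mem_univ _, by omega⟩
  have hNcol : ∀ w ∈ cols, N w ⊆ rows := by
    intro w hw v hv
    rw [hcols, mem_filter] at hw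
    rw [hmem] at hv
    rw [hrows, mem_filter]
    refine ⟨mem_univ _, ?_⟩
    by_contra hc
    exact hw.2 ((hm w v hv).2 (by omega))
  by_cases hA : (rows.filter (fun w => 3 ≤ (N w).card)).card ≤ 2
  · refine ⟨m, rows.filter (fun w => 3 ≤ (N w).card), hm, hA, Or.inl ?_⟩
    intro w hw hwA
    rw [hNc]
    by_contra hc
    exact hwA (mem_filter.2 ⟨by rw [hrows, mem_filter]; exact ⟨mem_univ _, hw⟩, by omega⟩)
  by_cases hB : (cols.filter (fun w => 3 ≤ (N w).card)).card ≤ 2
  · refine ⟨m, cols.filter (fun w => 3 ≤ (N w).card), hm, hB, Or.inr ?_⟩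
    intro w hw hwA
    rw [hNc]
    by_contra hc
    exact hwA (mem_filter.2 ⟨by rw [hcols, mem_filter]; exact ⟨mem_univ _, by omega⟩, by omega⟩)
  exfalso
  obtain ⟨A3, hA3, hA3c⟩ := Finset.exists_subset_card_eq (show 3 ≤ _ from by omega : 3 ≤
    (rows.filter (fun w => 3 ≤ (N w).card)).card)
  obtain ⟨B3, hB3, hB3c⟩ := Finset.exists_subset_card_eq (show 3 ≤ _ from by omega : 3 ≤
    (cols.filter (fun w => 3 ≤ (N w).card)).card)
  obtain ⟨a, b, c, hab, hac, hbc, hAe⟩ := Finset.card_eq_three.1 hA3c
  obtain ⟨a', b', c', hab', hac', hbc', hBe⟩ := Finset.card_eq_three.1 hB3c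
  have hArow : ∀ w ∈ A3, w ∈ rows ∧ 3 ≤ (N w).card := fun w hw => mem_filter.1 (hA3 hw)
  have hBcol : ∀ w ∈ B3, w ∈ cols ∧ 3 ≤ (N w).card := fun w hw => mem_filter.1 (hB3 hw)
  have haA : a ∈ A3 := by rw [hAe]; simp
  have hbA : b ∈ A3 := by rw [hAe]; simp
  have hcA : c ∈ A3 := by rw [hAe]; simp
  have haB : a' ∈ B3 := by rw [hBe]; simp
  have hbB : b' ∈ B3 := by rw [hBe]; simp
  have hcB : c' ∈ B3 := by rw [hBe]; simp
  have ga := (hArow a haA).2
  have gb := (hArow b hbA).2
  have gc := (hArow c hcA).2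
  have ga' := (hBcol a' haB).2
  have gb' := (hBcol b' hbB).2
  have gc' := (hBcol c' hcB).2
  rcases h with hk | he
  · have u1 := union_three (N a) (N b) (N c) (hcom a b hab) (hcom a c hac) (hcom b c hbc)
    have u2 := union_three (N a') (N b') (N c') (hcom a' b' hab') (hcom a' c' hac')
      (hcom b' c' hbc')
    have s1 : (N a ∪ N b ∪ N c).card ≤ cols.card := card_le_card (union_subset (union_subset
      (hNrow a (hArow a haA).1) (hNrow b (hArow b hbA).1)) (hNrow c (hArow c hcA).1))
    have s2 : (N a' ∪ N b' ∪ N c').card ≤ rows.card := card_le_card (union_subset (union_subset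
      (hNcol a' (hBcol a' haB).1) (hNcol b' (hBcol b' hbB).1)) (hNcol c' (hBcol c' hcB).1))
    omega
  · have e1 := edges_eq P m hm
    rw [← hrows] at e1
    have e2 : ∑ w ∈ rows, (P.neighborSet w).ncard = ∑ w ∈ rows, (N w).card :=
      Finset.sum_congr rfl fun w _ => hNc w
    have hA3rows : A3 ⊆ rows := fun w hw => (hArow w hw).1
    have e3 : ∑ w ∈ rows \ A3, (N w).card + ∑ w ∈ A3, (N w).card = ∑ w ∈ rows, (N w).card :=
      Finset.sum_sdiff hA3rows
    have e4 : ∑ w ∈ A3, (N w).card = (N a).card + (N b).card + (N c).card := by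
      rw [hAe, Finset.sum_insert (by simp [hab, hac]), Finset.sum_insert (by simp [hbc]),
        Finset.sum_singleton]
      ring
    have e5 : ∑ w ∈ rows \ A3, (N w ∩ B3).card ≤ ∑ w ∈ rows \ A3, (N w).card :=
      Finset.sum_le_sum fun w _ => card_le_card inter_subset_left
    have e6 : ∑ w ∈ rows \ A3, (N w ∩ B3).card + ∑ w ∈ A3, (N w ∩ B3).card =
        ∑ w ∈ rows, (N w ∩ B3).card := Finset.sum_sdiff hA3rows
    have e7 : ∑ w ∈ A3, (N w ∩ B3).card = (N a ∩ B3).card + (N b ∩ B3).card +
        (N c ∩ B3).card := by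
      rw [hAe, Finset.sum_insert (by simp [hab, hac]), Finset.sum_insert (by simp [hbc]),
        Finset.sum_singleton]
      ring
    have e8 := union_three (N a ∩ B3) (N b ∩ B3) (N c ∩ B3)
      ((card_le_card (inter_subset_inter inter_subset_left inter_subset_left)).trans
        (hcom a b hab))
      ((card_le_card (inter_subset_inter inter_subset_left inter_subset_left)).trans
        (hcom a c hac))
      ((card_le_card (inter_subset_inter inter_subset_left inter_subset_left)).trans
        (hcom b c hbc))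
    have e9 : (N a ∩ B3 ∪ N b ∩ B3 ∪ N c ∩ B3).card ≤ B3.card := card_le_card
      (union_subset (union_subset inter_subset_right inter_subset_right) inter_subset_right)
    have e10 : ∑ w ∈ rows, (N w ∩ B3).card = ∑ v ∈ B3, (N v).card := by
      have f1 : ∀ w ∈ rows, (N w ∩ B3).card = (B3.filter (fun v => P.Adj w v)).card := by
        intro w _
        congr 1
        ext v
        rw [mem_inter, hmem, mem_filter]
        tauto
      have f2 : ∀ v ∈ B3, (N v).card = (rows.filter (fun w => P.Adj w v)).card := by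
        intro v hv
        congr 1
        ext w
        rw [hmem, mem_filter]
        constructor
        · intro h
          exact ⟨hNcol v (hBcol v hv).1 ((hmem v w).2 h), h.symm⟩
        · intro h
          exact h.2.symm
      rw [Finset.sum_congr rfl f1, Finset.sum_congr rfl f2]
      exact Finset.sum_card_bipartiteAbove_eq_sum_card_bipartiteBelow (fun w v => P.Adj w v)
    have e11 : ∑ v ∈ B3, (N v).card = (N a').card + (N b').card + (N c').card := by
      rw [hBe, Finset.sum_insert (by simp [hab', hac']), Finset.sum_insert (by simp [hbc']),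
        Finset.sum_singleton]
      ring
    omega

end H152HR
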