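import Mathlib
import Pool.Agent.H152.TT.Small
import Pool.Agent.H152.HR.Side
import Pool.Agent.H152.HR.Side2
import Pool.Agent.H152.HR.Small2
import Pool.Agent.H152.HR.Short

set_option autoImplicit false

open Finset

namespace H152HR

open H152TT

open Classical in
/-- graphs without four-cycles on at most eleven vertices or with at most eleven edges -/
theorem side_small_m {k : ℕ} (P : SimpleGraph (Fin k)) (m : ℕ)
    (hm : ∀ u v, P.Adj u v → (u.val < m ↔ m ≤ v.val))
    (hfree : ¬ (SimpleGraph.cycleGraph (2 * 2)).IsContained P) (S : Finset (Fin k))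
    (hS : ∀ u v, P.Adj u v → v ∈ S)
    (h : S.card ≤ 11 ∨ P.edgeSet.ncard ≤ 11) : ∃ A : Finset (Fin k), A.card ≤ 2 ∧
      ((∀ w, w.val < m → w ∉ A → (P.neighborSet w).ncard ≤ 2) ∨
        (∀ w, m ≤ w.val → w ∉ A → (P.neighborSet w).ncard ≤ 2)) := by
  obtain ⟨N, hN⟩ : ∃ N : Fin k → Finset (Fin k), ∀ w, N w = univ.filter (fun v => P.Adj w v) :=
    ⟨_, fun _ => rfl⟩
  have hmem : ∀ w v, v ∈ N w ↔ P.Adj w v := by
    intro w v
    rw [hN, mem_filter]
    simp
  have hNc : ∀ w, (P.neighborSet w).ncard = (N w).card := by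
    intro w
    rw [← Set.ncard_coe_finset]
    congr 1
    ext v
    rw [SimpleGraph.mem_neighborSet, Finset.mem_coe, hmem]
  have hcom : ∀ a b, a ≠ b → (N a ∩ N b).card ≤ 1 := by
    intro a b hab
    rw [Finset.card_le_one]
    intro y hy y' hy'
    by_contra hne
    rw [mem_inter, hmem, hmem] at hy hy'
    exact hfree (c4_of_common P a b y y' hab hne hy.1 hy'.1 hy.2 hy'.2)
  obtain ⟨rows, hrows⟩ : ∃ S : Finset (Fin k), S = univ.filter (fun w => w.val < m) := ⟨_, rfl⟩
  obtain ⟨cols, hcols⟩ : ∃ S : Finset (Fin k), S = univ.filter (fun w => ¬ w.val < m) := ⟨_, rfl⟩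
  have hrc : (S ∩ rows).card + (S ∩ cols).card ≤ S.card := by
    rw [← card_union_of_disjoint]
    · exact card_le_card (union_subset inter_subset_left inter_subset_left)
    · rw [Finset.disjoint_left]
      intro x hx hx'
      have h1 := (mem_inter.1 hx).2
      have h2 := (mem_inter.1 hx').2
      rw [hrows, mem_filter] at h1
      rw [hcols, mem_filter] at h2
      exact h2.2 h1.2
  have hNrow : ∀ w ∈ rows, N w ⊆ S ∩ cols := by
    intro w hw v hv
    rw [hrows, mem_filter] at hw
    rw [hmem] at hv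
    rw [mem_inter, hcols, mem_filter]
    have := (hm w v hv).1 hw.2
    exact ⟨hS w v hv, mem_univ _, by omega⟩
  have hNcol : ∀ w ∈ cols, N w ⊆ S ∩ rows := by
    intro w hw v hv
    rw [hcols, mem_filter] at hw
    rw [hmem] at hv
    rw [mem_inter, hrows, mem_filter]
    refine ⟨hS w v hv, mem_univ _, ?_⟩
    by_contra hc
    exact hw.2 ((hm w v hv).2 (by omega))
  by_cases hA : (rows.filter (fun w => 3 ≤ (N w).card)).card ≤ 2
  · refine ⟨rows.filter (fun w => 3 ≤ (N w).card), hA, Or.inl ?_⟩
    intro w hw hwA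
    rw [hNc]
    by_contra hc
    exact hwA (mem_filter.2 ⟨by rw [hrows, mem_filter]; exact ⟨mem_univ _, hw⟩, by omega⟩)
  by_cases hB : (cols.filter (fun w => 3 ≤ (N w).card)).card ≤ 2
  · refine ⟨cols.filter (fun w => 3 ≤ (N w).card), hB, Or.inr ?_⟩
    intro w hw hwA
    rw [hNc]
    by_contra hc
    exact hwA (mem_filter.2 ⟨by rw [hcols, mem_filter]; exact ⟨mem_univ _, by omega⟩, by omega⟩)
  exfalso
  obtain ⟨A3, hA3, hA3c⟩ := Finset.exists_subset_card_eq (show 3 ≤ _ from by omega : 3 ≤
    (rows.filter (fun w => 3 ≤ (N w).card)).card)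
  obtain ⟨B3, hB3, hB3c⟩ := Finset.exists_subset_card_eq (show 3 ≤ _ from by omega : 3 ≤
    (cols.filter (fun w => 3 ≤ (N w).card)).card)
  obtain ⟨a, b, c, hab, hac, hbc, hAe⟩ := Finset.card_eq_three.1 hA3c
  obtain ⟨a', b', c', hab', hac', hbc', hBe⟩ := Finset.card_eq_three.1 hB3c
  have hArow : ∀ w ∈ A3, w ∈ rows ∧ 3 ≤ (N w).card := fun w hw => mem_filter.1 (hA3 hw)
  have hBcol : ∀ w ∈ B3, w ∈ cols ∧ 3 ≤ (N w).card := fun w hw => mem_filter.1 (hB3 hw)
  have haA : a ∈ A3 := by rw [hAe]; simp
  have hbA : b ∈ A3 := by rw [hAe]; simp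
  have hcA : c ∈ A3 := by rw [hAe]; simp
  have haB : a' ∈ B3 := by rw [hBe]; simp
  have hbB : b' ∈ B3 := by rw [hBe]; simp
  have hcB : c' ∈ B3 := by rw [hBe]; simp
  have ga := (hArow a haA).2
  have gb := (hArow b hbA).2
  have gc := (hArow c hcA).2
  have ga' := (hBcol a' haB).2
  have gb' := (hBcol b' hbB).2
  have gc' := (hBcol c' hcB).2
  rcases h with hk | he
  · have u1 := union_three (N a) (N b) (N c) (hcom a b hab) (hcom a c hac) (hcom b c hbc)
    have u2 := union_three (N a') (N b') (N c') (hcom a' b' hab') (hcom a' c' hac')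
      (hcom b' c' hbc')
    have s1 : (N a ∪ N b ∪ N c).card ≤ (S ∩ cols).card := card_le_card (union_subset (union_subset
      (hNrow a (hArow a haA).1) (hNrow b (hArow b hbA).1)) (hNrow c (hArow c hcA).1))
    have s2 : (N a' ∪ N b' ∪ N c').card ≤ (S ∩ rows).card := card_le_card (union_subset (union_subset
      (hNcol a' (hBcol a' haB).1) (hNcol b' (hBcol b' hbB).1)) (hNcol c' (hBcol c' hcB).1))
    omega
  · have e1 := edges_eq P m hm
    rw [← hrows] at e1
    have e2 : ∑ w ∈ rows, (P.neighborSet w).ncard = ∑ w ∈ rows, (N w).card :=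
      Finset.sum_congr rfl fun w _ => hNc w
    have hA3rows : A3 ⊆ rows := fun w hw => (hArow w hw).1
    have e3 : ∑ w ∈ rows \ A3, (N w).card + ∑ w ∈ A3, (N w).card = ∑ w ∈ rows, (N w).card :=
      Finset.sum_sdiff hA3rows
    have e4 : ∑ w ∈ A3, (N w).card = (N a).card + (N b).card + (N c).card := by
      rw [hAe, Finset.sum_insert (by simp [hab, hac]), Finset.sum_insert (by simp [hbc]),
        Finset.sum_singleton]
      ring
    have e5 : ∑ w ∈ rows \ A3, (N w ∩ B3).card ≤ ∑ w ∈ rows \ A3, (N w).card :=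
      Finset.sum_le_sum fun w _ => card_le_card inter_subset_left
    have e6 : ∑ w ∈ rows \ A3, (N w ∩ B3).card + ∑ w ∈ A3, (N w ∩ B3).card =
        ∑ w ∈ rows, (N w ∩ B3).card := Finset.sum_sdiff hA3rows
    have e7 : ∑ w ∈ A3, (N w ∩ B3).card = (N a ∩ B3).card + (N b ∩ B3).card +
        (N c ∩ B3).card := by
      rw [hAe, Finset.sum_insert (by simp [hab, hac]), Finset.sum_insert (by simp [hbc]),
        Finset.sum_singleton]
      ring
    have e8 := union_three (N a ∩ B3) (N b ∩ B3) (N c ∩ B3)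
      ((card_le_card (inter_subset_inter inter_subset_left inter_subset_left)).trans
        (hcom a b hab))
      ((card_le_card (inter_subset_inter inter_subset_left inter_subset_left)).trans
        (hcom a c hac))
      ((card_le_card (inter_subset_inter inter_subset_left inter_subset_left)).trans
        (hcom b c hbc))
    have e9 : (N a ∩ B3 ∪ N b ∩ B3 ∪ N c ∩ B3).card ≤ B3.card := card_le_card
      (union_subset (union_subset inter_subset_right inter_subset_right) inter_subset_right)
    have e10 : ∑ w ∈ rows, (N w ∩ B3).card = ∑ v ∈ B3, (N v).card := by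
      have f1 : ∀ w ∈ rows, (N w ∩ B3).card = (B3.filter (fun v => P.Adj w v)).card := by
        intro w _
        congr 1
        ext v
        rw [mem_inter, hmem, mem_filter]
        tauto
      have f2 : ∀ v ∈ B3, (N v).card = (rows.filter (fun w => P.Adj w v)).card := by
        intro v hv
        congr 1
        ext w
        rw [hmem, mem_filter]
        constructor
        · intro h
          exact ⟨(mem_inter.1 (hNcol v (hBcol v hv).1 ((hmem v w).2 h))).2, h.symm⟩
        · intro h
          exact h.2.symm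
      rw [Finset.sum_congr rfl f1, Finset.sum_congr rfl f2]
      exact Finset.sum_card_bipartiteAbove_eq_sum_card_bipartiteBelow (fun w v => P.Adj w v)
    have e11 : ∑ v ∈ B3, (N v).card = (N a').card + (N b').card + (N c').card := by
      rw [hBe, Finset.sum_insert (by simp [hab', hac']), Finset.sum_insert (by simp [hbc']),
        Finset.sum_singleton]
      ring
    omega

/-- cycles consist of inner edges -/
theorem cyc_inn {k : ℕ} (P : SimpleGraph (Fin k)) (n : ℕ) (hn : 3 ≤ n)
    (h : (SimpleGraph.cycleGraph n).IsContained P) :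
    (SimpleGraph.cycleGraph n).IsContained (inn P) := by
  classical
  obtain ⟨m, rfl⟩ : ∃ m, n = m + 3 := ⟨n - 3, by omega⟩
  obtain ⟨⟨f, hf⟩⟩ := h
  have hd : ∀ u, 2 ≤ (P.neighborSet (f u)).ncard := by
    intro u
    have h1 : ((SimpleGraph.cycleGraph (m + 3)).neighborSet u).ncard = 2 := by
      have h2 : (SimpleGraph.cycleGraph (m + 3)).degree u = 2 :=
        SimpleGraph.cycleGraph_degree_three_le
      rw [Set.ncard_eq_toFinset_card']
      exact h2
    rw [← h1, ← Set.ncard_image_of_injective _ hf]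
    refine Set.ncard_le_ncard ?_ (Set.toFinite _)
    rintro _ ⟨w, hw, rfl⟩
    exact f.map_adj hw
  exact ⟨⟨⟨f, fun {a b} hab => ⟨f.map_adj hab, hd a, hd b⟩⟩, hf⟩⟩

/-- the set of inner vertices -/
theorem cyc_verts {k : ℕ} (P : SimpleGraph (Fin k)) (n : ℕ) (hn : 3 ≤ n)
    (h : (SimpleGraph.cycleGraph n).IsContained P) : n ≤ innerVerts P := by
  classical
  obtain ⟨⟨f, hf⟩⟩ := cyc_inn P n hn h
  have h1 : (Set.range f).ncard = n := by
    rw [← Set.image_univ, Set.ncard_image_of_injective _ hf, Set.ncard_univ, Nat.card_fin]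
  rw [← h1]
  unfold innerVerts
  refine Set.ncard_le_ncard ?_ (Set.toFinite _)
  rintro _ ⟨u, rfl⟩
  obtain ⟨m, rfl⟩ : ∃ m, n = m + 3 := ⟨n - 3, by omega⟩
  have h2 : (SimpleGraph.cycleGraph (m + 3)).degree u = 2 :=
    SimpleGraph.cycleGraph_degree_three_le
  obtain ⟨w, hw⟩ : ∃ w, (SimpleGraph.cycleGraph (m + 3)).Adj u w := by
    have h3 : 0 < (SimpleGraph.cycleGraph (m + 3)).degree u := by omega
    exact (SimpleGraph.degree_pos_iff_exists_adj _ _).1 h3
  exact (f.map_adj hw).2.1

/-- a short cycle in an ordered bipartite pattern with few inner vertices or inner edges -/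
theorem exists_short2 {k : ℕ} (P : SimpleGraph (Fin k)) (hO : OrdBip P)
    (hk : innerVerts P ≤ 11 ∨ innerEdges P ≤ 11) (h : ¬ P.IsAcyclic) :
    ∃ r : ℕ, 2 ≤ r ∧ r ≤ 5 ∧ (SimpleGraph.cycleGraph (2 * r)).IsContained P := by
  classical
  rw [SimpleGraph.isAcyclic_iff_free_cycleGraph] at h
  obtain ⟨n, hn, hc⟩ : ∃ n : ℕ, 3 ≤ n ∧ (SimpleGraph.cycleGraph n).IsContained P := by
    by_contra hcon
    exact h fun n hn hc => hcon ⟨n, hn, hc⟩
  obtain ⟨m, hm⟩ := hO
  have hnk : n ≤ 11 := by
    rcases hk with hk | hk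
    · exact (cyc_verts P n hn hc).trans hk
    · have h1 := contained_edges _ (inn P) (cyc_inn P n hn hc)
      rw [innerEdges_eq] at h1
      have h2 : (SimpleGraph.cycleGraph n).edgeSet.ncard = n := by
        have h3 := cycle_edges n hn
        rw [Set.ncard_eq_toFinset_card']
        exact h3
      omega
  have hcol : P.Colorable 2 := by
    refine ⟨SimpleGraph.Coloring.mk (fun x => if x.val < m then (0 : Fin 2) else 1) ?_⟩
    intro u v huv
    have := hm u v huv
    by_cases h1 : u.val < m
    · have h2 : ¬ v.val < m := by have := this.1 h1; omega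
      rw [if_pos h1, if_neg h2]
      decide
    · have h2 : v.val < m := by
        by_contra h3
        exact h1 (this.2 (by omega))
      rw [if_neg h1, if_pos h2]
      decide
  have hcol' : (SimpleGraph.cycleGraph n).Colorable 2 := by
    obtain ⟨⟨f, hf⟩⟩ := hc
    exact hcol.of_hom f
  have heven : Even n := by
    by_contra hodd
    rw [Nat.not_even_iff_odd] at hodd
    have h1 := SimpleGraph.chromaticNumber_cycleGraph_of_odd n (by omega) hodd
    have h2 := hcol'.chromaticNumber_le
    rw [h1] at h2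
    exact absurd h2 (by decide)
  obtain ⟨r, hr⟩ := heven
  refine ⟨r, by omega, by omega, ?_⟩
  have : n = 2 * r := by omega
  rw [← this]
  exact hc

/-- few inner vertices or inner edges and no four-cycle -/
theorem side2_small {k : ℕ} (P : SimpleGraph (Fin k)) (hO : OrdBip P)
    (hfree : ¬ (SimpleGraph.cycleGraph (2 * 2)).IsContained P)
    (h : innerVerts P ≤ 11 ∨ innerEdges P ≤ 11) : HubSide2 2 P := by
  classical
  obtain ⟨m, hm⟩ := hO
  obtain ⟨A, hA, hd⟩ := side_small_m (inn P) m (inn_bip hm)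
    (fun hc => hfree (hc.mono_right (inn_le P)))
    (univ.filter (fun w => 2 ≤ (P.neighborSet w).ncard))
    (fun u v huv => mem_filter.2 ⟨mem_univ _, huv.2.2⟩) (by
      rw [innerEdges_eq]
      refine h.imp_left fun h1 => ?_
      unfold innerVerts at h1
      rw [← Set.ncard_coe_finset, Finset.coe_filter]
      simpa using h1)
  refine ⟨m, A, hm, hA, ?_⟩
  rcases hd with hd | hd
  · exact Or.inl fun w hw hwA => inner_le_of P 2 (by norm_num) w (hd w hw hwA)
  · exact Or.inr fun w hw hwA => inner_le_of P 2 (by norm_num) w (hd w hw hwA)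

end H152HR
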